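import Mathlib

/-!
Definitions for MP_ddcbd8_an (helper938): pointwise convergence of the approximating densities of
Bernoulli convolutions.
-/

set_option autoImplicit false

namespace Pool.Agent.H938D

open MeasureTheory Filter Topology

/-- the interval `I_β = [0, 1/(β-1)]` -/
def IB (β : ℝ) : Set ℝ := Set.Icc 0 (1 / (β - 1))

/-- the approximating densities `f_n` -/
noncomputable def fB (β : ℝ) : ℕ → ℝ → ℝ
  | 0 => (IB β).indicator (fun _ => β - 1)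
  | n + 1 => (IB β).indicator (fun x => β / 2 * (fB β n (β * x) + fB β n (β * x - 1)))

/-- the Bernoulli convolution: the law of `∑_{k ≥ 1} a_k β^{-k}`, `a_k` independent and uniform on
`{0, 1}` -/
noncomputable def nuB (β : ℝ) : Measure ℝ :=
  Measure.map (fun ω : ℕ → Bool => ∑' k : ℕ, (if ω k then (1 : ℝ) else 0) * (β⁻¹) ^ (k + 1))
    (Measure.infinitePi (fun _ : ℕ => (PMF.uniformOfFintype Bool).toMeasure))

/-- `X_a = ∑_{k=1}^n a_k β^{-k}` -/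
noncomputable def XX (β : ℝ) {n : ℕ} (a : Fin n → Bool) : ℝ :=
  ∑ k : Fin n, (if a k then (1 : ℝ) else 0) * (β⁻¹) ^ ((k : ℕ) + 1)

/-- the transfer operator `P_n ρ (x) = (β/2)^n ∑_a ρ(β^n (x - X_a))` -/
noncomputable def PP (β : ℝ) (n : ℕ) (ρ : ℝ → ℂ) (x : ℝ) : ℂ :=
  ((β / 2) ^ n : ℝ) * ∑ a : Fin n → Bool, ρ (β ^ n * (x - XX β a))

open Classical in
/-- `(β/2)^n #{a : α ≤ β^n (x - X_a) ≤ γ}` -/
noncomputable def cnt (β : ℝ) (n : ℕ) (x α γ : ℝ) : ℝ :=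
  (β / 2) ^ n * ((Finset.univ.filter (fun a : Fin n → Bool =>
    α ≤ β ^ n * (x - XX β a) ∧ β ^ n * (x - XX β a) ≤ γ)).card : ℝ)

/-- a nice version of the density of the Bernoulli convolution -/
structure Dens (β : ℝ) (h : ℝ → ℝ) : Prop where
  one_lt : 1 < β
  lt_two : β < 2
  meas : Measurable h
  nonneg : ∀ x, 0 ≤ h x
  int : Integrable h
  one : ∫ x, h x = 1
  supp : ∀ x, x ∉ IB β → h x = 0
  ss : ∀ᵐ x, h x = β / 2 * (h (β * x) + h (β * x - 1))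

/-- Lebesgue points -/
def Good (h : ℝ → ℝ) (x : ℝ) : Prop :=
  Tendsto (fun r : ℝ => (∫ y in (x - r)..(x + r), |h y - h x|) / r) (𝓝[>] 0) (𝓝 0)

/-- the Fourier transform of `h`, `∫ e^{-2πi s y} h(y) dy` -/
noncomputable def hh (h : ℝ → ℝ) (s : ℝ) : ℂ :=
  ∫ y, Complex.exp (((-(2 * Real.pi * s * y) : ℝ) : ℂ) * Complex.I) * (h y : ℂ)

/-- cubic decay -/
def Dec3 (C : ℝ) (ρ : ℝ → ℂ) : Prop := ∀ u : ℝ, ‖ρ u‖ ≤ C * ((1 + |u|) ^ 3)⁻¹

/-- the inverse Fourier transform `∫ g(t) e^{2πi t u} dt` -/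
noncomputable def ift (g : ℝ → ℂ) (u : ℝ) : ℂ :=
  ∫ t, g t * Complex.exp (((2 * Real.pi * t * u : ℝ) : ℂ) * Complex.I)

/-- the wave packet `e^{2πi s u} T⁻¹ Ψ(u/T)` -/
noncomputable def EE (s T : ℝ) (Ψ : ℝ → ℂ) (u : ℝ) : ℂ :=
  Complex.exp (((2 * Real.pi * s * u : ℝ) : ℂ) * Complex.I) * ((T⁻¹ : ℝ) : ℂ) * Ψ (u / T)

end Pool.Agent.H938D
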