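import Pool.Agent.H938_Dens.Defs

set_option autoImplicit false

namespace Pool.Agent.H938D

open MeasureTheory Filter Topology


theorem XX_cons (β : ℝ) {n : ℕ} (i : Bool) (a : Fin n → Bool) :
    XX β (Fin.cons i a : Fin (n + 1) → Bool) = ((if i then (1 : ℝ) else 0) + XX β a) * β⁻¹ := by
  unfold XX
  rw [Fin.sum_univ_succ, add_mul, Finset.sum_mul]
  congr 1
  · simp
  · refine Finset.sum_congr rfl fun k _ => ?_
    rw [Fin.cons_succ, Fin.val_succ]
    ring

theorem XX_nonneg {β : ℝ} (h1 : 1 < β) {n : ℕ} (a : Fin n → Bool) : 0 ≤ XX β a := by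
  unfold XX
  refine Finset.sum_nonneg fun k _ => mul_nonneg (by split_ifs <;> norm_num) ?_
  exact pow_nonneg (inv_nonneg.2 (by linarith)) _

theorem XX_le {β : ℝ} (h1 : 1 < β) (n : ℕ) : ∀ a : Fin n → Bool,
    XX β a + (β⁻¹) ^ n * (1 / (β - 1)) ≤ 1 / (β - 1) := by
  induction n with
  | zero =>
    intro a
    unfold XX
    simp
  | succ n ih =>
    intro a
    obtain ⟨i, b, rfl⟩ : ∃ (i : Bool) (b : Fin n → Bool), a = Fin.cons i b :=
      ⟨a 0, Fin.tail a, (Fin.cons_self_tail a).symm⟩
    rw [XX_cons]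
    have h2 := ih b
    have hb : 0 < β⁻¹ := inv_pos.2 (by linarith)
    have h3 : (if i then (1 : ℝ) else 0) ≤ 1 := by split_ifs <;> norm_num
    have h4 : (1 + 1 / (β - 1)) * β⁻¹ = 1 / (β - 1) := by
      have : β - 1 ≠ 0 := by linarith
      have h' : β ≠ 0 := by linarith
      field_simp
      ring
    calc ((if i then (1 : ℝ) else 0) + XX β b) * β⁻¹ + (β⁻¹) ^ (n + 1) * (1 / (β - 1))
        = ((if i then (1 : ℝ) else 0) + (XX β b + (β⁻¹) ^ n * (1 / (β - 1)))) * β⁻¹ := by ring
      _ ≤ (1 + 1 / (β - 1)) * β⁻¹ := mul_le_mul_of_nonneg_right (by linarith) hb.le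
      _ = 1 / (β - 1) := h4

theorem cnt_succ {β : ℝ} (h1 : 1 < β) (n : ℕ) (x α γ : ℝ) :
    cnt β (n + 1) x α γ = β / 2 * (cnt β n (β * x) α γ + cnt β n (β * x - 1) α γ) := by
  classical
  unfold cnt
  have hb : β ≠ 0 := by linarith
  have hcard : ((Finset.univ.filter (fun a : Fin (n + 1) → Bool =>
      α ≤ β ^ (n + 1) * (x - XX β a) ∧ β ^ (n + 1) * (x - XX β a) ≤ γ)).card : ℝ) =
      ((Finset.univ.filter (fun a : Fin n → Bool =>
      α ≤ β ^ n * (β * x - XX β a) ∧ β ^ n * (β * x - XX β a) ≤ γ)).card : ℝ) +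
      ((Finset.univ.filter (fun a : Fin n → Bool =>
      α ≤ β ^ n * (β * x - 1 - XX β a) ∧ β ^ n * (β * x - 1 - XX β a) ≤ γ)).card : ℝ) := by
    simp only [Finset.card_filter, Nat.cast_sum]
    rw [← (Fin.consEquiv (fun _ : Fin (n + 1) => Bool)).sum_comp, Fintype.sum_prod_type,
      Fintype.sum_bool, add_comm]
    congr 1
    · refine Finset.sum_congr rfl fun a _ => ?_
      have e : β ^ (n + 1) * (x - XX β ((Fin.consEquiv fun _ : Fin (n + 1) => Bool) (false, a))) =
          β ^ n * (β * x - XX β a) := by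
        have e' : (Fin.consEquiv fun _ : Fin (n + 1) => Bool) (false, a) = Fin.cons false a := rfl
        rw [e', XX_cons, pow_succ]
        simp only [Bool.false_eq_true, if_false, zero_add]
        field_simp
      rw [e]
    · refine Finset.sum_congr rfl fun a _ => ?_
      have e : β ^ (n + 1) * (x - XX β ((Fin.consEquiv fun _ : Fin (n + 1) => Bool) (true, a))) =
          β ^ n * (β * x - 1 - XX β a) := by
        have e' : (Fin.consEquiv fun _ : Fin (n + 1) => Bool) (true, a) = Fin.cons true a := rfl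
        rw [e', XX_cons, pow_succ]
        simp only [if_true]
        field_simp
        ring
      rw [e]
  rw [hcard]
  ring

theorem cnt_zero_of_notMem {β : ℝ} (h1 : 1 < β) (n : ℕ) (x : ℝ) (hx : x ∉ IB β) :
    cnt β n x 0 (1 / (β - 1)) = 0 := by
  classical
  unfold cnt
  rw [Finset.filter_false_of_mem, Finset.card_empty, Nat.cast_zero, mul_zero]
  rintro a _ ⟨h2, h3⟩
  apply hx
  have hp : 0 < β ^ n := by positivity
  have h4 : 0 ≤ x - XX β a := by
    by_contra h
    push Not at h
    have := mul_neg_of_pos_of_neg hp h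
    linarith
  refine ⟨by linarith [XX_nonneg h1 a], ?_⟩
  have h5 : x - XX β a ≤ (β⁻¹) ^ n * (1 / (β - 1)) := by
    have h6 := mul_le_mul_of_nonneg_left h3 (inv_nonneg.2 hp.le)
    rw [inv_mul_cancel_left₀ hp.ne', ← inv_pow] at h6
    exact h6
  linarith [XX_le h1 n a]

/-- TARGET -/
theorem fB_eq {β : ℝ} (h1 : 1 < β) (n : ℕ) (x : ℝ) :
    fB β n x = (β - 1) * cnt β n x 0 (1 / (β - 1)) := by
  classical
  induction n generalizing x with
  | zero =>
    by_cases hx : x ∈ IB β
    · have h2 : cnt β 0 x 0 (1 / (β - 1)) = 1 := by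
        unfold cnt
        rw [Finset.filter_true_of_mem, pow_zero, one_mul, Finset.card_univ]
        · simp
        · intro a _
          have h3 : XX β a = 0 := by
            unfold XX
            simp
          rw [h3, pow_zero, one_mul, sub_zero]
          exact hx
      rw [h2, mul_one]
      exact Set.indicator_of_mem hx _
    · rw [cnt_zero_of_notMem h1 0 x hx, mul_zero]
      exact Set.indicator_of_notMem hx _
  | succ n ih =>
    by_cases hx : x ∈ IB β
    · have h2 : fB β (n + 1) x = β / 2 * (fB β n (β * x) + fB β n (β * x - 1)) :=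
        Set.indicator_of_mem hx _
      rw [h2, ih, ih, cnt_succ h1]
      ring
    · rw [cnt_zero_of_notMem h1 (n + 1) x hx, mul_zero]
      exact Set.indicator_of_notMem hx _

end Pool.Agent.H938D
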