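import Pool.Agent.H938_Dens.Defs

set_option autoImplicit false

namespace Pool.Agent.H938D

open MeasureTheory Filter Topology

/-- the digit measure -/
noncomputable abbrev D04_u : Measure Bool := (PMF.uniformOfFintype Bool).toMeasure

/-- the law of the digits -/
noncomputable abbrev D04_P : Measure (ℕ → Bool) := Measure.infinitePi (fun _ : ℕ => D04_u)

/-- the value of a digit sequence -/
noncomputable def D04_Y (β : ℝ) (ω : ℕ → Bool) : ℝ :=
  ∑' k : ℕ, (if ω k then (1 : ℝ) else 0) * (β⁻¹) ^ (k + 1)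

/-- prepend a digit -/
def D04_cons (p : Bool × (ℕ → Bool)) : ℕ → Bool := fun n => Nat.casesOn n p.1 p.2

theorem D04_cons_meas : Measurable D04_cons := by
  refine measurable_pi_lambda _ fun n => ?_
  cases n with
  | zero => exact measurable_fst
  | succ n => exact (measurable_pi_apply n).comp measurable_snd

theorem D04_cons_law : (D04_u.prod D04_P).map D04_cons = D04_P := by
  refine Measure.eq_infinitePi _ ?_
  intro s t ht
  have hms : MeasurableSet (Set.pi (s : Set ℕ) t) :=
    MeasurableSet.pi s.countable_toSet fun i _ => ht i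
  rw [Measure.map_apply D04_cons_meas hms]
  set s' : Finset ℕ := s.preimage Nat.succ (Nat.succ_injective.injOn) with hs'
  have hpre : D04_cons ⁻¹' (Set.pi (s : Set ℕ) t) =
      (if 0 ∈ s then t 0 else Set.univ) ×ˢ (Set.pi (s' : Set ℕ) fun i => t (i + 1)) := by
    ext ⟨b, ω⟩
    simp only [Set.mem_preimage, Set.mem_pi, Finset.mem_coe, Set.mem_prod]
    constructor
    · intro h
      refine ⟨?_, ?_⟩
      · split_ifs with h0
        · exact h 0 h0
        · trivial
      · intro i hi
        rw [hs', Finset.mem_preimage] at hi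
        exact h (i + 1) hi
    · rintro ⟨h1, h2⟩ i hi
      cases i with
      | zero =>
        rw [if_pos hi] at h1
        exact h1
      | succ i =>
        refine h2 i ?_
        rw [hs', Finset.mem_preimage]
        exact hi
  rw [hpre, Measure.prod_prod, Measure.infinitePi_pi (fun _ : ℕ => D04_u) fun i _ => ht (i + 1)]
  have himg : s.erase 0 = s'.map ⟨Nat.succ, Nat.succ_injective⟩ := by
    ext i
    simp only [Finset.mem_erase, Finset.mem_map, Function.Embedding.coeFn_mk, hs',
      Finset.mem_preimage]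
    constructor
    · rintro ⟨h1, h2⟩
      obtain ⟨j, rfl⟩ := Nat.exists_eq_succ_of_ne_zero h1
      exact ⟨j, h2, rfl⟩
    · rintro ⟨j, h1, rfl⟩
      exact ⟨Nat.succ_ne_zero j, h1⟩
  have hprod : ∏ i ∈ s.erase 0, D04_u (t i) = ∏ i ∈ s', D04_u (t (i + 1)) := by
    rw [himg, Finset.prod_map]
    rfl
  by_cases h0 : 0 ∈ s
  · rw [if_pos h0, ← Finset.mul_prod_erase s _ h0, hprod]
  · rw [if_neg h0, measure_univ, one_mul, ← hprod, Finset.erase_eq_of_notMem h0]

theorem D04_summable {β : ℝ} (h1 : 1 < β) (ω : ℕ → Bool) :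
    Summable (fun k : ℕ => (if ω k then (1 : ℝ) else 0) * (β⁻¹) ^ (k + 1)) := by
  have hb : 0 ≤ β⁻¹ := by positivity
  have hb1 : β⁻¹ < 1 := inv_lt_one_of_one_lt₀ h1
  have hg : Summable (fun k : ℕ => (β⁻¹) ^ (k + 1)) :=
    (summable_nat_add_iff 1).2 (summable_geometric_of_lt_one hb hb1)
  refine Summable.of_nonneg_of_le (fun k => ?_) (fun k => ?_) hg
  · split_ifs <;> positivity
  · split_ifs
    · rw [one_mul]
    · rw [zero_mul]; positivity

theorem D04_Y_meas {β : ℝ} (h1 : 1 < β) : Measurable (D04_Y β) := by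
  refine measurable_of_tendsto_metrizable (f := fun n ω => ∑ k ∈ Finset.range n,
    (if ω k then (1 : ℝ) else 0) * (β⁻¹) ^ (k + 1)) (fun n => ?_) ?_
  · refine Finset.measurable_sum _ fun k _ => ?_
    refine Measurable.mul_const ?_ _
    exact (measurable_from_top (f := fun b : Bool => if b then (1 : ℝ) else 0)).comp
      (measurable_pi_apply k)
  · rw [tendsto_pi_nhds]
    intro ω
    exact (D04_summable h1 ω).hasSum.tendsto_sum_nat

theorem D04_Y_mem {β : ℝ} (h1 : 1 < β) (ω : ℕ → Bool) : D04_Y β ω ∈ IB β := by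
  have hb : 0 < β⁻¹ := by positivity
  have hb1 : β⁻¹ < 1 := inv_lt_one_of_one_lt₀ h1
  have hg : HasSum (fun k : ℕ => (β⁻¹) ^ (k + 1)) (1 / (β - 1)) := by
    have h := (hasSum_geometric_of_lt_one hb.le hb1).mul_left β⁻¹
    have e : β⁻¹ * (1 - β⁻¹)⁻¹ = 1 / (β - 1) := by
      have : β - 1 ≠ 0 := by linarith
      have h0 : β ≠ 0 := by linarith
      have h2 : 1 - β⁻¹ ≠ 0 := by linarith
      field_simp
    rw [e] at h
    have e2 : (fun k : ℕ => β⁻¹ * β⁻¹ ^ k) = fun k : ℕ => β⁻¹ ^ (k + 1) := by
      funext k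
      rw [pow_succ']
    rw [e2] at h
    exact h
  refine ⟨?_, ?_⟩
  · refine tsum_nonneg fun k => ?_
    split_ifs <;> positivity
  · rw [← hg.tsum_eq]
    refine Summable.tsum_le_tsum (fun k => ?_) (D04_summable h1 ω) hg.summable
    split_ifs
    · rw [one_mul]
    · rw [zero_mul]; positivity

theorem D04_Y_cons {β : ℝ} (h1 : 1 < β) (b : Bool) (ω : ℕ → Bool) :
    D04_Y β (D04_cons (b, ω)) = ((if b then (1 : ℝ) else 0) + D04_Y β ω) * β⁻¹ := by
  unfold D04_Y
  rw [(D04_summable h1 _).tsum_eq_zero_add, add_mul, ← tsum_mul_right]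
  congr 1
  · change (if b then (1 : ℝ) else 0) * β⁻¹ ^ (0 + 1) = _
    rw [zero_add, pow_one]
  · refine tsum_congr fun k => ?_
    change (if ω k then (1 : ℝ) else 0) * β⁻¹ ^ (k + 1 + 1) = _
    rw [pow_succ, mul_assoc]

theorem D04_u_singleton (b : Bool) : D04_u {b} = 1 / 2 := by
  rw [PMF.toMeasure_apply_singleton _ _ (measurableSet_singleton b), PMF.uniformOfFintype_apply]
  simp

theorem D04_ss {β : ℝ} (h1 : 1 < β) {A : Set ℝ} (hA : MeasurableSet A) :
    nuB β A = 1 / 2 * nuB β ((fun y : ℝ => y * β⁻¹) ⁻¹' A) +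
      1 / 2 * nuB β ((fun y : ℝ => (1 + y) * β⁻¹) ⁻¹' A) := by
  have hY := D04_Y_meas h1
  have hnu : nuB β = D04_P.map (D04_Y β) := rfl
  have m1 : Measurable (fun y : ℝ => y * β⁻¹) := measurable_id.mul_const _
  have m2 : Measurable (fun y : ℝ => (1 + y) * β⁻¹) := (measurable_const.add measurable_id).mul_const _
  rw [hnu, Measure.map_apply hY hA, Measure.map_apply hY (m1 hA), Measure.map_apply hY (m2 hA)]
  conv_lhs => rw [← D04_cons_law]
  rw [Measure.map_apply D04_cons_meas (hY hA)]
  have hpre : D04_cons ⁻¹' (D04_Y β ⁻¹' A) =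
      ({false} ×ˢ (D04_Y β ⁻¹' ((fun y : ℝ => y * β⁻¹) ⁻¹' A))) ∪
      ({true} ×ˢ (D04_Y β ⁻¹' ((fun y : ℝ => (1 + y) * β⁻¹) ⁻¹' A))) := by
    ext ⟨b, ω⟩
    cases b with
    | false =>
      simp only [Set.mem_preimage, Set.mem_union, Set.mem_prod, Set.mem_singleton_iff, true_and,
        Bool.false_eq_true, false_and, or_false]
      rw [D04_Y_cons h1]
      simp
    | true =>
      simp only [Set.mem_preimage, Set.mem_union, Set.mem_prod, Set.mem_singleton_iff, true_and,
        Bool.true_eq_false, false_and, false_or]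
      rw [D04_Y_cons h1]
      simp
  rw [hpre, measure_union _ ((measurableSet_singleton _).prod (hY (m2 hA))), Measure.prod_prod,
    Measure.prod_prod, D04_u_singleton, D04_u_singleton]
  rw [Set.disjoint_left]
  rintro ⟨b, ω⟩ hb1 hb2
  have e1 : b = false := hb1.1
  have e2 : b = true := hb2.1
  rw [e1] at e2
  exact Bool.false_ne_true e2

/-- change of variables -/
theorem D04_cv {β : ℝ} (h1 : 1 < β) (c : ℝ) {A : Set ℝ} (hA : MeasurableSet A) (H : ℝ → ENNReal)
    (hH : Measurable H) :
    ∫⁻ x in A, H (β * x - c) = ENNReal.ofReal β⁻¹ *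
      ∫⁻ y in ((fun y : ℝ => (c + y) * β⁻¹) ⁻¹' A), H y := by
  have hβ : β ≠ 0 := by linarith
  have m2 : Measurable (fun y : ℝ => (c + y) * β⁻¹) :=
    (measurable_const.add measurable_id).mul_const _
  rw [← lintegral_indicator hA, ← lintegral_indicator (m2 hA)]
  have e : (fun x => A.indicator (fun x => H (β * x - c)) x) = fun x =>
      (fun z => (((fun y : ℝ => (c + y) * β⁻¹) ⁻¹' A).indicator H) (z - c)) (β * x) := by
    funext x
    have ex : (c + (β * x - c)) * β⁻¹ = x := by
      field_simp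
      ring
    change A.indicator (fun x => H (β * x - c)) x =
      ((fun y : ℝ => (c + y) * β⁻¹) ⁻¹' A).indicator H (β * x - c)
    by_cases hx : x ∈ A
    · rw [Set.indicator_of_mem hx, Set.indicator_of_mem]
      change (c + (β * x - c)) * β⁻¹ ∈ A
      rw [ex]; exact hx
    · rw [Set.indicator_of_notMem hx, Set.indicator_of_notMem]
      change ¬ (c + (β * x - c)) * β⁻¹ ∈ A
      rw [ex]; exact hx
  have hmeas : Measurable (fun z => (((fun y : ℝ => (c + y) * β⁻¹) ⁻¹' A).indicator H) (z - c)) :=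
    (hH.indicator (m2 hA)).comp (measurable_id.sub_const c)
  rw [show (∫⁻ x, A.indicator (fun x => H (β * x - c)) x) = ∫⁻ x,
      (fun z => (((fun y : ℝ => (c + y) * β⁻¹) ⁻¹' A).indicator H) (z - c)) (β * x) from
      congrArg _ e]
  rw [← lintegral_map hmeas (measurable_const_mul β), Real.map_volume_mul_left hβ,
    lintegral_smul_measure, abs_of_pos (by positivity)]
  congr 1
  exact lintegral_sub_right_eq_self (fun z => (((fun y : ℝ => (c + y) * β⁻¹) ⁻¹' A).indicator H) z) c

/-- TARGET -/
theorem exists_dens {β : ℝ} (h1 : 1 < β) (h2 : β < 2) (hac : nuB β ≪ (volume : Measure ℝ)) :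
    ∃ h : ℝ → ℝ, Dens β h ∧ ∀ᵐ x, h x = ((nuB β).rnDeriv volume x).toReal := by
  have hY := D04_Y_meas h1
  have hprob : IsProbabilityMeasure (nuB β) :=
    Measure.isProbabilityMeasure_map (μ := D04_P) hY.aemeasurable
  set f : ℝ → ENNReal := (nuB β).rnDeriv volume with hf
  have hfm : Measurable f := Measure.measurable_rnDeriv _ _
  have hwd : (volume : Measure ℝ).withDensity f = nuB β := Measure.withDensity_rnDeriv_eq _ _ hac
  have hIB : MeasurableSet (IB β) := measurableSet_Icc
  have hnull : nuB β (IB β)ᶜ = 0 := by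
    change (D04_P.map (D04_Y β)) (IB β)ᶜ = 0
    rw [Measure.map_apply hY hIB.compl]
    have : D04_Y β ⁻¹' (IB β)ᶜ = ∅ := by
      ext ω
      simp only [Set.mem_preimage, Set.mem_compl_iff, Set.mem_empty_iff_false, iff_false, not_not]
      exact D04_Y_mem h1 ω
    rw [this, measure_empty]
  have hout : ∀ᵐ x, x ∉ IB β → f x = 0 := by
    rw [← hwd, withDensity_apply _ hIB.compl, lintegral_eq_zero_iff hfm] at hnull
    have := (ae_restrict_iff' hIB.compl).1 hnull
    filter_upwards [this] with x hx hxI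
    exact hx hxI
  have hfin : ∀ᵐ x, f x < ⊤ := Measure.rnDeriv_lt_top _ _
  set h : ℝ → ℝ := (IB β).indicator fun x => (f x).toReal with hh
  have hhm : Measurable h := hfm.ennreal_toReal.indicator hIB
  have hae : ∀ᵐ x, h x = (f x).toReal := by
    filter_upwards [hout] with x hx
    by_cases hxI : x ∈ IB β
    · rw [hh, Set.indicator_of_mem hxI]
    · rw [hh, Set.indicator_of_notMem hxI, hx hxI, ENNReal.toReal_zero]
  have hnn : ∀ x, 0 ≤ h x := fun x => Set.indicator_nonneg (fun _ _ => ENNReal.toReal_nonneg) x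
  have hfae : ∀ᵐ x, f x = ENNReal.ofReal (h x) := by
    filter_upwards [hae, hfin] with x hx hx2
    rw [hx, ENNReal.ofReal_toReal hx2.ne]
  set H : ℝ → ENNReal := fun x => ENNReal.ofReal (h x) with hH
  have hHm : Measurable H := hhm.ennreal_ofReal
  have hnuA : ∀ A : Set ℝ, MeasurableSet A → nuB β A = ∫⁻ x in A, H x := by
    intro A hA
    rw [← hwd, withDensity_apply _ hA]
    exact lintegral_congr_ae (ae_restrict_of_ae hfae)
  refine ⟨h, ⟨h1, h2, hhm, hnn, ?_, ?_, ?_, ?_⟩, hae⟩
  · have : Integrable fun x => (f x).toReal := Measure.integrable_toReal_rnDeriv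
    exact this.indicator hIB
  · rw [integral_congr_ae hae, hf, Measure.integral_toReal_rnDeriv hac]
    simp
  · intro x hx
    rw [hh, Set.indicator_of_notMem hx]
  · have key : H =ᵐ[volume] fun x => ENNReal.ofReal (β / 2) * (H (β * x - 0) + H (β * x - 1)) := by
      refine ae_eq_of_forall_setLIntegral_eq_of_sigmaFinite hHm ?_ ?_
      · have m0 : Measurable (fun x => H (β * x - 0)) :=
          hHm.comp ((measurable_const_mul β).sub_const 0)
        have m1 : Measurable (fun x => H (β * x - 1)) :=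
          hHm.comp ((measurable_const_mul β).sub_const 1)
        exact (m0.add m1).const_mul _
      · intro A hA _
        have m0 : Measurable (fun x => H (β * x - 0)) :=
          hHm.comp ((measurable_const_mul β).sub_const 0)
        have m1 : Measurable (fun x => H (β * x - 1)) :=
          hHm.comp ((measurable_const_mul β).sub_const 1)
        have ee : ∫⁻ x in A, ENNReal.ofReal (β / 2) * (H (β * x - 0) + H (β * x - 1)) =
            ENNReal.ofReal (β / 2) * ((∫⁻ x in A, H (β * x - 0)) + ∫⁻ x in A, H (β * x - 1)) := by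
          rw [← lintegral_add_left m0]
          exact lintegral_const_mul _ (m0.add m1)
        rw [ee, D04_cv h1 0 hA H hHm, D04_cv h1 1 hA H hHm, ← hnuA A hA, D04_ss h1 hA]
        have p1 : MeasurableSet ((fun y : ℝ => y * β⁻¹) ⁻¹' A) :=
          (measurable_id.mul_const _) hA
        have p2 : MeasurableSet ((fun y : ℝ => (1 + y) * β⁻¹) ⁻¹' A) :=
          ((measurable_const.add measurable_id).mul_const _) hA
        have e0 : (fun y : ℝ => (0 + y) * β⁻¹) = fun y : ℝ => y * β⁻¹ := by
          funext y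
          rw [zero_add]
        rw [e0, ← hnuA _ p1, ← hnuA _ p2, ← mul_add, ← mul_add, ← mul_assoc]
        congr 1
        rw [← ENNReal.ofReal_mul (by positivity)]
        have e1 : β / 2 * β⁻¹ = 1 / 2 := by
          have : β ≠ 0 := by linarith
          field_simp
        rw [e1, ENNReal.ofReal_div_of_pos (by norm_num)]
        simp
    filter_upwards [key] with x hx
    have hx' : ENNReal.ofReal (h x) = ENNReal.ofReal (β / 2 * (h (β * x) + h (β * x - 1))) := by
      rw [ENNReal.ofReal_mul (by positivity), ENNReal.ofReal_add (hnn _) (hnn _)]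
      simpa [hH] using hx
    have := congrArg ENNReal.toReal hx'
    rwa [ENNReal.toReal_ofReal (hnn x), ENNReal.toReal_ofReal (by
      have := hnn (β * x); have := hnn (β * x - 1); positivity)] at this

end Pool.Agent.H938D
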