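import Pool.Agent.H938_Dens.Defs

set_option autoImplicit false

namespace Pool.Agent.H938D

open MeasureTheory Filter Topology

/-- TARGET -/
theorem ae_good {β : ℝ} {h : ℝ → ℝ} (D : Dens β h) : ∀ᵐ x, Good h x := by
  have h1 := IsUnifLocDoublingMeasure.ae_tendsto_average_norm_sub (μ := (volume : Measure ℝ))
    D.int.locallyIntegrable 1
  filter_upwards [h1] with x hx
  have h2 := hx (l := 𝓝[>] (0 : ℝ)) (fun _ => x) (fun r => r) tendsto_id
    (by
      filter_upwards [self_mem_nhdsWithin] with r hr
      rw [one_mul]
      exact Metric.mem_closedBall_self (le_of_lt hr))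
  have h3 := h2.const_mul 2
  rw [mul_zero] at h3
  refine h3.congr' ?_
  filter_upwards [self_mem_nhdsWithin] with r hr
  have hr' : (0 : ℝ) < r := hr
  rw [setAverage_eq, Real.closedBall_eq_Icc, intervalIntegral.integral_of_le (by linarith),
    MeasureTheory.integral_Icc_eq_integral_Ioc, measureReal_def, Real.volume_Icc,
    ENNReal.toReal_ofReal (by linarith), smul_eq_mul]
  simp only [Real.norm_eq_abs]
  have e : x + r - (x - r) = 2 * r := by ring
  rw [e]
  field_simp

end Pool.Agent.H938D
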