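import Pool.Agent.H938_Dens.Defs

set_option autoImplicit false

namespace Pool.Agent.H938D

open MeasureTheory Filter Topology

/-- preimages of null sets under affine maps -/
theorem ae_affine_06 {p : ℝ → Prop} (hp : ∀ᵐ x, p x) {b : ℝ} (hb : b ≠ 0) (c : ℝ) :
    ∀ᵐ x, p (b * (x - c)) := by
  have h1 : volume {x | ¬ p x} = 0 := hp
  have h2 : volume ((b * ·) ⁻¹' {x | ¬ p x}) = 0 := by
    rw [Real.volume_preimage_mul_left hb, h1, mul_zero]
  have h3 : volume ((fun x => x - c) ⁻¹' ((b * ·) ⁻¹' {x | ¬ p x})) = 0 := by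
    have e : (fun x : ℝ => x - c) = fun x => x + -c := by funext x; ring
    rw [e, measure_preimage_add_right, h2]
  exact h3

theorem XX_snoc_06 (β : ℝ) {n : ℕ} (a : Fin n → Bool) (i : Bool) :
    XX β (Fin.snoc a i : Fin (n + 1) → Bool)
      = XX β a + (if i then (1 : ℝ) else 0) * (β⁻¹) ^ (n + 1) := by
  unfold XX
  rw [Fin.sum_univ_castSucc]
  simp only [Fin.snoc_castSucc, Fin.snoc_last, Fin.val_castSucc, Fin.val_last]

theorem sum_snoc_06 {n : ℕ} (f : (Fin (n + 1) → Bool) → ℝ) :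
    ∑ a, f a = ∑ a : Fin n → Bool, (f (Fin.snoc a true) + f (Fin.snoc a false)) := by
  rw [← (Fin.snocEquiv fun _ : Fin (n + 1) => Bool).sum_comp, Fintype.sum_prod_type_right]
  refine Finset.sum_congr rfl fun a _ => ?_
  rw [Fintype.sum_bool]
  rfl

/-- TARGET -/
theorem ss_iter {β : ℝ} {h : ℝ → ℝ} (D : Dens β h) (n : ℕ) :
    ∀ᵐ x, h x = (β / 2) ^ n * ∑ a : Fin n → Bool, h (β ^ n * (x - XX β a)) := by
  have hβ : β ≠ 0 := by
    have := D.one_lt
    positivity
  induction n with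
  | zero =>
    refine Filter.Eventually.of_forall fun x => ?_
    simp [XX]
  | succ n ih =>
    have h1 : ∀ᵐ x, ∀ a : Fin n → Bool, h (β ^ n * (x - XX β a)) =
        β / 2 * (h (β * (β ^ n * (x - XX β a))) + h (β * (β ^ n * (x - XX β a)) - 1)) := by
      rw [ae_all_iff]
      intro a
      exact ae_affine_06 D.ss (pow_ne_zero n hβ) (XX β a)
    filter_upwards [ih, h1] with x hx hx1
    rw [hx, sum_snoc_06, pow_succ, mul_assoc, Finset.mul_sum, Finset.mul_sum, Finset.mul_sum]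
    refine Finset.sum_congr rfl fun a _ => ?_
    rw [hx1 a, XX_snoc_06, XX_snoc_06]
    have e1 : β ^ (n + 1) * (x - (XX β a + (if (true : Bool) then (1 : ℝ) else 0) * β⁻¹ ^ (n + 1)))
        = β * (β ^ n * (x - XX β a)) - 1 := by
      have h3 : β ^ (n + 1) * β⁻¹ ^ (n + 1) = 1 := by
        rw [← mul_pow, mul_inv_cancel₀ hβ, one_pow]
      rw [if_pos rfl, one_mul, mul_sub, mul_add, h3, pow_succ]
      ring
    have e2 : β ^ (n + 1) * (x - (XX β a + (if (false : Bool) then (1 : ℝ) else 0) * β⁻¹ ^ (n + 1)))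
        = β * (β ^ n * (x - XX β a)) := by
      rw [if_neg (by simp), zero_mul, add_zero, pow_succ]
      ring
    rw [e1, e2]
    ring

end Pool.Agent.H938D
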