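import Pool.Agent.H938_Dens.Defs
import Pool.Agent.H938_Dens.L06

set_option autoImplicit false

namespace Pool.Agent.H938D

open MeasureTheory Filter Topology


namespace L07

/-- the mass of an interval containing the support -/
lemma mass {β : ℝ} {h : ℝ → ℝ} (D : Dens β h) {c d : ℝ} (hc : c ≤ 0) (hd : 1 / (β - 1) ≤ d) :
    ∫ y in c..d, h y = 1 := by
  have hR : 0 < 1 / (β - 1) := by
    have := D.one_lt
    exact one_div_pos.2 (by linarith)
  rw [intervalIntegral.integral_of_le (by linarith), ← integral_Icc_eq_integral_Ioc,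
    setIntegral_eq_integral_of_forall_compl_eq_zero, D.one]
  intro x hx
  refine D.supp x fun h2 => hx ?_
  unfold IB at h2
  rw [Set.mem_Icc] at h2 ⊢
  constructor <;> linarith [h2.1, h2.2]

end L07

/-- TARGET -/
theorem cnt_le {β : ℝ} {h : ℝ → ℝ} (D : Dens β h) (n : ℕ) (x α γ : ℝ) (hαγ : α ≤ γ) :
    cnt β n x α γ ≤
      β ^ n * ∫ y in (x - (β⁻¹) ^ n * γ)..(x - (β⁻¹) ^ n * (α - 1 / (β - 1))), h y := by
  classical
  have hβ : 0 < β := by linarith [D.one_lt]
  have hR : 0 < 1 / (β - 1) := by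
    have := D.one_lt
    exact one_div_pos.2 (by linarith)
  have hB : 0 < β ^ n := pow_pos hβ n
  have hBi : 0 < (β⁻¹) ^ n := pow_pos (inv_pos.2 hβ) n
  have hBB : β ^ n * (β⁻¹) ^ n = 1 := by rw [← mul_pow, mul_inv_cancel₀ hβ.ne', one_pow]
  set lo := x - (β⁻¹) ^ n * γ with hlo
  set hi := x - (β⁻¹) ^ n * (α - 1 / (β - 1)) with hhi
  have hle : lo ≤ hi := by
    rw [hlo, hhi]
    have : (β⁻¹) ^ n * (α - 1 / (β - 1)) ≤ (β⁻¹) ^ n * γ :=
      mul_le_mul_of_nonneg_left (by linarith) hBi.le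
    linarith
  have hint : ∀ a : Fin n → Bool, Integrable fun y => h (β ^ n * (y - XX β a)) := by
    intro a
    exact (D.int.comp_mul_left' hB.ne').comp_sub_right (XX β a)
  have h1 : ∫ y in lo..hi, h y =
      (β / 2) ^ n * ∑ a : Fin n → Bool, ∫ y in lo..hi, h (β ^ n * (y - XX β a)) := by
    rw [intervalIntegral.integral_congr_ae (g := fun y => (β / 2) ^ n *
      ∑ a : Fin n → Bool, h (β ^ n * (y - XX β a)))
      (by filter_upwards [ss_iter D n] with y hy _ using hy),
      intervalIntegral.integral_const_mul, intervalIntegral.integral_finsetSum]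
    intro a _
    exact (hint a).intervalIntegrable
  have h2 : ∀ a : Fin n → Bool, 0 ≤ ∫ y in lo..hi, h (β ^ n * (y - XX β a)) := fun a =>
    intervalIntegral.integral_nonneg hle fun y _ => D.nonneg _
  have h3 : ∀ a : Fin n → Bool, α ≤ β ^ n * (x - XX β a) ∧ β ^ n * (x - XX β a) ≤ γ →
      ∫ y in lo..hi, h (β ^ n * (y - XX β a)) = (β ^ n)⁻¹ := by
    intro a ha
    have e : ∀ y, h (β ^ n * (y - XX β a)) = h (β ^ n * y - β ^ n * XX β a) := by
      intro y; rw [mul_sub]
    simp_rw [e]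
    rw [intervalIntegral.integral_comp_mul_sub _ hB.ne', L07.mass D, smul_eq_mul, mul_one]
    · have : β ^ n * lo = β ^ n * x - γ := by
        rw [hlo, mul_sub, ← mul_assoc, hBB, one_mul]
      rw [this]
      linarith [ha.2]
    · have : β ^ n * hi = β ^ n * x - (α - 1 / (β - 1)) := by
        rw [hhi, mul_sub, ← mul_assoc, hBB, one_mul]
      rw [this]
      linarith [ha.1]
  have h4 : ((Finset.univ.filter (fun a : Fin n → Bool =>
      α ≤ β ^ n * (x - XX β a) ∧ β ^ n * (x - XX β a) ≤ γ)).card : ℝ) * (β ^ n)⁻¹ ≤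
      ∑ a : Fin n → Bool, ∫ y in lo..hi, h (β ^ n * (y - XX β a)) := by
    rw [← nsmul_eq_mul, ← Finset.sum_const]
    refine le_trans (Finset.sum_le_sum (g := fun a => ∫ y in lo..hi, h (β ^ n * (y - XX β a)))
      fun a ha => ?_) (Finset.sum_le_sum_of_subset_of_nonneg (Finset.filter_subset _ _)
        fun a _ _ => h2 a)
    exact (h3 a (Finset.mem_filter.1 ha).2).ge
  rw [h1]
  unfold cnt
  have h5 : (0 : ℝ) ≤ (β / 2) ^ n := by positivity
  calc (β / 2) ^ n * ((Finset.univ.filter (fun a : Fin n → Bool =>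
      α ≤ β ^ n * (x - XX β a) ∧ β ^ n * (x - XX β a) ≤ γ)).card : ℝ)
      = β ^ n * ((β / 2) ^ n * (((Finset.univ.filter (fun a : Fin n → Bool =>
      α ≤ β ^ n * (x - XX β a) ∧ β ^ n * (x - XX β a) ≤ γ)).card : ℝ) * (β ^ n)⁻¹)) := by
        field_simp
    _ ≤ _ := mul_le_mul_of_nonneg_left (mul_le_mul_of_nonneg_left h4 h5) hB.le

end Pool.Agent.H938D
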