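import Pool.Agent.H938_Dens.Defs

set_option autoImplicit false

namespace Pool.Agent.H938D

open MeasureTheory Filter Topology

/-- TARGET -/
theorem good_lim {h : ℝ → ℝ} (hi : Integrable h) {x : ℝ} (G : Good h x) {β : ℝ} (h1 : 1 < β)
    (α γ : ℝ) (hαγ : α ≤ γ) :
    Tendsto (fun n : ℕ => β ^ n * ∫ y in (x - (β⁻¹) ^ n * γ)..(x - (β⁻¹) ^ n * α), h y) atTop
      (𝓝 ((γ - α) * h x)) := by
  have h0 : 0 < β := by linarith
  set C : ℝ := |α| + |γ| + 1 with hC
  have hC0 : 0 < C := by positivity
  have hb : ∀ n : ℕ, 0 < (β⁻¹) ^ n := fun n => by positivity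
  have hbn : ∀ n : ℕ, β ^ n * (β⁻¹) ^ n = 1 := fun n => by
    rw [← mul_pow, mul_inv_cancel₀ h0.ne', one_pow]
  have hr : Tendsto (fun n : ℕ => C * (β⁻¹) ^ n) atTop (𝓝[>] 0) := by
    rw [tendsto_nhdsWithin_iff]
    constructor
    · have := (tendsto_pow_atTop_nhds_zero_of_lt_one (inv_nonneg.2 h0.le)
        (inv_lt_one_of_one_lt₀ h1)).const_mul C
      rwa [mul_zero] at this
    · exact Eventually.of_forall fun n => Set.mem_Ioi.2 (mul_pos hC0 (hb n))
  have hG := (G.comp hr).const_mul C
  rw [mul_zero] at hG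
  rw [tendsto_iff_dist_tendsto_zero]
  refine squeeze_zero (fun _ => dist_nonneg) (fun n => ?_) hG
  have hq := hb n
  have ha : |α| ≤ C := by
    have := abs_nonneg γ
    linarith
  have hg : |γ| ≤ C := by
    have := abs_nonneg α
    linarith
  have hα1 := (abs_le.1 ha).1
  have hγ1 := (abs_le.1 hg).2
  set q : ℝ := (β⁻¹) ^ n with hqdef
  have e1 : (∫ y in (x - q * γ)..(x - q * α), h y) =
      (∫ y in (x - q * γ)..(x - q * α), (h y - h x)) + q * (γ - α) * h x := by
    rw [intervalIntegral.integral_sub hi.intervalIntegrable intervalIntegrable_const,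
      intervalIntegral.integral_const, smul_eq_mul]
    ring
  have e2 : β ^ n * (∫ y in (x - q * γ)..(x - q * α), h y) - (γ - α) * h x =
      β ^ n * ∫ y in (x - q * γ)..(x - q * α), (h y - h x) := by
    rw [e1, mul_add]
    have : β ^ n * (q * (γ - α) * h x) = (γ - α) * h x := by
      rw [mul_assoc, ← mul_assoc, hqdef, hbn n, one_mul]
    rw [this]
    ring
  rw [Real.dist_eq, e2, abs_mul, abs_of_pos (pow_pos h0 n)]
  have e3 : |∫ y in (x - q * γ)..(x - q * α), (h y - h x)| ≤
      ∫ y in (x - C * q)..(x + C * q), |h y - h x| := by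
    refine (intervalIntegral.abs_integral_le_integral_abs (by nlinarith)).trans ?_
    refine intervalIntegral.integral_mono_interval (by nlinarith) (by nlinarith) (by nlinarith)
      (Eventually.of_forall fun y => abs_nonneg _)
      ((hi.intervalIntegrable.sub intervalIntegrable_const).abs)
  have e4 : C * ((fun r : ℝ => (∫ y in (x - r)..(x + r), |h y - h x|) / r) ∘
      (fun n : ℕ => C * (β⁻¹) ^ n)) n =
      β ^ n * ∫ y in (x - C * q)..(x + C * q), |h y - h x| := by
    simp only [Function.comp_apply]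
    rw [← hqdef]
    have h5 : β ^ n = q⁻¹ := eq_inv_of_mul_eq_one_left (hbn n)
    rw [h5]
    field_simp
  rw [e4]
  exact mul_le_mul_of_nonneg_left e3 (pow_pos h0 n).le

end Pool.Agent.H938D
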