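import Pool.Agent.H938_Dens.Defs

set_option autoImplicit false

namespace Pool.Agent.H938D

open MeasureTheory Filter Topology

/-- TARGET -/
theorem good_bdd {h : ℝ → ℝ} (hi : Integrable h) (h0 : ∀ x, 0 ≤ h x) {x : ℝ} (G : Good h x) :
    ∃ D : ℝ, 0 ≤ D ∧ ∀ r : ℝ, 0 < r → ∫ y in (x - r)..(x + r), h y ≤ D * r := by
  have h1 : ∀ᶠ r in 𝓝[>] (0 : ℝ), (∫ y in (x - r)..(x + r), |h y - h x|) / r < 1 :=
    G.eventually (gt_mem_nhds one_pos)
  obtain ⟨r0, hr0, hs⟩ := mem_nhdsGT_iff_exists_Ioo_subset.1 h1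
  have hr0' : (0 : ℝ) < r0 := hr0
  have hI : 0 ≤ ∫ y, h y := integral_nonneg h0
  refine ⟨max (1 + 2 * h x) ((∫ y, h y) / r0), le_trans (by have := h0 x; linarith)
    (le_max_left _ _), fun r hr => ?_⟩
  by_cases hrr : r < r0
  · have h2 : (∫ y in (x - r)..(x + r), |h y - h x|) / r < 1 := hs ⟨hr, hrr⟩
    rw [div_lt_one hr] at h2
    have hii : IntervalIntegrable h volume (x - r) (x + r) := hi.intervalIntegrable
    have hci : IntervalIntegrable (fun _ : ℝ => h x) volume (x - r) (x + r) :=
      intervalIntegrable_const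
    have h3 : ∫ y in (x - r)..(x + r), h y =
        (∫ y in (x - r)..(x + r), (h y - h x)) + ∫ _ in (x - r)..(x + r), h x := by
      rw [intervalIntegral.integral_sub hii hci]
      ring
    have h4 : (∫ y in (x - r)..(x + r), (h y - h x)) ≤
        ∫ y in (x - r)..(x + r), |h y - h x| :=
      intervalIntegral.integral_mono_on (by linarith) (hii.sub hci) (hii.sub hci).abs
        (fun y _ => le_abs_self _)
    have h5 : (∫ _ in (x - r)..(x + r), h x) = 2 * r * h x := by
      rw [intervalIntegral.integral_const, smul_eq_mul]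
      ring
    have h6 : (1 + 2 * h x) * r ≤ max (1 + 2 * h x) ((∫ y, h y) / r0) * r :=
      mul_le_mul_of_nonneg_right (le_max_left _ _) hr.le
    linarith
  · push Not at hrr
    have h3 : ∫ y in (x - r)..(x + r), h y ≤ ∫ y, h y := by
      rw [intervalIntegral.integral_of_le (by linarith)]
      exact setIntegral_le_integral hi (Filter.Eventually.of_forall h0)
    have h4 : (∫ y, h y) / r0 * r ≤ max (1 + 2 * h x) ((∫ y, h y) / r0) * r :=
      mul_le_mul_of_nonneg_right (le_max_right _ _) hr.le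
    have h5 : (∫ y, h y) ≤ (∫ y, h y) / r0 * r := by
      rw [div_mul_eq_mul_div, le_div_iff₀ hr0']
      exact mul_le_mul_of_nonneg_left hrr hI
    linarith

end Pool.Agent.H938D
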