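import Pool.Agent.H938_Dens.Defs
import Pool.Agent.H938_Dens.L07
import Pool.Agent.H938_Dens.L08
import Pool.Agent.H938_Dens.L09

set_option autoImplicit false

namespace Pool.Agent.H938D

open MeasureTheory Filter Topology


/-- TARGET -/
theorem limsup_bound {β : ℝ} {h : ℝ → ℝ} (D : Dens β h) {x : ℝ} (G : Good h x)
    (ρ : ℝ → ℂ) (w : ℤ → ℝ) (hw : ∀ u : ℝ, ‖ρ u‖ ≤ w ⌊u⌋)
    (hs : Summable (fun j : ℤ => (|(j : ℝ)| + 1) * w j)) (ε : ℝ) (hε : 0 < ε) :
    ∀ᶠ n : ℕ in atTop, ‖PP β n ρ x‖ ≤ (1 + 1 / (β - 1)) * h x * (∑' j : ℤ, w j) + ε := by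
  have hβ1 : 1 < β := D.one_lt
  have hβ : 0 < β := by linarith
  set R : ℝ := 1 / (β - 1) with hR
  have hR0 : 0 ≤ R := by
    rw [hR]; apply div_nonneg <;> linarith
  have hw0 : ∀ j, 0 ≤ w j := fun j => by
    have h1 := hw (j : ℝ)
    rw [Int.floor_intCast] at h1
    exact (norm_nonneg _).trans h1
  obtain ⟨C, hC0, hC⟩ := good_bdd D.int D.nonneg G
  let d : ℕ → ℤ → ℝ := fun n j =>
    β ^ n * ∫ y in (x - (β⁻¹) ^ n * ((j : ℝ) + 1))..(x - (β⁻¹) ^ n * ((j : ℝ) - R)), h y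
  have hii : ∀ a b : ℝ, IntervalIntegrable h volume a b := fun a b => D.int.intervalIntegrable
  have hpow : ∀ n : ℕ, 0 < (β⁻¹) ^ n := fun n => pow_pos (inv_pos.2 hβ) n
  have hpp : ∀ n : ℕ, β ^ n * (β⁻¹) ^ n = 1 := fun n => by
    rw [← mul_pow, mul_inv_cancel₀ hβ.ne', one_pow]
  have hd_nonneg : ∀ n j, 0 ≤ d n j := by
    intro n j
    refine mul_nonneg (pow_nonneg hβ.le n) ?_
    refine intervalIntegral.integral_nonneg ?_ (fun y _ => D.nonneg y)
    have : (β⁻¹) ^ n * ((j : ℝ) - R) ≤ (β⁻¹) ^ n * ((j : ℝ) + 1) :=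
      mul_le_mul_of_nonneg_left (by linarith) (hpow n).le
    linarith
  have hd_le : ∀ n j, d n j ≤ C * (|(j : ℝ)| + 1 + R) := by
    intro n j
    have hj1 := neg_abs_le (j : ℝ)
    have hj2 := le_abs_self (j : ℝ)
    have hr : 0 < (β⁻¹) ^ n * (|(j : ℝ)| + 1 + R) :=
      mul_pos (hpow n) (by have := abs_nonneg (j : ℝ); linarith)
    have h1 := hC _ hr
    have h2 : ∫ y in (x - (β⁻¹) ^ n * ((j : ℝ) + 1))..(x - (β⁻¹) ^ n * ((j : ℝ) - R)), h y
        ≤ ∫ y in (x - (β⁻¹) ^ n * (|(j : ℝ)| + 1 + R))..(x + (β⁻¹) ^ n * (|(j : ℝ)| + 1 + R)),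
          h y := by
      refine intervalIntegral.integral_mono_interval ?_ ?_ ?_ ?_ (hii _ _)
      · have := mul_le_mul_of_nonneg_left (show (j : ℝ) + 1 ≤ |(j : ℝ)| + 1 + R by linarith)
          (hpow n).le
        linarith
      · have := mul_le_mul_of_nonneg_left (show (j : ℝ) - R ≤ (j : ℝ) + 1 by linarith)
          (hpow n).le
        linarith
      · have := mul_le_mul_of_nonneg_left (show -((j : ℝ) - R) ≤ |(j : ℝ)| + 1 + R by linarith)
          (hpow n).le
        linarith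
      · exact Eventually.of_forall fun y => D.nonneg y
    calc d n j ≤ β ^ n * (C * ((β⁻¹) ^ n * (|(j : ℝ)| + 1 + R))) :=
          mul_le_mul_of_nonneg_left (h2.trans h1) (pow_nonneg hβ.le n)
      _ = (β ^ n * (β⁻¹) ^ n) * (C * (|(j : ℝ)| + 1 + R)) := by ring
      _ = _ := by rw [hpp, one_mul]
  have hcd : ∀ (n : ℕ) (j : ℤ), cnt β n x j (j + 1) ≤ d n j := by
    intro n j
    exact cnt_le D n x j (j + 1) (by linarith)
  have hlim : ∀ j, Tendsto (fun n => d n j) atTop (𝓝 ((1 + R) * h x)) := by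
    intro j
    have h1 := good_lim D.int G hβ1 ((j : ℝ) - R) ((j : ℝ) + 1) (by linarith)
    have h2 : (((j : ℝ) + 1) - ((j : ℝ) - R)) * h x = (1 + R) * h x := by ring
    rw [h2] at h1
    exact h1
  have hsw : Summable w := by
    refine Summable.of_nonneg_of_le hw0 (fun j => ?_) hs
    have := abs_nonneg (j : ℝ)
    nlinarith [hw0 j]
  have hbs : Summable (fun j : ℤ => w j * (C * (|(j : ℝ)| + 1 + R))) := by
    refine Summable.of_nonneg_of_le (fun j => ?_) (fun j => ?_) (hs.mul_left (C * (1 + R)))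
    · have := abs_nonneg (j : ℝ)
      exact mul_nonneg (hw0 j) (mul_nonneg hC0 (by linarith))
    · have h1 := abs_nonneg (j : ℝ)
      have h2 : |(j : ℝ)| + 1 + R ≤ (1 + R) * (|(j : ℝ)| + 1) := by nlinarith
      calc w j * (C * (|(j : ℝ)| + 1 + R)) ≤ w j * (C * ((1 + R) * (|(j : ℝ)| + 1))) :=
            mul_le_mul_of_nonneg_left (mul_le_mul_of_nonneg_left h2 hC0) (hw0 j)
        _ = _ := by ring
  have hT : Tendsto (fun n => ∑' j, w j * d n j) atTop (𝓝 (∑' j, w j * ((1 + R) * h x))) := by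
    refine tendsto_tsum_of_dominated_convergence hbs (fun j => (hlim j).const_mul _)
      (Eventually.of_forall fun n j => ?_)
    rw [Real.norm_of_nonneg (mul_nonneg (hw0 j) (hd_nonneg n j))]
    exact mul_le_mul_of_nonneg_left (hd_le n j) (hw0 j)
  rw [tsum_mul_right] at hT
  have hlt : (∑' j, w j) * ((1 + R) * h x) < (1 + R) * h x * (∑' j : ℤ, w j) + ε := by
    have : (∑' j, w j) * ((1 + R) * h x) = (1 + R) * h x * (∑' j : ℤ, w j) := by ring
    rw [this]; linarith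
  filter_upwards [hT.eventually (gt_mem_nhds hlt)] with n hn
  refine le_trans ?_ hn.le
  -- the finite estimate
  have hsd : Summable (fun j => w j * d n j) := by
    refine Summable.of_nonneg_of_le (fun j => mul_nonneg (hw0 j) (hd_nonneg n j))
      (fun j => mul_le_mul_of_nonneg_left (hd_le n j) (hw0 j)) hbs
  classical
  let fl : (Fin n → Bool) → ℤ := fun a => ⌊β ^ n * (x - XX β a)⌋
  have h2n : (0 : ℝ) ≤ (β / 2) ^ n := by positivity
  have hA : ‖PP β n ρ x‖ ≤ (β / 2) ^ n * ∑ a : Fin n → Bool, w (fl a) := by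
    unfold PP
    rw [norm_mul, Complex.norm_real, Real.norm_of_nonneg h2n]
    refine mul_le_mul_of_nonneg_left ?_ h2n
    refine (norm_sum_le _ _).trans (Finset.sum_le_sum fun a _ => hw _)
  have hB : (β / 2) ^ n * ∑ a : Fin n → Bool, w (fl a)
      ≤ ∑ j ∈ Finset.univ.image fl, w j * d n j := by
    rw [Finset.sum_comp w fl, Finset.mul_sum]
    refine Finset.sum_le_sum fun j _ => ?_
    rw [nsmul_eq_mul]
    have h3 : (((Finset.univ.filter (fun a => fl a = j)).card : ℕ) : ℝ)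
        ≤ ((Finset.univ.filter (fun a : Fin n → Bool =>
            (j : ℝ) ≤ β ^ n * (x - XX β a) ∧ β ^ n * (x - XX β a) ≤ (j : ℝ) + 1)).card : ℝ) := by
      refine Nat.cast_le.2 (Finset.card_le_card (fun a ha => by
        simp only [Finset.mem_filter, Finset.mem_univ, true_and] at ha ⊢
        have h4 : ⌊β ^ n * (x - XX β a)⌋ = j := ha
        rw [← h4]
        exact ⟨Int.floor_le _, (Int.lt_floor_add_one _).le⟩))
    calc (β / 2) ^ n * ((((Finset.univ.filter (fun a => fl a = j)).card : ℕ) : ℝ) * w j)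
        ≤ (β / 2) ^ n * (((Finset.univ.filter (fun a : Fin n → Bool =>
            (j : ℝ) ≤ β ^ n * (x - XX β a) ∧ β ^ n * (x - XX β a) ≤ (j : ℝ) + 1)).card : ℝ)
              * w j) :=
          mul_le_mul_of_nonneg_left (mul_le_mul_of_nonneg_right h3 (hw0 j)) h2n
      _ = w j * cnt β n x j (j + 1) := by
          unfold cnt
          rw [← mul_assoc, mul_comm]
      _ ≤ w j * d n j := mul_le_mul_of_nonneg_left (hcd n j) (hw0 j)
  exact hA.trans (hB.trans (hsd.sum_le_tsum _ (fun j _ => mul_nonneg (hw0 j) (hd_nonneg n j))))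

end Pool.Agent.H938D
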