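import Pool.Agent.H938_Dens.Defs

set_option autoImplicit false

namespace Pool.Agent.H938D

open MeasureTheory Filter Topology

theorem XX_append {β : ℝ} {n k : ℕ} (a : Fin n → Bool) (b : Fin k → Bool) :
    XX β (Fin.append a b) = XX β a + (β⁻¹) ^ n * XX β b := by
  unfold XX
  rw [Fin.sum_univ_add]
  congr 1
  · refine Finset.sum_congr rfl fun i _ => ?_
    rw [Fin.append_left, Fin.val_castAdd]
  · rw [Finset.mul_sum]
    refine Finset.sum_congr rfl fun i _ => ?_
    rw [Fin.append_right, Fin.val_natAdd, add_assoc, pow_add]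
    ring

/-- TARGET -/
theorem PP_add {β : ℝ} (hβ : β ≠ 0) (n k : ℕ) (ρ : ℝ → ℂ) (x : ℝ) :
    PP β (n + k) ρ x = PP β n (fun u => PP β k ρ u) x := by
  have h1 : ∑ c : Fin (n + k) → Bool, ρ (β ^ (n + k) * (x - XX β c)) =
      ∑ a : Fin n → Bool, ∑ b : Fin k → Bool, ρ (β ^ k * (β ^ n * (x - XX β a) - XX β b)) := by
    rw [← Fintype.sum_prod_type', ← (Fin.appendEquiv n k).sum_comp]
    refine Finset.sum_congr rfl fun p _ => ?_
    congr 1
    have h2 : XX β ((Fin.appendEquiv n k) p) = XX β p.1 + (β⁻¹) ^ n * XX β p.2 :=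
      XX_append p.1 p.2
    have h3 : β ^ n * (β⁻¹) ^ n = 1 := by rw [← mul_pow, mul_inv_cancel₀ hβ, one_pow]
    rw [h2, pow_add]
    linear_combination (-(β ^ k * XX β p.2)) * h3
  unfold PP
  rw [h1, Finset.mul_sum, Finset.mul_sum]
  refine Finset.sum_congr rfl fun a _ => ?_
  rw [← mul_assoc, ← Complex.ofReal_mul, ← pow_add]

end Pool.Agent.H938D
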