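import Pool.Agent.H938_Dens.Defs
import Pool.Agent.H938_Dens.L06
import Pool.Agent.H938_Dens.L09

set_option autoImplicit false

namespace Pool.Agent.H938D

open MeasureTheory Filter Topology

namespace conv_aux

lemma scale_ae {p : ℝ → Prop} (hp : ∀ᵐ x, p x) (x c : ℝ) (hc : c ≠ 0) :
    ∀ᵐ w : ℝ, p (x - c * w) := by
  have h1 : ∀ᵐ y : ℝ, p (x - y) :=
    (Measure.measurePreserving_sub_left volume x).quasiMeasurePreserving.ae hp
  have h2 : Measure.QuasiMeasurePreserving (fun w : ℝ => c * w) volume volume := by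
    refine ⟨measurable_const_mul c, ?_⟩
    rw [Real.map_volume_mul_left hc]
    exact Measure.smul_absolutelyContinuous
  exact h2.ae h1

lemma Dec3.bdd {C : ℝ} {κ : ℝ → ℂ} (hd : Dec3 C κ) : ∃ K : ℝ, ∀ u, ‖κ u‖ ≤ K := by
  refine ⟨|C|, fun u => (hd u).trans ?_⟩
  have h1 : ((1 + |u|) ^ 3)⁻¹ ≤ 1 := by
    apply inv_le_one_of_one_le₀
    have : 1 ≤ 1 + |u| := by linarith [abs_nonneg u]
    exact one_le_pow₀ this
  have h0 : 0 ≤ ((1 + |u|) ^ 3)⁻¹ := by positivity
  calc C * ((1 + |u|) ^ 3)⁻¹ ≤ |C| * ((1 + |u|) ^ 3)⁻¹ :=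
        mul_le_mul_of_nonneg_right (le_abs_self C) h0
    _ ≤ |C| * 1 := mul_le_mul_of_nonneg_left h1 (abs_nonneg C)
    _ = |C| := mul_one _

lemma int_mul {g : ℝ → ℝ} (hg : Integrable g) {κ : ℝ → ℂ} (hc : Continuous κ) {C : ℝ}
    (hd : Dec3 C κ) : Integrable (fun w => (g w : ℂ) * κ w) := by
  obtain ⟨K, hK⟩ := Dec3.bdd hd
  exact Integrable.mul_bdd (c := K) hg.ofReal hc.aestronglyMeasurable (Filter.Eventually.of_forall hK)

lemma PP_eq {β : ℝ} {h : ℝ → ℝ} (D : Dens β h) (x : ℝ) (κ : ℝ → ℂ) (hc : Continuous κ) {C : ℝ}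
    (hd : Dec3 C κ) (n : ℕ) :
    PP β n (fun u => ∫ v, (h v : ℂ) * κ (u - v)) x =
      ∫ w, (h (x - (β ^ n)⁻¹ * w) : ℂ) * κ w := by
  have hβ : β ≠ 0 := by linarith [D.one_lt]
  have hβn : β ^ n ≠ 0 := pow_ne_zero n hβ
  unfold PP
  have h1 : ∀ u : ℝ, ∫ v, (h v : ℂ) * κ (u - v) = ∫ w, (h (u - w) : ℂ) * κ w := by
    intro u
    rw [← integral_sub_left_eq_self (fun v => (h v : ℂ) * κ (u - v)) volume u]
    simp only [sub_sub_cancel]
  simp_rw [h1]
  rw [← integral_finsetSum _ (fun a _ => ?_), ← integral_const_mul]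
  · apply integral_congr_ae
    have h2 := scale_ae (ss_iter D n) x (β ^ n)⁻¹ (inv_ne_zero hβn)
    filter_upwards [h2] with w hw
    rw [hw]
    push_cast
    rw [← Finset.sum_mul, mul_assoc]
    congr 2
    apply Finset.sum_congr rfl
    intro a _
    congr 2
    field_simp
    ring
  · exact int_mul (D.int.comp_sub_left _) hc hd

/-- the first-order average -/
noncomputable def FF (h : ℝ → ℝ) (x r : ℝ) : ℝ := (∫ y in (x - r)..(x + r), |h y - h x|) / r

lemma FF_bdd {h : ℝ → ℝ} (hi : Integrable h) (h0 : ∀ x, 0 ≤ h x) {x : ℝ} (G : Good h x) :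
    ∃ K : ℝ, 0 ≤ K ∧ ∀ r : ℝ, 0 < r → 0 ≤ FF h x r ∧ FF h x r ≤ K := by
  obtain ⟨D, hD, hb⟩ := good_bdd hi h0 G
  refine ⟨D + 2 * h x, by have := h0 x; positivity, fun r hr => ⟨?_, ?_⟩⟩
  · unfold FF
    apply div_nonneg _ hr.le
    apply intervalIntegral.integral_nonneg (by linarith)
    intro y _
    exact abs_nonneg _
  · unfold FF
    rw [div_le_iff₀ hr]
    have hint : IntervalIntegrable h volume (x - r) (x + r) := hi.intervalIntegrable
    have hc : IntervalIntegrable (fun _ : ℝ => h x) volume (x - r) (x + r) :=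
      intervalIntegrable_const
    calc ∫ y in (x - r)..(x + r), |h y - h x|
        ≤ ∫ y in (x - r)..(x + r), (h y + h x) := by
          apply intervalIntegral.integral_mono_on (by linarith) (hint.sub hc).abs (hint.add hc)
          intro y _
          rw [abs_le]
          constructor <;> linarith [h0 y, h0 x]
      _ = (∫ y in (x - r)..(x + r), h y) + 2 * r * h x := by
          rw [intervalIntegral.integral_add hint hc, intervalIntegral.integral_const]
          simp only [smul_eq_mul]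
          ring
      _ ≤ D * r + 2 * r * h x := by linarith [hb r hr]
      _ = (D + 2 * h x) * r := by ring

lemma shell {h : ℝ → ℝ} (hi : Integrable h) (x ε : ℝ) (hε : 0 < ε) (R : ℝ) (hR : 0 < R) :
    ∫⁻ w in Set.Ioc (-R) R, ENNReal.ofReal |h (x - ε * w) - h x| =
      ENNReal.ofReal (R * FF h x (ε * R)) := by
  have hint : IntervalIntegrable (fun y => |h y - h x|) volume (x - ε * R) (x + ε * R) :=
    (hi.intervalIntegrable.sub intervalIntegrable_const).abs
  have hcomp : Integrable (fun w => h (x - ε * w)) := by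
    have := (hi.comp_sub_left x).comp_mul_left' hε.ne'
    exact this
  have hint2 : IntegrableOn (fun w => |h (x - ε * w) - h x|) (Set.Ioc (-R) R) := by
    apply Integrable.abs
    exact hcomp.integrableOn.sub (integrableOn_const (by simp))
  rw [← ofReal_integral_eq_lintegral_ofReal hint2 (Filter.Eventually.of_forall fun _ => abs_nonneg _)]
  congr 1
  rw [← intervalIntegral.integral_of_le (by linarith)]
  rw [intervalIntegral.integral_comp_sub_mul (fun y => |h y - h x|) hε.ne' x]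
  unfold FF
  rw [show x - ε * -R = x + ε * R by ring]
  simp only [smul_eq_mul]
  field_simp

lemma maj_sum (w : ℝ) : ENNReal.ofReal ((1 + |w|) ^ 3)⁻¹ ≤
    ∑' m : ℕ, ENNReal.ofReal (((m : ℝ) + 1) ^ 3)⁻¹ *
      (Set.Ioc (-((m : ℝ) + 1)) ((m : ℝ) + 1)).indicator (fun _ => (1 : ENNReal)) w := by
  refine le_trans ?_ (ENNReal.le_tsum ⌊|w|⌋₊)
  have hw : w ∈ Set.Ioc (-(((⌊|w|⌋₊ : ℕ) : ℝ) + 1)) (((⌊|w|⌋₊ : ℕ) : ℝ) + 1) := by
    have h1 := Nat.lt_floor_add_one |w|
    rw [abs_lt] at h1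
    exact ⟨h1.1, h1.2.le⟩
  rw [Set.indicator_of_mem hw, mul_one]
  apply ENNReal.ofReal_le_ofReal
  apply inv_anti₀ (by positivity)
  apply pow_le_pow_left₀ (by positivity)
  have := Nat.floor_le (abs_nonneg w)
  linarith

lemma J_le {h : ℝ → ℝ} (hm : Measurable h) (hi : Integrable h) (x ε : ℝ) (hε : 0 < ε) :
    ∫⁻ w, ENNReal.ofReal |h (x - ε * w) - h x| * ENNReal.ofReal ((1 + |w|) ^ 3)⁻¹ ≤
      ∑' m : ℕ, ENNReal.ofReal ((((m : ℝ) + 1) ^ 2)⁻¹ * FF h x (ε * ((m : ℝ) + 1))) := by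
  have hmeas : Measurable fun w => ENNReal.ofReal |h (x - ε * w) - h x| := by fun_prop
  calc ∫⁻ w, ENNReal.ofReal |h (x - ε * w) - h x| * ENNReal.ofReal ((1 + |w|) ^ 3)⁻¹
      ≤ ∫⁻ w, ENNReal.ofReal |h (x - ε * w) - h x| *
          ∑' m : ℕ, ENNReal.ofReal (((m : ℝ) + 1) ^ 3)⁻¹ *
            (Set.Ioc (-((m : ℝ) + 1)) ((m : ℝ) + 1)).indicator (fun _ => (1 : ENNReal)) w := by
        apply lintegral_mono
        intro w
        exact mul_le_mul_right (maj_sum w) _
    _ = ∫⁻ w, ∑' m : ℕ, ENNReal.ofReal (((m : ℝ) + 1) ^ 3)⁻¹ *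
          (Set.Ioc (-((m : ℝ) + 1)) ((m : ℝ) + 1)).indicator
            (fun w => ENNReal.ofReal |h (x - ε * w) - h x|) w := by
        apply lintegral_congr
        intro w
        rw [← ENNReal.tsum_mul_left]
        apply tsum_congr
        intro m
        by_cases hw : w ∈ Set.Ioc (-((m : ℝ) + 1)) ((m : ℝ) + 1)
        · rw [Set.indicator_of_mem hw, Set.indicator_of_mem hw, mul_one, mul_comm]
        · rw [Set.indicator_of_notMem hw, Set.indicator_of_notMem hw]
          simp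
    _ = ∑' m : ℕ, ∫⁻ w, ENNReal.ofReal (((m : ℝ) + 1) ^ 3)⁻¹ *
          (Set.Ioc (-((m : ℝ) + 1)) ((m : ℝ) + 1)).indicator
            (fun w => ENNReal.ofReal |h (x - ε * w) - h x|) w := by
        rw [lintegral_tsum]
        intro m
        exact ((hmeas.indicator measurableSet_Ioc).const_mul _).aemeasurable
    _ = ∑' m : ℕ, ENNReal.ofReal ((((m : ℝ) + 1) ^ 2)⁻¹ * FF h x (ε * ((m : ℝ) + 1))) := by
        apply tsum_congr
        intro m
        have hm1 : (0 : ℝ) < (m : ℝ) + 1 := by positivity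
        rw [lintegral_const_mul _ (hmeas.indicator measurableSet_Ioc),
          lintegral_indicator measurableSet_Ioc, shell hi x ε hε _ hm1,
          ← ENNReal.ofReal_mul (by positivity)]
        congr 1
        field_simp

lemma J_tendsto {h : ℝ → ℝ} (hm : Measurable h) (hi : Integrable h) (h0 : ∀ x, 0 ≤ h x) {x : ℝ}
    (G : Good h x) {e : ℕ → ℝ} (he : ∀ n, 0 < e n) (hl : Tendsto e atTop (𝓝 0)) :
    Tendsto (fun n => ∫⁻ w, ENNReal.ofReal |h (x - e n * w) - h x| *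
      ENNReal.ofReal ((1 + |w|) ^ 3)⁻¹) atTop (𝓝 0) := by
  obtain ⟨K, hK, hb⟩ := FF_bdd hi h0 G
  have hsum : Summable fun m : ℕ => K * (((m : ℝ) + 1) ^ 2)⁻¹ := by
    apply Summable.mul_left
    have := (summable_nat_add_iff 1).2 (Real.summable_nat_pow_inv.2 (by norm_num : 1 < 2))
    simpa using this
  have hT : Tendsto (fun n => ∑' m : ℕ, (((m : ℝ) + 1) ^ 2)⁻¹ * FF h x (e n * ((m : ℝ) + 1)))
      atTop (𝓝 (∑' _ : ℕ, (0 : ℝ))) := by
    apply tendsto_tsum_of_dominated_convergence hsum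
    · intro m
      have hm1 : (0 : ℝ) < (m : ℝ) + 1 := by positivity
      have h1 : Tendsto (fun n => e n * ((m : ℝ) + 1)) atTop (𝓝[>] 0) := by
        rw [tendsto_nhdsWithin_iff]
        refine ⟨?_, Filter.Eventually.of_forall fun n => mul_pos (he n) hm1⟩
        simpa using hl.mul_const ((m : ℝ) + 1)
      have h2 := (G.comp h1).const_mul ((((m : ℝ) + 1) ^ 2)⁻¹)
      rw [mul_zero] at h2
      exact h2
    · refine Filter.Eventually.of_forall fun n m => ?_
      have hm1 : (0 : ℝ) < (m : ℝ) + 1 := by positivity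
      obtain ⟨h1, h2⟩ := hb (e n * ((m : ℝ) + 1)) (mul_pos (he n) hm1)
      rw [Real.norm_of_nonneg (by positivity), mul_comm]
      exact mul_le_mul_of_nonneg_right h2 (by positivity)
  rw [tsum_zero] at hT
  have hT2 := ENNReal.tendsto_ofReal hT
  rw [ENNReal.ofReal_zero] at hT2
  refine tendsto_of_tendsto_of_tendsto_of_le_of_le tendsto_const_nhds hT2
    (fun _ => bot_le) (fun n => ?_)
  refine (J_le hm hi x (e n) (he n)).trans (le_of_eq ?_)
  rw [ENNReal.ofReal_tsum_of_nonneg]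
  · intro m
    have hm1 : (0 : ℝ) < (m : ℝ) + 1 := by positivity
    have := (hb (e n * ((m : ℝ) + 1)) (mul_pos (he n) hm1)).1
    positivity
  · apply Summable.of_nonneg_of_le _ _ hsum
    · intro m
      have hm1 : (0 : ℝ) < (m : ℝ) + 1 := by positivity
      have := (hb (e n * ((m : ℝ) + 1)) (mul_pos (he n) hm1)).1
      positivity
    · intro m
      have hm1 : (0 : ℝ) < (m : ℝ) + 1 := by positivity
      rw [mul_comm]
      exact mul_le_mul_of_nonneg_right (hb _ (mul_pos (he n) hm1)).2 (by positivity)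

lemma kappa_int {κ : ℝ → ℂ} (hc : Continuous κ) {C : ℝ} (hd : Dec3 C κ) : Integrable κ := by
  have h1 : Integrable (fun x : ℝ => (1 + ‖x‖) ^ (-(3 : ℝ))) :=
    integrable_one_add_norm (by norm_num)
  refine (h1.const_mul C).mono' hc.aestronglyMeasurable (Filter.Eventually.of_forall fun u => ?_)
  refine (hd u).trans (le_of_eq ?_)
  rw [Real.norm_eq_abs, Real.rpow_neg (by positivity)]
  norm_num

end conv_aux

/-- TARGET -/
theorem conv_lim {β : ℝ} {h : ℝ → ℝ} (D : Dens β h) {x : ℝ} (G : Good h x)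
    (κ : ℝ → ℂ) (hc : Continuous κ) {C : ℝ} (hd : Dec3 C κ) :
    Tendsto (fun n : ℕ => PP β n (fun u => ∫ v, (h v : ℂ) * κ (u - v)) x) atTop
      (𝓝 ((h x : ℂ) * ∫ v, κ v)) := by
  have hβ : 0 < β := by linarith [D.one_lt]
  simp_rw [conv_aux.PP_eq D x κ hc hd]
  have he : ∀ n : ℕ, 0 < (β ^ n)⁻¹ := fun n => by positivity
  have hl : Tendsto (fun n : ℕ => (β ^ n)⁻¹) atTop (𝓝 0) := by
    simp_rw [← inv_pow]
    exact tendsto_pow_atTop_nhds_zero_of_lt_one (by positivity) (inv_lt_one_of_one_lt₀ D.one_lt)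
  have hJ := conv_aux.J_tendsto D.meas D.int D.nonneg G he hl
  have hCJ : Tendsto (fun n : ℕ => ENNReal.ofReal C *
      ∫⁻ w, ENNReal.ofReal |h (x - (β ^ n)⁻¹ * w) - h x| *
      ENNReal.ofReal ((1 + |w|) ^ 3)⁻¹) atTop (𝓝 0) := by
    have := ENNReal.Tendsto.const_mul (a := ENNReal.ofReal C) hJ (Or.inr ENNReal.ofReal_ne_top)
    rwa [mul_zero] at this
  have hκ := conv_aux.kappa_int hc hd
  have hcomp : ∀ n : ℕ, Integrable (fun w => h (x - (β ^ n)⁻¹ * w)) := fun n =>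
    (D.int.comp_sub_left x).comp_mul_left' (he n).ne'
  rw [tendsto_iff_edist_tendsto_0]
  refine tendsto_of_tendsto_of_tendsto_of_le_of_le tendsto_const_nhds hCJ
    (fun _ => bot_le) (fun n => ?_)
  have hsub : (∫ w, (h (x - (β ^ n)⁻¹ * w) : ℂ) * κ w) - (h x : ℂ) * ∫ v, κ v =
      ∫ w, ((h (x - (β ^ n)⁻¹ * w) - h x : ℝ) : ℂ) * κ w := by
    rw [← integral_const_mul, ← integral_sub (conv_aux.int_mul (hcomp n) hc hd)
      (hκ.const_mul _)]
    congr 1
    ext w
    push_cast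
    ring
  rw [edist_eq_enorm_sub, hsub]
  refine (enorm_integral_le_lintegral_enorm _).trans ?_
  rw [← lintegral_const_mul' _ _ ENNReal.ofReal_ne_top]
  apply lintegral_mono
  intro w
  have hC : 0 ≤ C := by
    have h1 := (norm_nonneg _).trans (hd 0)
    simpa using h1
  calc ‖((h (x - (β ^ n)⁻¹ * w) - h x : ℝ) : ℂ) * κ w‖ₑ
      = ENNReal.ofReal |h (x - (β ^ n)⁻¹ * w) - h x| * ‖κ w‖ₑ := by
        rw [enorm_mul, ← ofReal_norm (((h (x - (β ^ n)⁻¹ * w) - h x : ℝ) : ℂ)),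
          Complex.norm_real, Real.norm_eq_abs]
    _ ≤ ENNReal.ofReal |h (x - (β ^ n)⁻¹ * w) - h x| *
        (ENNReal.ofReal C * ENNReal.ofReal ((1 + |w|) ^ 3)⁻¹) := by
        apply mul_le_mul_right
        rw [← ofReal_norm, ← ENNReal.ofReal_mul hC]
        exact ENNReal.ofReal_le_ofReal (hd w)
    _ = _ := by ring

end Pool.Agent.H938D
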