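import Pool.Agent.H938_Dens.Defs

set_option autoImplicit false

namespace Pool.Agent.H938D

open MeasureTheory Filter Topology

theorem cpl_eq_fourier (h : ℝ → ℝ) : hh h = FourierTransform.fourier (fun y => (h y : ℂ)) := by
  funext s
  rw [Real.fourier_real_eq_integral_exp_smul]
  unfold hh
  congr 1
  funext y
  rw [smul_eq_mul]
  congr 3
  push_cast
  ring

theorem cpl_zero_at_infty (h : ℝ → ℝ) : Tendsto (hh h) (cocompact ℝ) (𝓝 0) := by
  rw [cpl_eq_fourier]
  exact Real.zero_at_infty_fourier _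

theorem cpl_norm_exp (x : ℝ) : ‖Complex.exp ((x : ℂ) * Complex.I)‖ = 1 :=
  Complex.norm_exp_ofReal_mul_I x

theorem cpl_cont {β : ℝ} {h : ℝ → ℝ} (D : Dens β h) : Continuous (hh h) := by
  unfold hh
  apply continuous_of_dominated (bound := fun y => |h y|)
  · intro s
    refine Measurable.aestronglyMeasurable ?_
    have := D.meas
    fun_prop
  · intro s
    filter_upwards with y
    rw [norm_mul, cpl_norm_exp, one_mul, Complex.norm_real, Real.norm_eq_abs]
  · exact D.int.abs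
  · filter_upwards with y
    fun_prop

theorem cpl_one {β : ℝ} {h : ℝ → ℝ} (D : Dens β h) : hh h 0 = 1 := by
  unfold hh
  have h1 : ∀ y, Complex.exp (((-(2 * Real.pi * 0 * y) : ℝ) : ℂ) * Complex.I) * (h y : ℂ) =
      (h y : ℂ) := by
    intro y; simp
  simp only [h1]
  rw [integral_complex_ofReal, D.one]
  simp

theorem cpl_step {β : ℝ} {h : ℝ → ℝ} (D : Dens β h) (s : ℝ) :
    hh h (β * s) = (1 + Complex.exp (((-(2 * Real.pi * s) : ℝ) : ℂ) * Complex.I)) / 2 * hh h s := by
  have hβ : 0 < β := by linarith [D.one_lt]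
  have hβc : (β : ℂ) ≠ 0 := by exact_mod_cast hβ.ne'
  set E : ℝ → ℂ := fun y => Complex.exp (((-(2 * Real.pi * s * y) : ℝ) : ℂ) * Complex.I) with hE
  have hEn : ∀ y, ‖E y‖ = 1 := fun y => cpl_norm_exp _
  have hEm : Measurable E := by simp only [hE]; fun_prop
  have hi : Integrable fun y => E y * (h y : ℂ) := by
    refine (D.int.ofReal (𝕜 := ℂ)).mono ?_ ?_
    · have := D.meas
      exact (by fun_prop : Measurable fun y => E y * (h y : ℂ)).aestronglyMeasurable
    · filter_upwards with y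
      rw [norm_mul, hEn, one_mul]
      simp
  have hEa : ∀ y z, E (y + z) = E y * E z := by
    intro y z
    simp only [hE]
    rw [← Complex.exp_add]
    congr 1
    push_cast
    ring
  have hi2 : Integrable fun y => E (y + 1) * (h y : ℂ) := by
    have : (fun y => E (y + 1) * (h y : ℂ)) = fun y => E 1 * (E y * (h y : ℂ)) := by
      funext y; rw [hEa]; ring
    rw [this]
    exact hi.const_mul _
  -- the self-similarity
  have h1 : hh h (β * s) = ∫ y, ((β : ℂ) / 2) * (E (β * y) * (h (β * y) : ℂ) +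
      E (β * y) * (h (β * y - 1) : ℂ)) := by
    unfold hh
    apply integral_congr_ae
    filter_upwards [D.ss] with y hy
    rw [hy]
    have : Complex.exp (((-(2 * Real.pi * (β * s) * y) : ℝ) : ℂ) * Complex.I) = E (β * y) := by
      simp only [hE]
      congr 2
      push_cast
      ring
    rw [this]
    push_cast
    ring
  have h2 : ∀ F : ℝ → ℂ, ∫ y, F (β * y) = (β : ℂ)⁻¹ * ∫ y, F y := by
    intro F
    rw [Measure.integral_comp_mul_left, abs_of_pos (inv_pos.2 hβ)]
    simp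
  have h3 : Integrable fun y => E (β * y) * (h (β * y) : ℂ) :=
    hi.comp_mul_left' hβ.ne'
  have h4 : Integrable fun y => E (β * y) * (h (β * y - 1) : ℂ) := by
    have := (hi2.comp_sub_right 1).comp_mul_left' hβ.ne'
    simpa using this
  rw [h1, integral_const_mul, integral_add h3 h4, h2 (fun y => E y * (h y : ℂ)),
    h2 (fun y => E y * (h (y - 1) : ℂ))]
  have h5 : ∫ y, E y * (h (y - 1) : ℂ) = E 1 * ∫ y, E y * (h y : ℂ) := by
    have := integral_sub_right_eq_self (μ := volume) (fun y => E (y + 1) * (h y : ℂ)) (1 : ℝ)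
    simp only [sub_add_cancel] at this
    rw [this, ← integral_const_mul]
    congr 1
    funext y
    rw [hEa]
    ring
  rw [h5]
  have h6 : hh h s = ∫ y, E y * (h y : ℂ) := rfl
  have h7 : Complex.exp (((-(2 * Real.pi * s) : ℝ) : ℂ) * Complex.I) = E 1 := by
    simp only [hE, mul_one]
  rw [h6, h7]
  field_simp

theorem cpl_half (x : ℝ) :
    ‖(1 + Complex.exp (((-(2 * Real.pi * x) : ℝ) : ℂ) * Complex.I)) / 2‖ =
      |Real.cos (Real.pi * x)| := by
  have h1 : (1 + Complex.exp (((-(2 * Real.pi * x) : ℝ) : ℂ) * Complex.I)) / 2 =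
      Complex.exp (((-(Real.pi * x) : ℝ) : ℂ) * Complex.I) * (Real.cos (Real.pi * x) : ℂ) := by
    rw [Complex.ofReal_cos, Complex.cos]
    have : Complex.exp (((-(2 * Real.pi * x) : ℝ) : ℂ) * Complex.I) =
        Complex.exp (((-(Real.pi * x) : ℝ) : ℂ) * Complex.I) *
        Complex.exp (-((Real.pi * x : ℝ) : ℂ) * Complex.I) := by
      rw [← Complex.exp_add]
      congr 1
      push_cast
      ring
    rw [this]
    have h2 : Complex.exp (((-(Real.pi * x) : ℝ) : ℂ) * Complex.I) *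
        Complex.exp (((Real.pi * x : ℝ) : ℂ) * Complex.I) = 1 := by
      rw [← Complex.exp_add, ← Complex.exp_zero]
      congr 1
      push_cast
      ring
    linear_combination (-1 / 2 : ℂ) * h2
  rw [h1, norm_mul, cpl_norm_exp, one_mul, Complex.norm_real, Real.norm_eq_abs]

theorem cpl_iter {β : ℝ} {h : ℝ → ℝ} (D : Dens β h) (s : ℝ) (k : ℕ) :
    ‖hh h (β ^ k * s)‖ =
      (∏ j ∈ Finset.range k, |Real.cos (Real.pi * (β ^ j * s))|) * ‖hh h s‖ := by
  induction k with
  | zero => simp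
  | succ k ih =>
    rw [Finset.prod_range_succ, pow_succ', mul_assoc, cpl_step D, norm_mul, cpl_half, ih]
    ring

/-- Riemann-Lebesgue -/
theorem cpl_RL {β : ℝ} {h : ℝ → ℝ} (D : Dens β h) {s : ℝ} (hs : s ≠ 0) (hH : hh h s ≠ 0) :
    Tendsto (fun k : ℕ => ∏ j ∈ Finset.range k, |Real.cos (Real.pi * (β ^ j * s))|)
      atTop (𝓝 0) := by
  have h1 : Tendsto (fun k : ℕ => β ^ k * s) atTop (cocompact ℝ) := by
    rw [← Metric.cobounded_eq_cocompact, ← tendsto_norm_atTop_iff_cobounded]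
    have h2 : ∀ k : ℕ, ‖β ^ k * s‖ = β ^ k * |s| := by
      intro k
      rw [norm_mul, norm_pow, Real.norm_eq_abs, Real.norm_eq_abs, abs_of_pos (by linarith [D.one_lt])]
    simp only [h2]
    exact (tendsto_pow_atTop_atTop_of_one_lt D.one_lt).atTop_mul_const (abs_pos.2 hs)
  have h2 := ((cpl_zero_at_infty h).comp h1).norm
  have h3 : ∀ k, (∏ j ∈ Finset.range k, |Real.cos (Real.pi * (β ^ j * s))|) =
      ‖hh h (β ^ k * s)‖ / ‖hh h s‖ := by
    intro k
    rw [cpl_iter D, mul_div_cancel_right₀ _ (norm_ne_zero_iff.2 hH)]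
  simp only [h3]
  simpa using h2.div_const ‖hh h s‖

/-- zeros of the transform -/
theorem cpl_zero {β : ℝ} {h : ℝ → ℝ} (D : Dens β h) {s : ℝ} (hH : hh h s = 0) :
    ∃ (i : ℕ) (m : ℤ), 1 ≤ i ∧ s = β ^ i * ((2 * m + 1) / 2) := by
  have hβ : 0 < β := by linarith [D.one_lt]
  have h1 : Tendsto (fun n : ℕ => s / β ^ n) atTop (𝓝 0) :=
    tendsto_const_nhds.div_atTop (tendsto_pow_atTop_atTop_of_one_lt D.one_lt)
  have h2 : Tendsto (fun n : ℕ => hh h (s / β ^ n)) atTop (𝓝 1) := by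
    have := ((cpl_cont D).tendsto 0).comp h1
    rwa [cpl_one D] at this
  obtain ⟨n, hn⟩ := (h2.eventually_ne one_ne_zero).exists
  have h3 := cpl_iter D (s / β ^ n) n
  have hβn : β ^ n ≠ 0 := by positivity
  rw [mul_div_cancel₀ s hβn, hH, norm_zero] at h3
  have h4 : ∏ j ∈ Finset.range n, |Real.cos (Real.pi * (β ^ j * (s / β ^ n)))| = 0 := by
    rcases mul_eq_zero.1 h3.symm with h | h
    · exact h
    · exact absurd (norm_eq_zero.1 h) hn
  rw [Finset.prod_eq_zero_iff] at h4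
  obtain ⟨j, hj, hj0⟩ := h4
  rw [abs_eq_zero, Real.cos_eq_zero_iff] at hj0
  obtain ⟨m, hm⟩ := hj0
  have hjn := Finset.mem_range.1 hj
  refine ⟨n - j, m, by omega, ?_⟩
  have h5 : β ^ j * (s / β ^ n) = (2 * m + 1) / 2 := by
    have := Real.pi_pos
    have h6 : Real.pi * (β ^ j * (s / β ^ n)) = Real.pi * ((2 * m + 1) / 2) := by
      rw [hm]; ring
    exact mul_left_cancel₀ this.ne' h6
  rw [← h5]
  have h7 : β ^ n = β ^ (n - j) * β ^ j := by rw [← pow_add]; congr 1; omega
  rw [h7]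
  have hb1 : β ^ (n - j) ≠ 0 := by positivity
  have hb2 : β ^ j ≠ 0 := by positivity
  field_simp

/-- powers of a rational number near the integers -/
theorem cpl_rat {x ρ : ℝ} (hx : x ≠ 0) (hρ : 1 < ρ) {p q : ℤ} (hq : 0 < q) (hpq : ρ * q = p)
    (hcop : IsCoprime p q)
    (h : Tendsto (fun j : ℕ => x * ρ ^ j - round (x * ρ ^ j)) atTop (𝓝 0)) :
    q = 1 ∧ ∃ J : ℕ, ∀ j, J ≤ j → ∃ u : ℤ, x * ρ ^ j = u := by
  set u : ℕ → ℤ := fun j => round (x * ρ ^ j) with hu
  set e : ℕ → ℝ := fun j => x * ρ ^ j - u j with he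
  have he0 : Tendsto e atTop (𝓝 0) := h
  have hqR : (0 : ℝ) < q := by exact_mod_cast hq
  have hrec : ∀ j, ((q * u (j + 1) - p * u j : ℤ) : ℝ) = p * e j - q * e (j + 1) := by
    intro j
    simp only [he]
    push_cast
    rw [← hpq, pow_succ]
    ring
  have h1 : Tendsto (fun j => p * e j - q * e (j + 1)) atTop (𝓝 0) := by
    have := (he0.const_mul (p : ℝ)).sub (((tendsto_add_atTop_iff_nat 1).2 he0).const_mul (q : ℝ))
    simpa using this
  have h2 : ∀ᶠ j in atTop, |((q * u (j + 1) - p * u j : ℤ) : ℝ)| < 1 := by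
    have := h1.abs
    rw [abs_zero] at this
    filter_upwards [this.eventually_lt_const one_pos] with j hj
    rw [hrec]
    exact hj
  obtain ⟨J, hJ⟩ := eventually_atTop.1 h2
  have h3 : ∀ j, J ≤ j → q * u (j + 1) - p * u j = 0 := by
    intro j hj
    have := hJ j hj
    rw [← Int.cast_abs] at this
    have h4 : |q * u (j + 1) - p * u j| < 1 := by exact_mod_cast this
    exact Int.abs_lt_one_iff.1 h4
  have h5 : ∀ j, J ≤ j → e (j + 1) = ρ * e j := by
    intro j hj
    have h6 := hrec j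
    rw [h3 j hj] at h6
    have h7 : (q : ℝ) * e (j + 1) = q * (ρ * e j) := by
      rw [← mul_assoc, mul_comm (q : ℝ) ρ, hpq]
      push_cast at h6
      linarith
    exact mul_left_cancel₀ hqR.ne' h7
  have h8 : ∀ j, J ≤ j → ∀ l : ℕ, e (j + l) = ρ ^ l * e j := by
    intro j hj l
    induction l with
    | zero => simp
    | succ l ih =>
      rw [← add_assoc, h5 (j + l) (by omega), ih, pow_succ]
      ring
  have h9 : ∀ j, J ≤ j → e j = 0 := by
    intro j hj
    by_contra hne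
    have h10 : Tendsto (fun l : ℕ => ρ ^ l * |e j|) atTop atTop :=
      (tendsto_pow_atTop_atTop_of_one_lt hρ).atTop_mul_const (abs_pos.2 hne)
    have h11 : Tendsto (fun l : ℕ => |e (j + l)|) atTop (𝓝 |0|) := by
      have := he0.abs.comp (tendsto_add_atTop_nat j)
      refine this.congr fun l => ?_
      simp only [Function.comp_apply, add_comm]
    have h12 : ∀ l : ℕ, |e (j + l)| = ρ ^ l * |e j| := by
      intro l
      rw [h8 j hj l, abs_mul, abs_of_pos (by positivity)]
    simp only [h12] at h11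
    exact not_tendsto_nhds_of_tendsto_atTop h10 _ h11
  have h13 : ∀ j, J ≤ j → x * ρ ^ j = u j := by
    intro j hj
    have := h9 j hj
    simp only [he] at this
    linarith
  refine ⟨?_, J, fun j hj => ⟨u j, h13 j hj⟩⟩
  have hu0 : u J ≠ 0 := by
    intro h0
    have := h13 J le_rfl
    rw [h0] at this
    have hρ0 : ρ ^ J ≠ 0 := by positivity
    simp [hx, hρ0] at this
  have h14 : ∀ l : ℕ, q ^ l ∣ u J := by
    intro l
    have h15 : (p : ℝ) ^ l * u J = q ^ l * u (J + l) := by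
      rw [← h13 J le_rfl, ← h13 (J + l) (by omega), ← hpq, mul_pow, pow_add]
      ring
    have h16 : p ^ l * u J = q ^ l * u (J + l) := by exact_mod_cast h15
    have h17 : q ^ l ∣ p ^ l * u J := ⟨_, h16⟩
    exact (IsCoprime.pow hcop.symm : IsCoprime (q ^ l) (p ^ l)).dvd_of_dvd_mul_left h17
  by_contra hq1
  have h18 : FiniteMultiplicity q (u J) := by
    rw [Int.finiteMultiplicity_iff]
    refine ⟨?_, hu0⟩
    intro h19
    omega
  obtain ⟨n, hn⟩ := h18
  exact hn (h14 (n + 1))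

/-- if a product of cosines stays away from zero -/
theorem cpl_sin {β s δ : ℝ} (hδ : 0 < δ)
    (h : ∀ k : ℕ, δ ≤ ∏ j ∈ Finset.range k, |Real.cos (Real.pi * (β ^ j * s))|) :
    Summable fun j : ℕ => Real.sin (Real.pi * (β ^ j * s)) ^ 2 := by
  apply summable_of_sum_range_le (c := - Real.log (δ ^ 2)) (fun j => sq_nonneg _)
  intro k
  have h1 : ∏ j ∈ Finset.range k, Real.cos (Real.pi * (β ^ j * s)) ^ 2 ≤
      Real.exp (- ∑ j ∈ Finset.range k, Real.sin (Real.pi * (β ^ j * s)) ^ 2) := by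
    rw [← Finset.sum_neg_distrib, Real.exp_sum]
    apply Finset.prod_le_prod (fun j _ => sq_nonneg _)
    intro j _
    have := Real.add_one_le_exp (-Real.sin (Real.pi * (β ^ j * s)) ^ 2)
    rw [Real.cos_sq']
    linarith
  have h2 : δ ^ 2 ≤ ∏ j ∈ Finset.range k, Real.cos (Real.pi * (β ^ j * s)) ^ 2 := by
    have h3 := pow_le_pow_left₀ hδ.le (h k) 2
    rw [← Finset.prod_pow] at h3
    simpa only [sq_abs] using h3
  have h4 := Real.log_le_log (by positivity) (h2.trans h1)
  rw [Real.log_exp] at h4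
  linarith

theorem cpl_near {β s : ℝ} (h : Summable fun j : ℕ => Real.sin (Real.pi * (β ^ j * s)) ^ 2) :
    Tendsto (fun j : ℕ => s * β ^ j - round (s * β ^ j)) atTop (𝓝 0) := by
  have h1 := h.tendsto_atTop_zero
  have h2 : Tendsto (fun j : ℕ => |Real.sin (Real.pi * (β ^ j * s))|) atTop (𝓝 0) := by
    have := h1.sqrt
    simpa [Real.sqrt_sq_eq_abs] using this
  rw [tendsto_zero_iff_abs_tendsto_zero]
  refine squeeze_zero (fun j => abs_nonneg _) (fun j => ?_) (h2.const_mul (1 / 2) |>.trans (by simp))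
  set x := s * β ^ j with hx
  have h3 : Real.pi * (β ^ j * s) = Real.pi * (x - round x) + (round x : ℤ) * Real.pi := by
    rw [hx]; ring
  have h4 : |Real.sin (Real.pi * (β ^ j * s))| = |Real.sin (Real.pi * (x - round x))| := by
    rw [h3, Real.sin_add_int_mul_pi, abs_mul]
    simp
  have h5 : |x - round x| ≤ 1 / 2 := abs_sub_round x
  have hpi := Real.pi_pos
  have h6 : |Real.pi * (x - round x)| ≤ Real.pi / 2 := by
    rw [abs_mul, abs_of_pos hpi]
    nlinarith
  have h7 := Real.mul_abs_le_abs_sin h6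
  rw [h4]
  rw [abs_mul, abs_of_pos hpi] at h7
  have h8 : 2 / Real.pi * (Real.pi * |x - round x|) = 2 * |x - round x| := by
    field_simp
  simp only [Function.comp_apply]
  linarith

theorem cpl_irr1 {β s : ℝ} (h1 : 1 < β) (h2 : β < 2) (hs : s ≠ 0)
    (h : Tendsto (fun j : ℕ => s * β ^ j - round (s * β ^ j)) atTop (𝓝 0)) (t : ℚ) : β ≠ t := by
  intro ht
  have hden : (0 : ℤ) < t.den := by exact_mod_cast t.den_pos
  have hdR : (t.den : ℝ) ≠ 0 := by exact_mod_cast t.den_pos.ne'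
  have hco : IsCoprime t.num (t.den : ℤ) := Rat.isCoprime_num_den t
  have hp : β * ((t.den : ℤ) : ℝ) = t.num := by
    rw [ht]
    have := Rat.mul_den_eq_num t
    have h3 : ((t * t.den : ℚ) : ℝ) = (t.num : ℚ) := by rw [this]
    push_cast at h3 ⊢
    exact h3
  obtain ⟨hq, -⟩ := cpl_rat hs h1 hden hp hco h
  rw [hq] at hp
  push_cast at hp
  rw [mul_one] at hp
  rw [hp] at h1 h2
  have h3 : (1 : ℤ) < t.num := by exact_mod_cast h1
  have h4 : t.num < (2 : ℤ) := by exact_mod_cast h2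
  omega

theorem cpl_irr {β s : ℝ} (h1 : 1 < β) (h2 : β < 2) (hs : s ≠ 0)
    (h : Tendsto (fun j : ℕ => s * β ^ j - round (s * β ^ j)) atTop (𝓝 0)) {r : ℕ} (hr : 1 ≤ r)
    (t : ℚ) : β ^ r ≠ t := by
  intro ht
  have hden : (0 : ℤ) < t.den := by exact_mod_cast t.den_pos
  have hco : IsCoprime t.num (t.den : ℤ) := Rat.isCoprime_num_den t
  have hβ : 0 < β := by linarith
  have hρ : 1 < β ^ r := one_lt_pow₀ h1 (by omega)
  have hp : β ^ r * ((t.den : ℤ) : ℝ) = t.num := by
    rw [ht]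
    have := Rat.mul_den_eq_num t
    have h3 : ((t * t.den : ℚ) : ℝ) = (t.num : ℚ) := by rw [this]
    push_cast at h3 ⊢
    exact h3
  have hT1 : Tendsto (fun j : ℕ => s * (β ^ r) ^ j - round (s * (β ^ r) ^ j)) atTop (𝓝 0) := by
    have h3 : Tendsto (fun j : ℕ => r * j) atTop atTop :=
      tendsto_atTop_mono (fun j => Nat.le_mul_of_pos_left j hr) tendsto_id
    refine (h.comp h3).congr fun j => ?_
    simp only [Function.comp_apply, pow_mul]
  have hT2 : Tendsto (fun j : ℕ => (s * β) * (β ^ r) ^ j - round ((s * β) * (β ^ r) ^ j)) atTop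
      (𝓝 0) := by
    have h3 : Tendsto (fun j : ℕ => r * j + 1) atTop atTop :=
      tendsto_atTop_mono (fun j => (Nat.le_mul_of_pos_left j hr).trans (Nat.le_succ _)) tendsto_id
    refine (h.comp h3).congr fun j => ?_
    simp only [Function.comp_apply, pow_add, pow_mul, pow_one]
    have : s * ((β ^ r) ^ j * β) = s * β * (β ^ r) ^ j := by ring
    rw [this]
  obtain ⟨-, J1, hJ1⟩ := cpl_rat hs hρ hden hp hco hT1
  obtain ⟨-, J2, hJ2⟩ := cpl_rat (mul_ne_zero hs hβ.ne') hρ hden hp hco hT2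
  obtain ⟨u1, hu1⟩ := hJ1 (max J1 J2) (le_max_left _ _)
  obtain ⟨u2, hu2⟩ := hJ2 (max J1 J2) (le_max_right _ _)
  have hne : (u1 : ℝ) ≠ 0 := by
    rw [← hu1]
    positivity
  apply cpl_irr1 h1 h2 hs h ((u2 : ℚ) / u1)
  push_cast
  rw [eq_div_iff hne, ← hu1, ← hu2]
  ring

/-- the doubled point -/
theorem cpl_low {x : ℕ → ℝ} (h0 : ∀ j, Real.cos (x j) ≠ 0)
    (h : Summable fun j : ℕ => Real.sin (x j) ^ 2) :
    ¬ Tendsto (fun k : ℕ => ∏ j ∈ Finset.range k, |Real.cos (x j)|) atTop (𝓝 0) := by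
  intro hT
  have h1 : ∀ j, 1 + -Real.sin (x j) ^ 2 = Real.cos (x j) ^ 2 := by
    intro j; rw [Real.cos_sq']; ring
  have h2 : Summable fun j => Real.log (1 + -Real.sin (x j) ^ 2) :=
    Real.summable_log_one_add_of_summable h.neg
  simp only [h1] at h2
  have h3 := (Real.hasProd_of_hasSum_log (fun j => by have := h0 j; positivity)
    h2.hasSum).tendsto_prod_nat
  have h4 := hT.pow 2
  have h5 : Tendsto (fun k : ℕ => ∏ j ∈ Finset.range k, Real.cos (x j) ^ 2) atTop (𝓝 (0 ^ 2)) := by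
    refine h4.congr fun k => ?_
    rw [← Finset.prod_pow]
    simp only [sq_abs]
  have h6 := tendsto_nhds_unique h3 h5
  have h7 := Real.exp_pos (∑' j, Real.log (Real.cos (x j) ^ 2))
  rw [h6] at h7
  norm_num at h7

/-- TARGET -/
theorem cos_prod_lim {β : ℝ} {h : ℝ → ℝ} (D : Dens β h) {s : ℝ} (hs : s ≠ 0) :
    Tendsto (fun k : ℕ => ∏ j ∈ Finset.range k, |Real.cos (Real.pi * (β ^ j * s))|) atTop (𝓝 0) := by
  by_contra hnot
  by_cases hH : hh h s = 0
  swap
  · exact hnot (cpl_RL D hs hH)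
  have hβ : 0 < β := by linarith [D.one_lt]
  -- the limit of the product
  set c : ℕ → ℝ := fun k => ∏ j ∈ Finset.range k, |Real.cos (Real.pi * (β ^ j * s))| with hc
  have hc0 : ∀ k, 0 ≤ c k := fun k => Finset.prod_nonneg fun j _ => abs_nonneg _
  have hca : Antitone c := by
    apply antitone_nat_of_succ_le
    intro k
    simp only [hc]
    rw [Finset.prod_range_succ]
    exact mul_le_of_le_one_right (hc0 k) (Real.abs_cos_le_one _)
  have hbdd : BddBelow (Set.range c) := ⟨0, by rintro _ ⟨k, rfl⟩; exact hc0 k⟩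
  have hlim : Tendsto c atTop (𝓝 (⨅ k, c k)) := tendsto_atTop_ciInf hca hbdd
  have hδ0 : 0 ≤ ⨅ k, c k := le_ciInf hc0
  have hδ : 0 < ⨅ k, c k := by
    rcases hδ0.eq_or_lt with h0 | h0
    · rw [← h0] at hlim
      exact absurd hlim hnot
    · exact h0
  have hsum : Summable fun j : ℕ => Real.sin (Real.pi * (β ^ j * s)) ^ 2 :=
    cpl_sin hδ fun k => ciInf_le hbdd k
  have hnear := cpl_near hsum
  have hirr : ∀ r : ℕ, 1 ≤ r → ∀ t : ℚ, β ^ r ≠ t := fun r hr t =>
    cpl_irr D.one_lt D.lt_two hs hnear hr t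
  obtain ⟨i, m, hi, hsm⟩ := cpl_zero D hH
  have hodd : ∀ m : ℤ, (2 * (m : ℝ) + 1) ≠ 0 := by
    intro m h0
    have : (2 * m + 1 : ℤ) = 0 := by exact_mod_cast h0
    omega
  have ht0 : 2 * s ≠ 0 := mul_ne_zero two_ne_zero hs
  -- the factors at the doubled point
  have hcos : ∀ j : ℕ, Real.cos (Real.pi * (β ^ j * (2 * s))) ≠ 0 := by
    intro j h0
    rw [Real.cos_eq_zero_iff] at h0
    obtain ⟨n, hn⟩ := h0
    have h1 : β ^ j * (2 * s) = (2 * n + 1) / 2 := by
      have h6 : Real.pi * (β ^ j * (2 * s)) = Real.pi * ((2 * n + 1) / 2) := by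
        rw [hn]; ring
      exact mul_left_cancel₀ Real.pi_pos.ne' h6
    apply hirr (j + i) (by omega) (((2 * n + 1 : ℤ) : ℚ) / (2 * (2 * m + 1) : ℤ))
    push_cast
    have := hodd m
    rw [eq_div_iff (by positivity), pow_add]
    rw [hsm] at h1
    linear_combination 2 * h1
  have hsum2 : Summable fun j : ℕ => Real.sin (Real.pi * (β ^ j * (2 * s))) ^ 2 := by
    apply Summable.of_nonneg_of_le (fun j => sq_nonneg _) (fun j => ?_) (hsum.mul_left 4)
    have h1 : Real.pi * (β ^ j * (2 * s)) = 2 * (Real.pi * (β ^ j * s)) := by ring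
    rw [h1, Real.sin_two_mul]
    have h2 := Real.cos_sq_le_one (Real.pi * (β ^ j * s))
    have h3 := sq_nonneg (Real.sin (Real.pi * (β ^ j * s)))
    nlinarith
  have hlow := cpl_low hcos hsum2
  apply hlow
  apply cpl_RL D ht0
  intro hH2
  obtain ⟨i', m', hi', hsm'⟩ := cpl_zero D hH2
  have h1 : β ^ i * (2 * (2 * m + 1)) = β ^ i' * (2 * m' + 1) := by
    rw [hsm] at hsm'
    linear_combination 2 * hsm'
  rcases lt_trichotomy i i' with hlt | heq | hlt
  · apply hirr (i' - i) (by omega) (((2 * (2 * m + 1) : ℤ) : ℚ) / (2 * m' + 1 : ℤ))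
    push_cast
    rw [eq_div_iff (hodd m')]
    have h2 : β ^ i' = β ^ i * β ^ (i' - i) := by rw [← pow_add]; congr 1; omega
    rw [h2, mul_assoc] at h1
    exact (mul_left_cancel₀ (by positivity) h1).symm
  · rw [heq] at h1
    have h2 := mul_left_cancel₀ (by positivity) h1
    have h3 : (2 * (2 * m + 1) : ℤ) = 2 * m' + 1 := by exact_mod_cast h2
    omega
  · apply hirr (i - i') (by omega) (((2 * m' + 1 : ℤ) : ℚ) / (2 * (2 * m + 1) : ℤ))
    push_cast
    have := hodd m
    rw [eq_div_iff (by positivity)]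
    have h2 : β ^ i = β ^ i' * β ^ (i - i') := by rw [← pow_add]; congr 1; omega
    rw [h2, mul_assoc] at h1
    exact mul_left_cancel₀ (by positivity) h1

end Pool.Agent.H938D
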