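import Pool.Agent.H938_Dens.Defs

set_option autoImplicit false

namespace Pool.Agent.H938D

open MeasureTheory Filter Topology

theorem hh_zero {β : ℝ} {h : ℝ → ℝ} (D : Dens β h) : hh h 0 = 1 := by
  unfold hh
  have : (fun y : ℝ => Complex.exp (((-(2 * Real.pi * 0 * y) : ℝ) : ℂ) * Complex.I) * (h y : ℂ)) = fun y => (h y : ℂ) := by
    funext y; simp
  rw [this, integral_complex_ofReal, D.one, Complex.ofReal_one]

theorem norm_kernel (s y : ℝ) : ‖Complex.exp (((-(2 * Real.pi * s * y) : ℝ) : ℂ) * Complex.I)‖ = 1 :=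
  Complex.norm_exp_ofReal_mul_I _

theorem hh_cont {β : ℝ} {h : ℝ → ℝ} (D : Dens β h) : Continuous (hh h) := by
  unfold hh
  refine continuous_of_dominated (bound := fun y => ‖h y‖) ?_ ?_ D.int.norm ?_
  · intro s
    refine AEStronglyMeasurable.mul ?_ ?_
    · exact (by fun_prop : Continuous fun y : ℝ => Complex.exp (((-(2 * Real.pi * s * y) : ℝ) : ℂ) * Complex.I)).aestronglyMeasurable
    · exact (Complex.measurable_ofReal.comp D.meas).aestronglyMeasurable
  · intro s
    refine Eventually.of_forall fun y => ?_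
    rw [norm_mul, norm_kernel, one_mul, Complex.norm_real]
  · refine Eventually.of_forall fun y => ?_
    fun_prop

theorem ker_int {β : ℝ} {h : ℝ → ℝ} (D : Dens β h) (s : ℝ) :
    Integrable fun y => Complex.exp (((-(2 * Real.pi * s * y) : ℝ) : ℂ) * Complex.I) * (h y : ℂ) := by
  refine Integrable.mono' D.int.norm ?_ ?_
  · refine AEStronglyMeasurable.mul ?_ ?_
    · exact (by fun_prop : Continuous fun y : ℝ => Complex.exp (((-(2 * Real.pi * s * y) : ℝ) : ℂ) * Complex.I)).aestronglyMeasurable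
    · exact (Complex.measurable_ofReal.comp D.meas).aestronglyMeasurable
  · refine Eventually.of_forall fun y => ?_
    rw [norm_mul, norm_kernel, one_mul, Complex.norm_real]

theorem hh_ss {β : ℝ} {h : ℝ → ℝ} (D : Dens β h) (s : ℝ) :
    hh h s = (1 + Complex.exp (((-(2 * Real.pi * (s / β)) : ℝ) : ℂ) * Complex.I)) / 2 * hh h (s / β) := by
  have hβ : 0 < β := by linarith [D.one_lt]
  have hβ' : β ≠ 0 := hβ.ne'
  set g : ℝ → ℂ := fun y => Complex.exp (((-(2 * Real.pi * (s / β) * y) : ℝ) : ℂ) * Complex.I) * (h y : ℂ) with hg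
  set c : ℂ := Complex.exp (((-(2 * Real.pi * (s / β)) : ℝ) : ℂ) * Complex.I) with hc
  have e1 : hh h s = ∫ y, ((β / 2 : ℝ) : ℂ) * (g (β * y) + c * g (β * y - 1)) := by
    unfold hh
    refine integral_congr_ae ?_
    filter_upwards [D.ss] with y hy
    have a1 : Complex.exp (((-(2 * Real.pi * s * y) : ℝ) : ℂ) * Complex.I)
        = Complex.exp (((-(2 * Real.pi * (s / β) * (β * y)) : ℝ) : ℂ) * Complex.I) := by
      congr 3; field_simp
    have a2 : c * Complex.exp (((-(2 * Real.pi * (s / β) * (β * y - 1)) : ℝ) : ℂ) * Complex.I)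
        = Complex.exp (((-(2 * Real.pi * (s / β) * (β * y)) : ℝ) : ℂ) * Complex.I) := by
      rw [hc, ← Complex.exp_add]; congr 1; push_cast; ring
    simp only [hg]
    rw [a1, hy]
    have : c * (Complex.exp (((-(2 * Real.pi * (s / β) * (β * y - 1)) : ℝ) : ℂ) * Complex.I) * (h (β * y - 1) : ℂ))
        = Complex.exp (((-(2 * Real.pi * (s / β) * (β * y)) : ℝ) : ℂ) * Complex.I) * (h (β * y - 1) : ℂ) := by
      rw [← mul_assoc, a2]
    rw [this]
    push_cast
    ring
  have gi : Integrable g := ker_int D (s / β)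
  have gi1 : Integrable fun y => g (β * y) := gi.comp_mul_left' hβ'
  have gi2' : Integrable fun y => g (y - 1) := gi.comp_sub_right 1
  have gi2 : Integrable fun y => g (β * y - 1) := gi2'.comp_mul_left' hβ'
  have i1 : ∫ y, g (β * y) = ((β⁻¹ : ℝ) : ℂ) * ∫ y, g y := by
    have := Measure.integral_comp_mul_left g β
    rw [this, abs_of_pos (inv_pos.mpr hβ)]
    rfl
  have i2 : ∫ y, g (β * y - 1) = ((β⁻¹ : ℝ) : ℂ) * ∫ y, g y := by
    have := Measure.integral_comp_mul_left (fun y => g (y - 1)) β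
    rw [this, abs_of_pos (inv_pos.mpr hβ), integral_sub_right_eq_self g 1]
    rfl
  rw [e1, integral_const_mul, integral_add gi1 (gi2.const_mul c), integral_const_mul, i1, i2]
  have : hh h (s / β) = ∫ y, g y := rfl
  rw [this]
  have hb : (β : ℂ) ≠ 0 := Complex.ofReal_ne_zero.mpr hβ'
  push_cast
  field_simp

theorem exp_half {t : ℝ} (ht : 1 + Complex.exp (((-(2 * Real.pi * t) : ℝ) : ℂ) * Complex.I) = 0) :
    ∃ m : ℤ, t = m + 1 / 2 := by
  have h1 : Complex.exp (((-(2 * Real.pi * t) : ℝ) : ℂ) * Complex.I) = Complex.exp (Real.pi * Complex.I) := by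
    rw [Complex.exp_pi_mul_I]; linear_combination ht
  rw [Complex.exp_eq_exp_iff_exists_int] at h1
  obtain ⟨n, hn⟩ := h1
  have h2 : ((-(2 * Real.pi * t) : ℝ) : ℂ) = ((Real.pi + n * (2 * Real.pi) : ℝ) : ℂ) := by
    have := mul_right_cancel₀ Complex.I_ne_zero (show ((-(2 * Real.pi * t) : ℝ) : ℂ) * Complex.I
      = ((Real.pi + n * (2 * Real.pi) : ℝ) : ℂ) * Complex.I by rw [hn]; push_cast; ring)
    exact this
  have h3 := Complex.ofReal_injective h2
  refine ⟨-n - 1, ?_⟩
  have hp := Real.pi_pos.ne'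
  have : Real.pi * (2 * t) = Real.pi * (2 * ((-n - 1 : ℤ) + 1 / 2)) := by push_cast; linarith
  have := mul_left_cancel₀ hp this
  linarith

theorem zero_cases {β : ℝ} {h : ℝ → ℝ} (D : Dens β h) {s : ℝ} (hs : hh h s = 0) (n : ℕ) :
    hh h (s / β ^ n) = 0 ∨ ∃ j, j ≤ n ∧ ∃ m : ℤ, s / β ^ j = m + 1 / 2 := by
  induction n with
  | zero => left; simpa using hs
  | succ n ih =>
    rcases ih with h1 | ⟨j, hj, hm⟩
    · rw [hh_ss D] at h1
      rcases mul_eq_zero.mp h1 with h2 | h2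
      · right
        have h3 : 1 + Complex.exp (((-(2 * Real.pi * (s / β ^ n / β)) : ℝ) : ℂ) * Complex.I) = 0 := by
          simpa using h2
        obtain ⟨m, hm⟩ := exp_half h3
        exact ⟨n + 1, le_rfl, m, by rw [pow_succ, ← div_div]; exact hm⟩
      · left
        rw [pow_succ, ← div_div]; exact h2
    · exact Or.inr ⟨j, by omega, hm⟩

/-- TARGET -/
theorem zeros_finite {β : ℝ} {h : ℝ → ℝ} (D : Dens β h) (A : ℝ) :
    {s : ℝ | |s| ≤ A ∧ hh h s = 0}.Finite := by
  have hβ1 := D.one_lt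
  have hβ : 0 < β := by linarith
  have hc : ∀ᶠ s in 𝓝 (0 : ℝ), hh h s ≠ 0 := by
    refine (hh_cont D).continuousAt.eventually_ne ?_
    rw [hh_zero D]; exact one_ne_zero
  obtain ⟨δ, hδ, hball⟩ := Metric.eventually_nhds_iff.mp hc
  obtain ⟨n, hn⟩ : ∃ n : ℕ, |A| < δ * β ^ n := by
    obtain ⟨n, hn⟩ := pow_unbounded_of_one_lt (|A| / δ) hβ1
    exact ⟨n, by rw [div_lt_iff₀ hδ] at hn; linarith⟩
  set N : ℤ := ⌈|A|⌉ + 1 with hN
  refine Set.Finite.subset (s := ⋃ j ∈ Finset.range (n + 1), (fun m : ℤ => β ^ j * ((m : ℝ) + 1 / 2)) '' (Set.Icc (-N) N)) ?_ ?_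
  · refine Set.Finite.biUnion (Finset.finite_toSet _) fun j _ => ?_
    exact (Set.finite_Icc _ _).image _
  · rintro s ⟨hs1, hs2⟩
    have hs3 : |s| ≤ |A| := hs1.trans (le_abs_self A)
    rcases zero_cases D hs2 n with h1 | ⟨j, hj, m, hm⟩
    · exfalso
      refine hball ?_ h1
      have hp : 0 < β ^ n := pow_pos hβ n
      rw [Real.dist_eq, sub_zero, abs_div, abs_of_pos hp, div_lt_iff₀ hp]
      exact lt_of_le_of_lt hs3 hn
    · have hp : 0 < β ^ j := pow_pos hβ j
      have hp1 : 1 ≤ β ^ j := one_le_pow₀ hβ1.le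
      rw [Set.mem_iUnion₂]
      refine ⟨j, Finset.mem_coe.mpr (Finset.mem_range.mpr (by omega)), m, ?_, ?_⟩
      · have h4 : |(m : ℝ) + 1 / 2| ≤ |A| := by
          rw [← hm, abs_div, abs_of_pos hp]
          exact (div_le_self (abs_nonneg _) hp1).trans hs3
        have h5 := abs_le.mp h4
        have h6 : |A| ≤ (⌈|A|⌉ : ℝ) := Int.le_ceil _
        constructor
        · have : (-(N : ℝ)) ≤ m := by rw [hN]; push_cast; linarith [h5.1]
          exact_mod_cast this
        · have : (m : ℝ) ≤ N := by rw [hN]; push_cast; linarith [h5.2]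
          exact_mod_cast this
      · show β ^ j * ((m : ℝ) + 1 / 2) = s
        rw [← hm]; field_simp

end Pool.Agent.H938D
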