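import Pool.Agent.H938_Dens.Defs

set_option autoImplicit false

namespace Pool.Agent.H938D

open MeasureTheory Filter Topology

/-- TARGET -/
theorem hh_smooth {β : ℝ} {h : ℝ → ℝ} (D : Dens β h) : ContDiff ℝ (⊤ : ℕ∞) (hh h) := by
  have key : hh h = FourierTransform.fourier (fun y : ℝ => (h y : ℂ)) := by
    funext s
    rw [Real.fourier_real_eq_integral_exp_smul]
    unfold hh
    congr 1
    funext y
    rw [smul_eq_mul]
    congr 2
    push_cast
    ring
  rw [key]
  apply Real.contDiff_fourier
  intro n _
  have hβ : 0 < β - 1 := by linarith [D.one_lt]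
  have h1 : Integrable (fun y : ℝ => (1 / (β - 1)) ^ n * |h y|) :=
    (D.int.abs).const_mul _
  refine Integrable.mono' h1 ?_ ?_
  · have h2 : Measurable fun v : ℝ => ‖v‖ ^ n * ‖(h v : ℂ)‖ := by
      apply Measurable.mul
      · exact (measurable_norm).pow_const n
      · exact (Complex.measurable_ofReal.comp D.meas).norm
    exact h2.aestronglyMeasurable
  · refine Filter.Eventually.of_forall ?_
    intro y
    have e1 : ‖(h y : ℂ)‖ = |h y| := by
      rw [Complex.norm_real, Real.norm_eq_abs]
    rw [norm_mul, norm_pow, norm_norm, norm_norm, e1]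
    by_cases hy : y ∈ IB β
    · apply mul_le_mul_of_nonneg_right _ (abs_nonneg _)
      apply pow_le_pow_left₀ (norm_nonneg _)
      rw [Real.norm_eq_abs, abs_of_nonneg hy.1]
      exact hy.2
    · rw [D.supp y hy, abs_zero, mul_zero, mul_zero]

end Pool.Agent.H938D
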