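import Pool.Agent.H938_Dens.Defs

set_option autoImplicit false

namespace Pool.Agent.H938D

open MeasureTheory Filter Topology

/-- TARGET -/
theorem ift_dec (g : ℝ → ℂ) (hg : ContDiff ℝ (⊤ : ℕ∞) g) (hc : HasCompactSupport g) (m : ℕ) :
    ∃ C : ℝ, ∀ u : ℝ, ‖ift g u‖ ≤ C * ((1 + |u|) ^ m)⁻¹ := by
  set f : SchwartzMap ℝ ℂ := hc.toSchwartzMap hg with hf
  have hfg : ∀ t, f t = g t := fun t => rfl
  have he : ∀ u, ift g u = (FourierTransformInv.fourierInv f : SchwartzMap ℝ ℂ) u := by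
    intro u
    rw [SchwartzMap.fourierInv_coe, Real.fourierInv_eq']
    unfold ift
    congr 1
    funext t
    rw [hfg]
    simp
    ring_nf
  refine ⟨2 ^ m * (Finset.Iic (m, 0)).sup (fun m => SchwartzMap.seminorm ℝ m.1 m.2)
    (FourierTransformInv.fourierInv f : SchwartzMap ℝ ℂ), ?_⟩
  intro u
  have h := SchwartzMap.one_add_le_sup_seminorm_apply (𝕜 := ℝ) (m := (m, 0)) (k := m) (n := 0)
    le_rfl le_rfl (FourierTransformInv.fourierInv f : SchwartzMap ℝ ℂ) u
  rw [norm_iteratedFDeriv_zero, ← he, Real.norm_eq_abs] at h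
  rw [← div_eq_mul_inv, le_div_iff₀ (by positivity), mul_comm]
  exact h

end Pool.Agent.H938D
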