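import Pool.Agent.H938_Dens.Defs
import Pool.Agent.H938_Dens.L10
import Pool.Agent.H938_Dens.L11
import Pool.Agent.H938_Dens.L13

set_option autoImplicit false

namespace Pool.Agent.H938D

open MeasureTheory Filter Topology


namespace J17

theorem cmp {X Y K : ℝ} (hX : 0 < X) (hY : 0 < Y) (h : X ≤ Y * K) :
    (Y ^ 3)⁻¹ ≤ K ^ 3 * (X ^ 3)⁻¹ := by
  have h1 : X ^ 3 ≤ (Y * K) ^ 3 := by gcongr
  rw [← div_eq_mul_inv, inv_eq_one_div, div_le_div_iff₀ (by positivity) (by positivity)]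
  rw [mul_pow] at h1
  linarith

theorem XX_nonneg17 {β : ℝ} (hβ : 1 < β) {n : ℕ} (a : Fin n → Bool) : 0 ≤ XX β a := by
  unfold XX
  apply Finset.sum_nonneg
  intro k _
  have : 0 < β := by linarith
  split_ifs <;> positivity

theorem geo {β : ℝ} (hβ : 1 < β) (n : ℕ) :
    ∑ k ∈ Finset.range n, (β⁻¹) ^ (k + 1) = (1 - (β⁻¹) ^ n) / (β - 1) := by
  have h0 : β ≠ 0 := by linarith
  have h1 : β - 1 ≠ 0 := by intro h; linarith
  induction n with
  | zero => simp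
  | succ n ih =>
    rw [Finset.sum_range_succ, ih, eq_div_iff h1, add_mul, div_mul_cancel₀ _ h1]
    have : (β⁻¹) ^ (n + 1) * β = (β⁻¹) ^ n := by
      rw [pow_succ, mul_assoc, inv_mul_cancel₀ h0, mul_one]
    linarith

theorem XX_le17 {β : ℝ} (hβ : 1 < β) {n : ℕ} (a : Fin n → Bool) : XX β a ≤ 1 / (β - 1) := by
  have h0 : 0 < β := by linarith
  have h1 : 0 < β - 1 := by linarith
  have h2 : XX β a ≤ ∑ k : Fin n, (β⁻¹) ^ ((k : ℕ) + 1) := by
    unfold XX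
    apply Finset.sum_le_sum
    intro k _
    have : 0 ≤ (β⁻¹) ^ ((k : ℕ) + 1) := by positivity
    split_ifs
    · rw [one_mul]
    · rw [zero_mul]; exact this
  rw [Fin.sum_univ_eq_sum_range (fun k => (β⁻¹) ^ (k + 1)) n, geo hβ] at h2
  refine h2.trans ?_
  apply div_le_div_of_nonneg_right _ h1.le
  have : 0 ≤ (β⁻¹) ^ n := by positivity
  linarith

theorem norm_one_add_exp (θ : ℝ) :
    ‖1 + Complex.exp ((θ : ℂ) * Complex.I)‖ = 2 * |Real.cos (θ / 2)| := by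
  have h : 1 + Complex.exp ((θ : ℂ) * Complex.I) =
      Complex.exp (((θ / 2 : ℝ) : ℂ) * Complex.I) * (2 * Complex.cos ((θ / 2 : ℝ) : ℂ)) := by
    rw [Complex.two_cos, mul_add, ← Complex.exp_add, ← Complex.exp_add]
    have e1 : ((θ / 2 : ℝ) : ℂ) * Complex.I + ((θ / 2 : ℝ) : ℂ) * Complex.I
        = (θ : ℂ) * Complex.I := by push_cast; ring
    have e2 : ((θ / 2 : ℝ) : ℂ) * Complex.I + -((θ / 2 : ℝ) : ℂ) * Complex.I = 0 := by ring
    rw [e1, e2, Complex.exp_zero, add_comm]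
  rw [h, norm_mul, Complex.norm_exp_ofReal_mul_I, one_mul, ← Complex.ofReal_cos, norm_mul,
    Complex.norm_real, Real.norm_eq_abs]
  norm_num

theorem pw {β : ℝ} (hβ : β ≠ 0) (k j : ℕ) (hj : j < k) :
    β ^ k * (β⁻¹) ^ (j + 1) = β ^ (k - 1 - j) := by
  obtain ⟨l, rfl⟩ : ∃ l, k = l + (j + 1) := ⟨k - 1 - j, by omega⟩
  rw [pow_add, mul_assoc, ← mul_pow, mul_inv_cancel₀ hβ, one_pow, mul_one]
  congr 1
  omega

theorem expsum {β s : ℝ} (hβ : β ≠ 0) (k : ℕ) :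
    ‖∑ a : Fin k → Bool, Complex.exp (((2 * Real.pi * s * (-(β ^ k * XX β a)) : ℝ) : ℂ)
      * Complex.I)‖ = 2 ^ k * ∏ j ∈ Finset.range k, |Real.cos (Real.pi * (β ^ j * s))| := by
  have h1 : ∀ a : Fin k → Bool,
      Complex.exp (((2 * Real.pi * s * (-(β ^ k * XX β a)) : ℝ) : ℂ) * Complex.I) =
      ∏ j : Fin k, Complex.exp (((2 * Real.pi * s *
        (-((if a j then (1 : ℝ) else 0) * β ^ (k - 1 - (j : ℕ)))) : ℝ) : ℂ) * Complex.I) := by
    intro a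
    rw [← Complex.exp_sum]
    congr 1
    rw [← Finset.sum_mul, ← Complex.ofReal_sum]
    congr 2
    unfold XX
    rw [Finset.mul_sum, ← Finset.sum_neg_distrib, Finset.mul_sum]
    apply Finset.sum_congr rfl
    intro j _
    have h2 := pw hβ k (j : ℕ) j.2
    rw [← h2]; ring
  have h2 : ∑ a : Fin k → Bool,
      Complex.exp (((2 * Real.pi * s * (-(β ^ k * XX β a)) : ℝ) : ℂ) * Complex.I) =
      ∏ j : Fin k, ∑ b : Bool, Complex.exp (((2 * Real.pi * s *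
        (-((if b then (1 : ℝ) else 0) * β ^ (k - 1 - (j : ℕ)))) : ℝ) : ℂ) * Complex.I) := by
    rw [Fintype.prod_sum]
    exact Finset.sum_congr rfl fun a _ => h1 a
  rw [h2, norm_prod]
  have h3 : ∀ j : Fin k, ‖∑ b : Bool, Complex.exp (((2 * Real.pi * s *
        (-((if b then (1 : ℝ) else 0) * β ^ (k - 1 - (j : ℕ)))) : ℝ) : ℂ) * Complex.I)‖ =
        2 * |Real.cos (Real.pi * (β ^ (k - 1 - (j : ℕ)) * s))| := by
    intro j
    rw [Fintype.sum_bool]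
    simp only [if_true, Bool.false_eq_true, if_false, zero_mul, neg_zero, mul_zero,
      Complex.ofReal_zero, Complex.exp_zero, one_mul]
    rw [add_comm, norm_one_add_exp]
    congr 2
    rw [← Real.cos_neg]
    congr 1
    ring
  rw [Finset.prod_congr rfl fun j _ => h3 j, Finset.prod_mul_distrib, Finset.prod_const,
    Finset.card_univ, Fintype.card_fin,
    Fin.prod_univ_eq_prod_range (fun j => |Real.cos (Real.pi * (β ^ (k - 1 - j) * s))|) k,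
    Finset.prod_range_reflect (fun j => |Real.cos (Real.pi * (β ^ j * s))|) k]

theorem mvt {Ψ : ℝ → ℂ} {C R : ℝ} (hΨ : ContDiff ℝ 1 Ψ) (hΨ1 : Dec3 C (deriv Ψ)) (hC : 0 ≤ C)
    {w y : ℝ} (hy0 : 0 ≤ y) (hyR : y ≤ R) {δ : ℝ} (hδ : y ≤ δ) :
    ‖Ψ (w - y) - Ψ w‖ ≤ δ * (1 + R) ^ 3 * C * ((1 + |w|) ^ 3)⁻¹ := by
  have hR : 0 ≤ R := hy0.trans hyR
  have hd : ∀ x ∈ Set.Icc (w - y) w, ‖deriv Ψ x‖ ≤ (1 + R) ^ 3 * C * ((1 + |w|) ^ 3)⁻¹ := by
    intro x hx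
    refine (hΨ1 x).trans ?_
    have h1 : 1 + |w| ≤ (1 + |x|) * (1 + R) := by
      have : |w| ≤ |x| + y := by
        rw [abs_le]
        have h2 := neg_abs_le x
        have h3 := le_abs_self x
        have h4 := hx.1
        have h5 := hx.2
        constructor <;> linarith
      have h6 : 0 ≤ |x| * R := by positivity
      nlinarith
    have h2 := cmp (K := 1 + R) (by positivity) (by positivity) h1
    calc C * ((1 + |x|) ^ 3)⁻¹ ≤ C * ((1 + R) ^ 3 * ((1 + |w|) ^ 3)⁻¹) := by gcongr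
      _ = _ := by ring
  have h := Convex.norm_image_sub_le_of_norm_deriv_le (𝕜 := ℝ) (f := Ψ)
    (fun x _ => (hΨ.differentiable (by norm_num)) x) hd (convex_Icc (w - y) w)
    (Set.right_mem_Icc.2 (by linarith)) (Set.left_mem_Icc.2 (by linarith))
  refine h.trans ?_
  have h3 : ‖w - y - w‖ = y := by
    rw [Real.norm_eq_abs]
    have : w - y - w = -y := by ring
    rw [this, abs_neg, abs_of_nonneg hy0]
  rw [h3]
  have h4 : 0 ≤ (1 + R) ^ 3 * C * ((1 + |w|) ^ 3)⁻¹ := by positivity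
  calc (1 + R) ^ 3 * C * ((1 + |w|) ^ 3)⁻¹ * y ≤ (1 + R) ^ 3 * C * ((1 + |w|) ^ 3)⁻¹ * δ := by
        gcongr
    _ = _ := by ring

/-- the product of cosines -/
noncomputable def cc (β s : ℝ) (k : ℕ) : ℝ :=
  ∏ j ∈ Finset.range k, |Real.cos (Real.pi * (β ^ j * s))|

theorem cc_nonneg (β s : ℝ) (k : ℕ) : 0 ≤ cc β s k :=
  Finset.prod_nonneg fun _ _ => abs_nonneg _

theorem packet {β : ℝ} (hβ : 1 < β) {Ψ : ℝ → ℂ} {C : ℝ} (hΨ : ContDiff ℝ 1 Ψ)
    (hΨ0 : Dec3 C Ψ) (hΨ1 : Dec3 C (deriv Ψ)) (hC : 0 ≤ C) (s : ℝ) (k : ℕ) {T : ℝ}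
    (hT : β ^ k ≤ T) (u v : ℝ) :
    ‖PP β k (fun u' => EE s T Ψ (u' - v)) u‖ ≤
      β ^ k / T * ((cc β s k + β ^ k * (1 / (β - 1)) / T * (1 + 1 / (β - 1)) ^ 3) * C *
        ((1 + |(β ^ k * u - v) / T|) ^ 3)⁻¹) := by
  have hβ0 : 0 < β := by linarith
  have hb1 : 0 < β - 1 := by linarith
  have hbk : 0 < β ^ k := by positivity
  have hT0 : 0 < T := lt_of_lt_of_le hbk hT
  set R := 1 / (β - 1) with hR
  have hR0 : 0 ≤ R := by positivity
  set z := β ^ k * u - v with hz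
  set D3 := C * ((1 + |z / T|) ^ 3)⁻¹ with hD3
  have hD0 : 0 ≤ D3 := by positivity
  let E : (Fin k → Bool) → ℂ := fun a =>
    Complex.exp (((2 * Real.pi * s * (-(β ^ k * XX β a)) : ℝ) : ℂ) * Complex.I)
  let Δ : (Fin k → Bool) → ℂ := fun a => Ψ (z / T - β ^ k * XX β a / T) - Ψ (z / T)
  have hΔ : ∀ a, ‖Δ a‖ ≤ β ^ k * R / T * (1 + R) ^ 3 * D3 := by
    intro a
    have h1 : β ^ k * XX β a / T ≤ β ^ k * R / T := by
      have := XX_le17 hβ a
      gcongr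
    have h2 : β ^ k * R / T ≤ R := by
      rw [div_le_iff₀ hT0]
      nlinarith
    have h3 : 0 ≤ β ^ k * XX β a / T := by
      have := XX_nonneg17 hβ a
      positivity
    have := mvt hΨ hΨ1 hC (w := z / T) h3 (h1.trans h2) h1
    calc _ ≤ _ := this
      _ = _ := by rw [hD3]; ring
  have hE : ∀ a, ‖E a‖ = 1 := fun a => Complex.norm_exp_ofReal_mul_I _
  have key : PP β k (fun u' => EE s T Ψ (u' - v)) u =
      (((β / 2) ^ k : ℝ) : ℂ) * (((T⁻¹ : ℝ) : ℂ) *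
        Complex.exp (((2 * Real.pi * s * z : ℝ) : ℂ) * Complex.I) *
        (Ψ (z / T) * ∑ a, E a + ∑ a, E a * Δ a)) := by
    unfold PP
    congr 1
    rw [Finset.mul_sum, ← Finset.sum_add_distrib, Finset.mul_sum]
    apply Finset.sum_congr rfl
    intro a _
    have e1 : β ^ k * (u - XX β a) - v = z + -(β ^ k * XX β a) := by rw [hz]; ring
    simp only [EE, E, Δ]
    rw [e1]
    have e2 : (z + -(β ^ k * XX β a)) / T = z / T - β ^ k * XX β a / T := by ring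
    rw [e2]
    have e3 : Complex.exp (((2 * Real.pi * s * (z + -(β ^ k * XX β a)) : ℝ) : ℂ) * Complex.I) =
        Complex.exp (((2 * Real.pi * s * z : ℝ) : ℂ) * Complex.I) *
        Complex.exp (((2 * Real.pi * s * (-(β ^ k * XX β a)) : ℝ) : ℂ) * Complex.I) := by
      rw [← Complex.exp_add]
      congr 1
      push_cast
      ring
    rw [e3]
    ring
  rw [key, norm_mul, norm_mul, norm_mul, Complex.norm_exp_ofReal_mul_I, mul_one,
    Complex.norm_real, Complex.norm_real, Real.norm_eq_abs, Real.norm_eq_abs,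
    abs_of_nonneg (by positivity), abs_of_nonneg (by positivity)]
  have hs1 : ‖∑ a, E a‖ = 2 ^ k * cc β s k := expsum hβ0.ne' k
  have hs2 : ‖∑ a, E a * Δ a‖ ≤ 2 ^ k * (β ^ k * R / T * (1 + R) ^ 3 * D3) := by
    refine (norm_sum_le _ _).trans ?_
    refine (Finset.sum_le_sum (g := fun _ => β ^ k * R / T * (1 + R) ^ 3 * D3) ?_).trans ?_
    · intro a _
      rw [norm_mul, hE, one_mul]
      exact hΔ a
    · rw [Finset.sum_const, Finset.card_univ, Fintype.card_fun, Fintype.card_bool,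
        Fintype.card_fin, nsmul_eq_mul]
      push_cast
      exact le_rfl
  have hs3 : ‖Ψ (z / T)‖ ≤ D3 := hΨ0 _
  have hcc := cc_nonneg β s k
  have hs4 : ‖Ψ (z / T) * ∑ a, E a + ∑ a, E a * Δ a‖ ≤
      D3 * (2 ^ k * cc β s k) + 2 ^ k * (β ^ k * R / T * (1 + R) ^ 3 * D3) := by
    refine (norm_add_le _ _).trans (add_le_add ?_ hs2)
    rw [norm_mul, hs1]
    gcongr
  calc (β / 2) ^ k * (T⁻¹ * ‖Ψ (z / T) * ∑ a, E a + ∑ a, E a * Δ a‖)
      ≤ (β / 2) ^ k * (T⁻¹ *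
        (D3 * (2 ^ k * cc β s k) + 2 ^ k * (β ^ k * R / T * (1 + R) ^ 3 * D3))) := by gcongr
    _ = β ^ k / T * ((cc β s k + β ^ k * R / T * (1 + R) ^ 3) * C *
        ((1 + |z / T|) ^ 3)⁻¹) := by
      rw [hD3, div_pow]
      have : (2 : ℝ) ^ k ≠ 0 := by positivity
      field_simp

theorem EE_cont (s T : ℝ) {Ψ : ℝ → ℂ} (hΨ : Continuous Ψ) : Continuous (EE s T Ψ) := by
  unfold EE
  fun_prop

theorem EE_le (s : ℝ) {T : ℝ} (hT : 1 ≤ T) {Ψ : ℝ → ℂ} {C : ℝ} (hΨ0 : Dec3 C Ψ) (hC : 0 ≤ C)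
    (u : ℝ) : ‖EE s T Ψ u‖ ≤ C := by
  unfold EE
  rw [norm_mul, norm_mul, Complex.norm_exp_ofReal_mul_I, one_mul, Complex.norm_real,
    Real.norm_eq_abs, abs_of_nonneg (by positivity)]
  have h1 : ‖Ψ (u / T)‖ ≤ C := by
    refine (hΨ0 _).trans ?_
    have : ((1 + |u / T|) ^ 3)⁻¹ ≤ 1 := by
      apply inv_le_one_of_one_le₀
      apply one_le_pow₀
      have := abs_nonneg (u / T)
      linarith
    nlinarith
  have h2 : T⁻¹ ≤ 1 := inv_le_one_of_one_le₀ hT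
  calc T⁻¹ * ‖Ψ (u / T)‖ ≤ 1 * C := by gcongr
    _ = C := one_mul C

theorem inv_sq_le (v : ℝ) : ((1 + |v|) ^ 2)⁻¹ ≤ (1 + v ^ 2)⁻¹ := by
  gcongr
  have := abs_nonneg v
  nlinarith [sq_abs v]

theorem conv_int {gt Ψ : ℝ → ℂ} (hgc : Continuous gt) {C1 : ℝ}
    (hgd : ∀ u : ℝ, ‖gt u‖ ≤ C1 * ((1 + |u|) ^ 5)⁻¹) (hC1 : 0 ≤ C1)
    (s : ℝ) {T : ℝ} (hT : 1 ≤ T) {C : ℝ} (hΨc : Continuous Ψ) (hΨ0 : Dec3 C Ψ) (hC : 0 ≤ C)
    (y : ℝ) : Integrable (fun v => gt v * EE s T Ψ (y - v)) := by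
  have h0 : Integrable (fun v : ℝ => C1 * C * (1 + v ^ 2)⁻¹) :=
    integrable_inv_one_add_sq.const_mul _
  refine h0.mono' ?_ ?_
  · apply Continuous.aestronglyMeasurable
    have := EE_cont s T hΨc
    fun_prop
  · refine Filter.Eventually.of_forall fun v => ?_
    rw [norm_mul]
    have h1 : ((1 + |v|) ^ 5)⁻¹ ≤ (1 + v ^ 2)⁻¹ := by
      refine le_trans ?_ (inv_sq_le v)
      gcongr
      · have := abs_nonneg v
        linarith
      · norm_num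
    have h2 : ‖gt v‖ ≤ C1 * (1 + v ^ 2)⁻¹ := (hgd v).trans (by gcongr)
    calc ‖gt v‖ * ‖EE s T Ψ (y - v)‖ ≤ (C1 * (1 + v ^ 2)⁻¹) * C := by
          have := EE_le s hT hΨ0 hC (y - v)
          gcongr
      _ = _ := by ring

theorem conv_bound {β : ℝ} (hβ : 1 < β) {gt Ψ : ℝ → ℂ} (hgc : Continuous gt) {C1 : ℝ}
    (hgd : ∀ u : ℝ, ‖gt u‖ ≤ C1 * ((1 + |u|) ^ 5)⁻¹) (hC1 : 0 ≤ C1)
    (hΨ : ContDiff ℝ 1 Ψ) {C : ℝ}
    (hΨ0 : Dec3 C Ψ) (hΨ1 : Dec3 C (deriv Ψ)) (hC : 0 ≤ C) (s : ℝ) (k : ℕ) {T : ℝ} (hT1 : 1 ≤ T)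
    (hT : β ^ k ≤ T) (u : ℝ) :
    ‖PP β k (fun u => ∫ v, gt v * EE s T Ψ (u - v)) u‖ ≤
      (cc β s k + β ^ k * (1 / (β - 1)) / T * (1 + 1 / (β - 1)) ^ 3) * (C * (C1 * Real.pi)) *
        (β ^ k / T * ((1 + β ^ k / T * |u|) ^ 3)⁻¹) := by
  have hβ0 : 0 < β := by linarith
  have hb1 : 0 < β - 1 := by linarith
  have hbk : 0 < β ^ k := by positivity
  have hT0 : 0 < T := lt_of_lt_of_le hbk hT
  have hcc := cc_nonneg β s k
  have key : PP β k (fun u => ∫ v, gt v * EE s T Ψ (u - v)) u =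
      ∫ v, gt v * PP β k (fun u' => EE s T Ψ (u' - v)) u := by
    unfold PP
    rw [← integral_finsetSum, ← integral_const_mul]
    · congr 1
      ext v
      rw [Finset.mul_sum, Finset.mul_sum, Finset.mul_sum]
      apply Finset.sum_congr rfl
      intro a _
      ring
    · intro a _
      exact conv_int hgc hgd hC1 s hT1 hΨ.continuous hΨ0 hC _
  rw [key]
  set K := (cc β s k + β ^ k * (1 / (β - 1)) / T * (1 + 1 / (β - 1)) ^ 3) with hK
  have hK0 : 0 ≤ K := by positivity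
  set W := β ^ k / T * ((1 + β ^ k / T * |u|) ^ 3)⁻¹ with hW
  have hW0 : 0 ≤ W := by positivity
  have h0 : Integrable (fun v : ℝ => (K * C * W * C1) * (1 + v ^ 2)⁻¹) :=
    integrable_inv_one_add_sq.const_mul _
  have hb : ∀ v : ℝ, ‖gt v * PP β k (fun u' => EE s T Ψ (u' - v)) u‖ ≤
      (K * C * W * C1) * (1 + v ^ 2)⁻¹ := by
    intro v
    rw [norm_mul]
    have h1 := packet hβ hΨ hΨ0 hΨ1 hC s k hT u v
    have h2 : ((1 + |(β ^ k * u - v) / T|) ^ 3)⁻¹ ≤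
        (1 + |v|) ^ 3 * ((1 + β ^ k / T * |u|) ^ 3)⁻¹ := by
      apply cmp (by positivity) (by positivity)
      have e1 : β ^ k / T * |u| ≤ |(β ^ k * u - v) / T| + |v| := by
        have e2 : β ^ k / T * |u| = |β ^ k * u / T| := by
          rw [abs_div, abs_mul, abs_of_pos hbk, abs_of_pos hT0]; ring
        have e3 : β ^ k * u / T = (β ^ k * u - v) / T + v / T := by ring
        have e4 : |v / T| ≤ |v| := by
          rw [abs_div, abs_of_pos hT0]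
          exact div_le_self (abs_nonneg v) hT1
        rw [e2, e3]
        exact (abs_add_le _ _).trans (by linarith)
      have e5 : 0 ≤ |(β ^ k * u - v) / T| * |v| := by positivity
      nlinarith
    have h3 : ‖PP β k (fun u' => EE s T Ψ (u' - v)) u‖ ≤ K * C * W * (1 + |v|) ^ 3 := by
      refine h1.trans ?_
      calc β ^ k / T * (K * C * ((1 + |(β ^ k * u - v) / T|) ^ 3)⁻¹)
          ≤ β ^ k / T * (K * C * ((1 + |v|) ^ 3 * ((1 + β ^ k / T * |u|) ^ 3)⁻¹)) := by gcongr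
        _ = _ := by rw [hW]; ring
    calc ‖gt v‖ * ‖PP β k (fun u' => EE s T Ψ (u' - v)) u‖
        ≤ (C1 * ((1 + |v|) ^ 5)⁻¹) * (K * C * W * (1 + |v|) ^ 3) := by
          have := hgd v
          gcongr
      _ = (K * C * W * C1) * ((1 + |v|) ^ 2)⁻¹ := by
          have : 1 + |v| ≠ 0 := by positivity
          field_simp
      _ ≤ _ := by
          have := inv_sq_le v
          gcongr
  refine (norm_integral_le_of_norm_le h0 (Filter.Eventually.of_forall hb)).trans ?_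
  rw [integral_const_mul, integral_univ_inv_one_add_sq]
  apply le_of_eq
  ring

theorem tele {B : ℝ} (hB : 0 < B) (hB1 : B ≤ 1) (n : ℕ) :
    ∑ i ∈ Finset.range n, B * ((1 + B * (i : ℝ)) ^ 3)⁻¹ ≤ 2 * (1 - (1 + B * (n : ℝ))⁻¹) := by
  induction n with
  | zero => simp
  | succ n ih =>
    rw [Finset.sum_range_succ]
    have h1 : B * ((1 + B * (n : ℝ)) ^ 3)⁻¹ ≤
        2 * ((1 + B * (n : ℝ))⁻¹ - (1 + B * ((n + 1 : ℕ) : ℝ))⁻¹) := by
      push_cast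
      set a := 1 + B * (n : ℝ) with ha
      have ha1 : 1 ≤ a := by
        have : 0 ≤ B * (n : ℝ) := by positivity
        linarith
      have e1 : 1 + B * ((n : ℝ) + 1) = a + B := by rw [ha]; ring
      rw [e1]
      have e2 : 2 * (a⁻¹ - (a + B)⁻¹) = 2 * B / (a * (a + B)) := by
        have h2 : a ≠ 0 := by positivity
        have h3 : a + B ≠ 0 := by positivity
        field_simp
        ring
      rw [e2, ← div_eq_mul_inv, div_le_div_iff₀ (by positivity) (by positivity)]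
      have e3 : a * (a + B) ≤ 2 * a ^ 3 := by
        have : a ^ 2 ≤ a ^ 3 := pow_le_pow_right₀ ha1 (by norm_num)
        nlinarith
      nlinarith
    linarith

theorem tele2 {B : ℝ} (hB : 0 < B) (hB1 : B ≤ 1) (n : ℕ) :
    ∑ i ∈ Finset.range n, B * ((1 + B * (i : ℝ)) ^ 3)⁻¹ ≤ 2 := by
  refine (tele hB hB1 n).trans ?_
  have : 0 ≤ (1 + B * (n : ℝ))⁻¹ := by positivity
  linarith

theorem tele3 {B : ℝ} (hB : 0 < B) (hB1 : B ≤ 1) (n : ℕ) :
    ∑ i ∈ Finset.range n, B * ((1 + B * |((-((i : ℤ) + 1) : ℤ) : ℝ)|) ^ 3)⁻¹ ≤ 2 := by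
  refine le_trans (Finset.sum_le_sum fun i _ => ?_) (tele2 hB hB1 n)
  have h1 : |((-((i : ℤ) + 1) : ℤ) : ℝ)| = (i : ℝ) + 1 := by
    push_cast
    rw [abs_neg, abs_of_nonneg (by positivity)]
  rw [h1]
  gcongr
  linarith

theorem wsum {B : ℝ} (hB : 0 < B) (hB1 : B ≤ 1) :
    Summable (fun j : ℤ => B * ((1 + B * |(j : ℝ)|) ^ 3)⁻¹) ∧
      ∑' j : ℤ, B * ((1 + B * |(j : ℝ)|) ^ 3)⁻¹ ≤ 4 := by
  have hc : ∀ n : ℕ, B * ((1 + B * |(((n : ℕ) : ℤ) : ℝ)|) ^ 3)⁻¹ =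
      B * ((1 + B * (n : ℝ)) ^ 3)⁻¹ := by
    intro n
    congr 5
    push_cast
    exact abs_of_nonneg (by positivity)
  have hr1 : ∀ n : ℕ, ∑ i ∈ Finset.range n, B * ((1 + B * |(((i : ℕ) : ℤ) : ℝ)|) ^ 3)⁻¹ ≤ 2 := by
    intro n
    rw [Finset.sum_congr rfl fun i _ => hc i]
    exact tele2 hB hB1 n
  have s1 : Summable (fun n : ℕ => B * ((1 + B * |(((n : ℕ) : ℤ) : ℝ)|) ^ 3)⁻¹) :=
    summable_of_sum_range_le (fun n => by positivity) hr1
  have s2 : Summable (fun n : ℕ => B * ((1 + B * |((-((n : ℤ) + 1) : ℤ) : ℝ)|) ^ 3)⁻¹) :=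
    summable_of_sum_range_le (fun n => by positivity) (tele3 hB hB1)
  refine ⟨Summable.of_nat_of_neg_add_one (f := fun j : ℤ => B * ((1 + B * |(j : ℝ)|) ^ 3)⁻¹)
    s1 s2, ?_⟩
  rw [tsum_of_nat_of_neg_add_one (f := fun j : ℤ => B * ((1 + B * |(j : ℝ)|) ^ 3)⁻¹) s1 s2]
  have t1 := Real.tsum_le_of_sum_range_le (fun n => by positivity) hr1
  have t2 := Real.tsum_le_of_sum_range_le (fun n => by positivity) (tele3 hB hB1)
  linarith

theorem sq_summable : Summable (fun j : ℤ => ((1 + |(j : ℝ)|) ^ 2)⁻¹) := by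
  have h0 : Summable (fun n : ℕ => (((n : ℝ) + 1) ^ 2)⁻¹) := by
    have := (summable_nat_add_iff 1).2 (Real.summable_nat_pow_inv.2 one_lt_two)
    refine this.congr fun n => ?_
    push_cast
    rfl
  apply Summable.of_nat_of_neg_add_one (f := fun j : ℤ => ((1 + |(j : ℝ)|) ^ 2)⁻¹)
  · refine h0.congr fun n => ?_
    push_cast
    rw [abs_of_nonneg (by positivity : (0 : ℝ) ≤ (n : ℝ)), add_comm]
  · refine Summable.of_nonneg_of_le (fun n => by positivity) (fun n => ?_) h0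
    have h1 : |((-((n : ℤ) + 1) : ℤ) : ℝ)| = (n : ℝ) + 1 := by
      push_cast
      rw [abs_neg, abs_of_nonneg (by positivity)]
    rw [h1]
    exact inv_anti₀ (by positivity) (pow_le_pow_left₀ (by positivity) (by linarith) 2)

theorem wsum2 {B : ℝ} (hB : 0 < B) (hB1 : B ≤ 1) (Q : ℝ) :
    Summable (fun j : ℤ => (|(j : ℝ)| + 1) * (Q * (B * ((1 + B * |(j : ℝ)|) ^ 3)⁻¹))) := by
  have h : Summable (fun j : ℤ => |Q| * (B ^ 2)⁻¹ * ((1 + |(j : ℝ)|) ^ 2)⁻¹) :=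
    sq_summable.mul_left _
  refine Summable.of_norm_bounded h fun j => ?_
  have h1 : ((1 + B * |(j : ℝ)|) ^ 3)⁻¹ ≤ B⁻¹ ^ 3 * ((1 + |(j : ℝ)|) ^ 3)⁻¹ := by
    apply cmp (by positivity) (by positivity)
    rw [← div_eq_mul_inv, le_div_iff₀ hB]
    have := abs_nonneg (j : ℝ)
    nlinarith
  rw [Real.norm_eq_abs, abs_mul, abs_mul, abs_mul, abs_of_pos hB,
    abs_of_nonneg (by positivity : (0 : ℝ) ≤ |(j : ℝ)| + 1),
    abs_of_nonneg (by positivity : (0 : ℝ) ≤ ((1 + B * |(j : ℝ)|) ^ 3)⁻¹)]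
  calc (|(j : ℝ)| + 1) * (|Q| * (B * ((1 + B * |(j : ℝ)|) ^ 3)⁻¹))
      ≤ (|(j : ℝ)| + 1) * (|Q| * (B * (B⁻¹ ^ 3 * ((1 + |(j : ℝ)|) ^ 3)⁻¹))) := by gcongr
    _ = _ := by
      have h2 : 1 + |(j : ℝ)| ≠ 0 := by positivity
      have h3 : |(j : ℝ)| + 1 = 1 + |(j : ℝ)| := add_comm _ _
      rw [h3]
      field_simp

end J17

/-- TARGET -/
theorem wave {β : ℝ} {h : ℝ → ℝ} (D : Dens β h) {x : ℝ} (G : Good h x) {s : ℝ} (hs : s ≠ 0)
    (gt Ψ : ℝ → ℂ) (hgc : Continuous gt) (hgd : ∃ C : ℝ, ∀ u : ℝ, ‖gt u‖ ≤ C * ((1 + |u|) ^ 5)⁻¹)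
    (hΨ : ContDiff ℝ 1 Ψ) {C : ℝ} (hΨ0 : Dec3 C Ψ) (hΨ1 : Dec3 C (deriv Ψ)) {ε : ℝ} (hε : 0 < ε) :
    ∃ T0 : ℝ, 1 ≤ T0 ∧ ∀ T : ℝ, T0 ≤ T →
      ∀ᶠ n : ℕ in atTop, ‖PP β n (fun u => ∫ v, gt v * EE s T Ψ (u - v)) x‖ ≤ ε := by
  have hβ := D.one_lt
  have hβ0 : 0 < β := by linarith
  have hb1 : 0 < β - 1 := by linarith
  have hC : 0 ≤ C := by
    have h1 := hΨ0 0
    have h2 := norm_nonneg (Ψ 0)
    simp at h1
    linarith
  obtain ⟨C1, hC1'⟩ := hgd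
  have hC1 : 0 ≤ C1 := by
    have h1 := hC1' 0
    have h2 := norm_nonneg (gt 0)
    simp at h1
    linarith
  set R := 1 / (β - 1) with hR
  have hR0 : 0 ≤ R := by positivity
  have hx0 := D.nonneg x
  set A := C * (C1 * Real.pi) with hA
  have hA0 : 0 ≤ A := by have := Real.pi_pos; positivity
  set K0 := (1 + R) * h x * (32 * A) + 1 with hK0
  have hK0p : 1 ≤ K0 := by
    have : 0 ≤ (1 + R) * h x * (32 * A) := by positivity
    linarith
  have hδ : 0 < ε / (4 * K0) := by positivity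
  obtain ⟨k, hk⟩ := ((cos_prod_lim D hs).eventually (gt_mem_nhds hδ)).exists
  have hbk : 0 < β ^ k := by positivity
  refine ⟨max 1 (max (β ^ k) (4 * K0 * (β ^ k * R * (1 + R) ^ 3) / ε)), le_max_left _ _, ?_⟩
  intro T hT
  have hT1 : 1 ≤ T := le_trans (le_max_left _ _) hT
  have hTk : β ^ k ≤ T := le_trans (le_trans (le_max_left _ _) (le_max_right _ _)) hT
  have hTe : 4 * K0 * (β ^ k * R * (1 + R) ^ 3) / ε ≤ T :=
    le_trans (le_trans (le_max_right _ _) (le_max_right _ _)) hT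
  have hT0 : 0 < T := by linarith
  have hsmall : β ^ k * R / T * (1 + R) ^ 3 ≤ ε / (4 * K0) := by
    rw [div_le_iff₀ hε] at hTe
    rw [div_mul_eq_mul_div, div_le_div_iff₀ hT0 (by positivity)]
    linarith
  have hcc := J17.cc_nonneg β s k
  have hk' : J17.cc β s k < ε / (4 * K0) := hk
  set B := β ^ k / T with hB
  have hBp : 0 < B := by positivity
  have hB1 : B ≤ 1 := by rw [hB, div_le_one hT0]; exact hTk
  set κ := (J17.cc β s k + β ^ k * R / T * (1 + R) ^ 3) * A with hκ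
  have hκ0 : 0 ≤ κ := by positivity
  have hκle : κ ≤ ε / (2 * K0) * A := by
    have h2 : J17.cc β s k + β ^ k * R / T * (1 + R) ^ 3 ≤ ε / (2 * K0) := by
      have h3 : ε / (2 * K0) = ε / (4 * K0) + ε / (4 * K0) := by field_simp; ring
      rw [h3]
      linarith
    rw [hκ]
    gcongr
  have hw : ∀ u : ℝ, ‖PP β k (fun u => ∫ v, gt v * EE s T Ψ (u - v)) u‖ ≤
      (fun j : ℤ => (8 * κ) * (B * ((1 + B * |(j : ℝ)|) ^ 3)⁻¹)) ⌊u⌋ := by
    intro u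
    refine (J17.conv_bound hβ hgc hC1' hC1 hΨ hΨ0 hΨ1 hC s k hT1 hTk u).trans ?_
    have h2 : ((1 + B * |u|) ^ 3)⁻¹ ≤ 2 ^ 3 * ((1 + B * |((⌊u⌋ : ℤ) : ℝ)|) ^ 3)⁻¹ := by
      apply J17.cmp (by positivity) (by positivity)
      have h3 : |((⌊u⌋ : ℤ) : ℝ)| ≤ |u| + 1 := by
        have e1 := Int.floor_le u
        have e2 := Int.lt_floor_add_one u
        have e3 := neg_abs_le u
        have e4 := le_abs_self u
        rw [abs_le]
        constructor <;> linarith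
      have h4 : 0 ≤ |u| := abs_nonneg u
      nlinarith
    show κ * (B * ((1 + B * |u|) ^ 3)⁻¹) ≤ _
    calc κ * (B * ((1 + B * |u|) ^ 3)⁻¹)
        ≤ κ * (B * (2 ^ 3 * ((1 + B * |((⌊u⌋ : ℤ) : ℝ)|) ^ 3)⁻¹)) := by gcongr
      _ = _ := by ring
  have hlim := limsup_bound D G (PP β k (fun u => ∫ v, gt v * EE s T Ψ (u - v)))
    (fun j : ℤ => (8 * κ) * (B * ((1 + B * |(j : ℝ)|) ^ 3)⁻¹)) hw
    (J17.wsum2 hBp hB1 (8 * κ)) (ε / 2) (by positivity)
  have htsum : ∑' j : ℤ, (8 * κ) * (B * ((1 + B * |(j : ℝ)|) ^ 3)⁻¹) ≤ 32 * κ := by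
    rw [tsum_mul_left]
    have := (J17.wsum hBp hB1).2
    nlinarith
  rw [Filter.eventually_atTop] at hlim ⊢
  obtain ⟨N, hN⟩ := hlim
  refine ⟨N + k, fun n hn => ?_⟩
  obtain ⟨m, rfl⟩ : ∃ m, n = m + k := ⟨n - k, by omega⟩
  rw [PP_add hβ0.ne']
  refine (hN m (by omega)).trans ?_
  have h5 : (1 + R) * h x * (∑' j : ℤ, (8 * κ) * (B * ((1 + B * |(j : ℝ)|) ^ 3)⁻¹)) ≤ ε / 2 := by
    calc (1 + R) * h x * (∑' j : ℤ, (8 * κ) * (B * ((1 + B * |(j : ℝ)|) ^ 3)⁻¹))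
        ≤ (1 + R) * h x * (32 * (ε / (2 * K0) * A)) := by
          have : 0 ≤ (1 + R) * h x := by positivity
          apply mul_le_mul_of_nonneg_left _ this
          linarith
      _ = ((1 + R) * h x * (32 * A)) * (ε / (2 * K0)) := by ring
      _ ≤ K0 * (ε / (2 * K0)) := by
          have h6 : (1 + R) * h x * (32 * A) ≤ K0 := by linarith
          gcongr
      _ = ε / 2 := by field_simp
  linarith

end Pool.Agent.H938D
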