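import Pool.Agent.H938_Dens.Defs
import Pool.Agent.H938_Dens.L16

set_option autoImplicit false

namespace Pool.Agent.H938D

open MeasureTheory Filter Topology

theorem integrable_dec {F : ℝ → ℂ} (hF : Continuous F) {C : ℝ}
    (hC : ∀ u : ℝ, ‖F u‖ ≤ C * ((1 + |u|) ^ 2)⁻¹) : Integrable F := by
  have hi : Integrable (fun u : ℝ => |C| * (1 + u ^ 2)⁻¹) :=
    (integrable_inv_one_add_sq).const_mul _
  refine hi.mono' hF.aestronglyMeasurable (Filter.Eventually.of_forall fun u => ?_)
  refine (hC u).trans ?_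
  have h0 : (0 : ℝ) < 1 + u ^ 2 := by positivity
  have h1 : 1 + u ^ 2 ≤ (1 + |u|) ^ 2 := by
    have : |u| ^ 2 = u ^ 2 := sq_abs u
    nlinarith [abs_nonneg u]
  have h2 : ((1 + |u|) ^ 2)⁻¹ ≤ (1 + u ^ 2)⁻¹ := inv_anti₀ h0 h1
  calc C * ((1 + |u|) ^ 2)⁻¹ ≤ |C| * ((1 + |u|) ^ 2)⁻¹ := by
        apply mul_le_mul_of_nonneg_right (le_abs_self C); positivity
    _ ≤ |C| * (1 + u ^ 2)⁻¹ := mul_le_mul_of_nonneg_left h2 (abs_nonneg C)

theorem ift_eq_inv (g : ℝ → ℂ) : ift g = FourierTransformInv.fourierInv g := by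
  ext u
  rw [Real.fourierInv_eq']
  unfold ift
  congr 1
  ext t
  simp only [smul_eq_mul]
  rw [mul_comm]
  congr 3
  simp
  ring

theorem ift_continuous (g : ℝ → ℂ) (hg : Integrable g) : Continuous (ift g) := by
  rw [ift_eq_inv]
  have : (FourierTransformInv.fourierInv g : ℝ → ℂ) =
      fun u => FourierTransform.fourier g (-u) := by
    ext u
    exact Real.fourierInv_eq_fourier_neg g u
  rw [this]
  exact (VectorFourier.fourierIntegral_continuous Real.continuous_fourierChar
    (by exact continuous_inner) hg).comp continuous_neg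

theorem fourier_inversion (g : ℝ → ℂ) (hg : ContDiff ℝ (⊤ : ℕ∞) g) (hgc : HasCompactSupport g)
    (t : ℝ) : ∫ v, ift g v * Complex.exp (((2 * Real.pi * t * (-v) : ℝ) : ℂ) * Complex.I)
      = g t := by
  have hgi : Integrable g := hg.continuous.integrable_of_hasCompactSupport hgc
  obtain ⟨C, hC⟩ := ift_dec g hg hgc 2
  have hii : Integrable (ift g) := integrable_dec (ift_continuous g hgi) hC
  have hfi : Integrable (FourierTransform.fourier g : ℝ → ℂ) := by
    have h1 : (FourierTransform.fourier g : ℝ → ℂ) = fun u => ift g (-u) := by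
      ext u
      rw [ift_eq_inv, Real.fourierInv_eq_fourier_neg, neg_neg]
    rw [h1]
    exact hii.comp_neg
  have := hg.continuous.fourier_fourierInv_eq hgi hfi
  have h2 := congrFun this t
  rw [← h2, Real.fourier_eq', ← ift_eq_inv]
  congr 1
  ext v
  simp only [smul_eq_mul]
  rw [mul_comm]
  congr 3
  simp
  ring

theorem EE_eq (ψ : ℝ → ℂ) {s T : ℝ} (hT : 0 < T) (w : ℝ) :
    EE s T (ift ψ) w = ift (fun t => ψ (T * (t - s))) w := by
  set F : ℝ → ℂ := fun x => ψ x *
    Complex.exp (((2 * Real.pi * (x / T + s) * w : ℝ) : ℂ) * Complex.I) with hF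
  have h1 : ift (fun t => ψ (T * (t - s))) w = ∫ t, F (T * (t - s)) := by
    unfold ift
    congr 1
    ext t
    simp only [hF]
    congr 5
    field_simp
    ring
  rw [h1, integral_sub_right_eq_self (fun x => F (T * x)) s,
    Measure.integral_comp_mul_left F T]
  rw [abs_of_pos (inv_pos.2 hT)]
  unfold EE ift
  rw [mul_assoc, mul_left_comm, ← integral_const_mul]
  rw [Complex.real_smul]
  congr 1
  congr 1
  ext x
  simp only [hF]
  rw [mul_left_comm, ← Complex.exp_add]
  congr 2
  push_cast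
  ring

/-- TARGET -/
theorem ift_mul_bump (g ψ : ℝ → ℂ) (hg : ContDiff ℝ (⊤ : ℕ∞) g) (hgc : HasCompactSupport g)
    (hψ : ContDiff ℝ (⊤ : ℕ∞) ψ) (hψc : HasCompactSupport ψ) {s T : ℝ} (hT : 0 < T) (u : ℝ) :
    ift (fun t => g t * ψ (T * (t - s))) u = ∫ v, ift g v * EE s T (ift ψ) (u - v) := by
  have hgi : Integrable g := hg.continuous.integrable_of_hasCompactSupport hgc
  obtain ⟨C, hC⟩ := ift_dec g hg hgc 2
  have hii : Integrable (ift g) := integrable_dec (ift_continuous g hgi) hC
  set ψ' : ℝ → ℂ := fun t => ψ (T * (t - s)) with hψ'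
  have hψi : Integrable ψ := hψ.continuous.integrable_of_hasCompactSupport hψc
  have hψ'i : Integrable ψ' := by
    have h1 : Integrable (fun t => ψ (T * t)) := hψi.comp_mul_left' hT.ne'
    exact h1.comp_sub_right s
  simp only [EE_eq ψ hT]
  change ift (fun t => g t * ψ' t) u = ∫ v, ift g v * ift ψ' (u - v)
  have e1 : ∀ v, ift g v * ift ψ' (u - v) = ∫ t, ift g v * ψ' t *
      Complex.exp (((2 * Real.pi * t * (u - v) : ℝ) : ℂ) * Complex.I) := by
    intro v
    rw [show ift ψ' (u - v) = ∫ t, ψ' t *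
      Complex.exp (((2 * Real.pi * t * (u - v) : ℝ) : ℂ) * Complex.I) from rfl,
      ← integral_const_mul]
    congr 1
    ext t
    ring
  simp only [e1]
  have hint : Integrable (Function.uncurry fun v t => ift g v * ψ' t *
      Complex.exp (((2 * Real.pi * t * (u - v) : ℝ) : ℂ) * Complex.I))
      (volume.prod volume) := by
    have hp : Integrable (fun z : ℝ × ℝ => ift g z.1 * ψ' z.2) (volume.prod volume) :=
      hii.mul_prod hψ'i
    have hb := hp.mul_bdd (c := 1) (g := fun z : ℝ × ℝ =>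
      Complex.exp (((2 * Real.pi * z.2 * (u - z.1) : ℝ) : ℂ) * Complex.I))
      (by
        apply Continuous.aestronglyMeasurable
        fun_prop)
      (Filter.Eventually.of_forall fun z => by
        rw [Complex.norm_exp_ofReal_mul_I])
    exact hb
  rw [integral_integral_swap hint]
  unfold ift
  congr 1
  ext t
  have e2 : ∀ v, ift g v * ψ' t *
      Complex.exp (((2 * Real.pi * t * (u - v) : ℝ) : ℂ) * Complex.I) =
      (ψ' t * Complex.exp (((2 * Real.pi * t * u : ℝ) : ℂ) * Complex.I)) *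
      (ift g v * Complex.exp (((2 * Real.pi * t * (-v) : ℝ) : ℂ) * Complex.I)) := by
    intro v
    have : Complex.exp (((2 * Real.pi * t * (u - v) : ℝ) : ℂ) * Complex.I) =
        Complex.exp (((2 * Real.pi * t * u : ℝ) : ℂ) * Complex.I) *
        Complex.exp (((2 * Real.pi * t * (-v) : ℝ) : ℂ) * Complex.I) := by
      rw [← Complex.exp_add]
      congr 1
      push_cast
      ring
    rw [this]
    ring
  have e3 : (∫ v, ift g v * ψ' t *
      Complex.exp (((2 * Real.pi * t * (u - v) : ℝ) : ℂ) * Complex.I)) =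
      (ψ' t * Complex.exp (((2 * Real.pi * t * u : ℝ) : ℂ) * Complex.I)) * g t := by
    simp only [e2]
    rw [integral_const_mul, fourier_inversion g hg hgc t]
  change _ = (∫ v, ift g v * ψ' t *
      Complex.exp (((2 * Real.pi * t * (u - v) : ℝ) : ℂ) * Complex.I))
  rw [e3]
  ring

end Pool.Agent.H938D
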