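import Pool.Agent.H938_Dens.Defs
import Pool.Agent.H938_Dens.L16

set_option autoImplicit false

namespace Pool.Agent.H938D

open MeasureTheory Filter Topology

/-- TARGET -/
theorem ift_integral (k : ℝ → ℂ) (hk : ContDiff ℝ (⊤ : ℕ∞) k) (hkc : HasCompactSupport k) :
    ∫ u, ift k u = k 0 := by
  set f : SchwartzMap ℝ ℂ := hkc.toSchwartzMap hk with hf
  have hfg : ∀ t, f t = k t := fun t => rfl
  have he : ∀ u, ift k u = (FourierTransformInv.fourierInv f : SchwartzMap ℝ ℂ) u := by
    intro u
    rw [SchwartzMap.fourierInv_coe, Real.fourierInv_eq']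
    unfold ift
    congr 1
    funext t
    rw [hfg]
    simp
    ring_nf
  have h1 : (FourierTransform.fourier (FourierTransformInv.fourierInv f : SchwartzMap ℝ ℂ) : SchwartzMap ℝ ℂ) = f :=
    FourierTransform.fourier_fourierInv_eq f
  have h2 : (FourierTransform.fourier (FourierTransformInv.fourierInv f : SchwartzMap ℝ ℂ) : SchwartzMap ℝ ℂ) 0 = k 0 := by
    rw [h1, hfg]
  rw [← h2, SchwartzMap.fourier_coe, Real.fourier_eq']
  apply integral_congr_ae
  filter_upwards with u
  rw [he]
  simp

end Pool.Agent.H938D
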