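import Pool.Agent.H938_Dens.Defs
import Pool.Agent.H938_Dens.L16

set_option autoImplicit false

namespace Pool.Agent.H938D

open MeasureTheory Filter Topology

open scoped FourierTransform SchwartzMap in
theorem ift_eq_schwartz (k : ℝ → ℂ) (hk : ContDiff ℝ (⊤ : ℕ∞) k) (hkc : HasCompactSupport k) :
    ∃ F : 𝓢(ℝ, ℂ), ift k = F := by
  refine ⟨𝓕⁻ (hkc.toSchwartzMap hk), ?_⟩
  funext u
  rw [SchwartzMap.fourierInv_coe, Real.fourierInv_eq']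
  unfold ift
  refine MeasureTheory.integral_congr_ae (Filter.Eventually.of_forall fun t => ?_)
  simp only [smul_eq_mul, HasCompactSupport.toSchwartzMap_toFun]
  rw [mul_comm]
  congr 3
  have : (inner ℝ t u : ℝ) = t * u := by
    simp [mul_comm]
  rw [this]
  push_cast
  ring

/-- TARGET -/
theorem ift_contDiff (k : ℝ → ℂ) (hk : ContDiff ℝ (⊤ : ℕ∞) k) (hkc : HasCompactSupport k) :
    ContDiff ℝ (⊤ : ℕ∞) (ift k) ∧ ∃ C : ℝ, Dec3 C (deriv (ift k)) := by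
  obtain ⟨F, hF⟩ := ift_eq_schwartz k hk hkc
  rw [hF]
  refine ⟨F.smooth ⊤, ?_⟩
  obtain ⟨C, hC⟩ : ∃ C : ℝ, ∀ x : ℝ, (1 + ‖x‖) ^ 3 * ‖iteratedFDeriv ℝ 0 (SchwartzMap.derivCLM ℝ ℂ F) x‖ ≤ C :=
    ⟨_, fun x => SchwartzMap.one_add_le_sup_seminorm_apply (𝕜 := ℝ) (m := (3, 0)) (k := 3) (n := 0) le_rfl le_rfl
      (SchwartzMap.derivCLM ℝ ℂ F) x⟩
  refine ⟨C, fun u => ?_⟩
  have h := hC u
  rw [norm_iteratedFDeriv_zero, SchwartzMap.derivCLM_apply, Real.norm_eq_abs] at h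
  have hpos : (0 : ℝ) < (1 + |u|) ^ 3 := by positivity
  rw [← div_eq_mul_inv, le_div_iff₀ hpos, mul_comm]
  exact h

end Pool.Agent.H938D
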