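import Pool.Agent.H938_Dens.Defs

set_option autoImplicit false

namespace Pool.Agent.H938D

open MeasureTheory Filter Topology

/-- TARGET -/
theorem ift_mul_hh {β : ℝ} {h : ℝ → ℝ} (D : Dens β h) (k : ℝ → ℂ) (hk : ContDiff ℝ (⊤ : ℕ∞) k)
    (hkc : HasCompactSupport k) (u : ℝ) :
    ift (fun t => k t * hh h t) u = ∫ v, (h v : ℂ) * ift k (u - v) := by
  have hkI : Integrable k := hk.continuous.integrable_of_hasCompactSupport hkc
  have hhI : Integrable (fun v => (h v : ℂ)) := D.int.ofReal
  have h1 : Integrable (fun z : ℝ × ℝ => k z.1 * (h z.2 : ℂ)) (volume.prod volume) := hkI.mul_prod hhI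
  have hexp : Continuous (fun z : ℝ × ℝ => Complex.exp (((2 * Real.pi * z.1 * (u - z.2) : ℝ) : ℂ) * Complex.I)) := by
    fun_prop
  have h2 : Integrable (fun z : ℝ × ℝ =>
      Complex.exp (((2 * Real.pi * z.1 * (u - z.2) : ℝ) : ℂ) * Complex.I) * (k z.1 * (h z.2 : ℂ)))
      (volume.prod volume) := by
    refine h1.bdd_mul (c := 1) hexp.aestronglyMeasurable ?_
    refine Filter.Eventually.of_forall fun z => ?_
    rw [Complex.norm_exp_ofReal_mul_I]
  have hswap := integral_integral_swap (f := fun t v : ℝ =>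
      Complex.exp (((2 * Real.pi * t * (u - v) : ℝ) : ℂ) * Complex.I) * (k t * (h v : ℂ))) h2
  have hL : ift (fun t => k t * hh h t) u = ∫ t, ∫ v,
      Complex.exp (((2 * Real.pi * t * (u - v) : ℝ) : ℂ) * Complex.I) * (k t * (h v : ℂ)) := by
    unfold ift hh
    refine integral_congr_ae (Filter.Eventually.of_forall fun t => ?_)
    simp only
    rw [← integral_const_mul, ← integral_mul_const]
    refine integral_congr_ae (Filter.Eventually.of_forall fun v => ?_)
    simp only
    have h3 : Complex.exp (((2 * Real.pi * t * (u - v) : ℝ) : ℂ) * Complex.I) =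
        Complex.exp (((-(2 * Real.pi * t * v) : ℝ) : ℂ) * Complex.I) *
          Complex.exp (((2 * Real.pi * t * u : ℝ) : ℂ) * Complex.I) := by
      rw [← Complex.exp_add]
      congr 1
      push_cast
      ring
    rw [h3]
    ring
  have hR : (∫ v, (h v : ℂ) * ift k (u - v)) = ∫ v, ∫ t,
      Complex.exp (((2 * Real.pi * t * (u - v) : ℝ) : ℂ) * Complex.I) * (k t * (h v : ℂ)) := by
    unfold ift
    refine integral_congr_ae (Filter.Eventually.of_forall fun v => ?_)
    simp only
    rw [← integral_const_mul]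
    refine integral_congr_ae (Filter.Eventually.of_forall fun t => ?_)
    simp only
    ring
  rw [hL, hR]
  exact hswap

end Pool.Agent.H938D
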