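import Pool.Agent.H938_Dens.Defs
import Pool.Agent.H938_Dens.L14
import Pool.Agent.H938_Dens.L15

set_option autoImplicit false

namespace Pool.Agent.H938D

open MeasureTheory Filter Topology

/-- TARGET -/
theorem division {β : ℝ} {h : ℝ → ℝ} (D : Dens β h) (g : ℝ → ℂ) (hg : ContDiff ℝ (⊤ : ℕ∞) g)
    (hgc : HasCompactSupport g) (ψ : ℝ → ℂ) (hψ : ContDiff ℝ (⊤ : ℕ∞) ψ)
    (hψ1 : ∀ t, |t| ≤ 1 → ψ t = 1) (hψ2 : ∀ t, 2 ≤ |t| → ψ t = 0) :
    ∃ (Z : Finset ℝ) (T0 : ℝ), 0 < T0 ∧ (∀ s ∈ Z, s ≠ 0) ∧ ∀ T : ℝ, T0 ≤ T →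
      ∃ k : ℝ → ℂ, ContDiff ℝ (⊤ : ℕ∞) k ∧ HasCompactSupport k ∧ k 0 = g 0 ∧
        ∀ t, g t = (∑ s ∈ Z, g t * ψ (T * (t - s))) + k t * hh h t := by
  classical
  -- `H 0 = 1`
  have hH0 : hh h 0 = 1 := by
    have e1 : hh h 0 = ∫ y, ((h y : ℝ) : ℂ) := by
      unfold hh
      congr 1
      ext y
      simp
    rw [e1, integral_complex_ofReal, D.one]
    simp
  have hHs : ContDiff ℝ (⊤ : ℕ∞) (hh h) := hh_smooth D
  -- the support is bounded
  obtain ⟨A, hA⟩ : ∃ A : ℝ, ∀ t ∈ tsupport g, |t| ≤ A := by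
    obtain ⟨A, hA⟩ := hgc.isCompact.isBounded.subset_closedBall (0 : ℝ)
    refine ⟨A, fun t ht => ?_⟩
    have := hA ht
    simpa [Metric.mem_closedBall, Real.dist_eq] using this
  set Z : Finset ℝ := (zeros_finite D A).toFinset with hZ
  have memZ : ∀ s, s ∈ Z ↔ |s| ≤ A ∧ hh h s = 0 := by
    intro s; simp [hZ]
  have hZ0 : ∀ s ∈ Z, s ≠ 0 := by
    intro s hs h0
    have := ((memZ s).1 hs).2
    rw [h0, hH0] at this
    exact one_ne_zero this
  -- separation
  have hsep : ∀ᶠ T : ℝ in atTop, ∀ s ∈ insert (0 : ℝ) Z, ∀ s' ∈ insert (0 : ℝ) Z,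
      s ≠ s' → 2 < T * |s - s'| := by
    rw [Filter.eventually_all_finset]
    intro s _
    rw [Filter.eventually_all_finset]
    intro s' _
    by_cases hss : s = s'
    · exact Filter.Eventually.of_forall (fun T h => absurd hss h)
    · have hpos : 0 < |s - s'| := abs_pos.2 (sub_ne_zero.2 hss)
      filter_upwards [(Filter.tendsto_id.atTop_mul_const hpos).eventually_gt_atTop 2] with T hT _
      exact hT
  obtain ⟨T1, hT1⟩ := Filter.eventually_atTop.1 hsep
  refine ⟨Z, max T1 1, lt_of_lt_of_le one_pos (le_max_right _ _), hZ0, ?_⟩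
  intro T hT
  have hTpos : 0 < T := lt_of_lt_of_le one_pos ((le_max_right _ _).trans hT)
  have hTsep := hT1 T ((le_max_left _ _).trans hT)
  set χ : ℝ → ℂ := fun t => ∑ s ∈ Z, ψ (T * (t - s)) with hχ
  have hχs : ContDiff ℝ (⊤ : ℕ∞) χ := by
    apply ContDiff.sum
    intro s _
    exact hψ.comp (contDiff_const.mul (contDiff_id.sub contDiff_const))
  -- near a point of `Z`, `χ = 1`
  have hχ1 : ∀ t ∈ Z, ∀ᶠ t' in 𝓝 t, χ t' = 1 := by
    intro t ht
    have h1 : ∀ᶠ t' in 𝓝 t, |T * (t' - t)| ≤ 1 := by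
      have hc : ContinuousAt (fun t' : ℝ => |T * (t' - t)|) t := by fun_prop
      have : (fun t' : ℝ => |T * (t' - t)|) t < 1 := by simp
      filter_upwards [hc.eventually_lt continuousAt_const this] with t' h using h.le
    have h2 : ∀ᶠ t' in 𝓝 t, ∀ s ∈ Z, s ≠ t → 2 ≤ |T * (t' - s)| := by
      rw [Filter.eventually_all_finset]
      intro s hs
      by_cases hst : s = t
      · exact Filter.Eventually.of_forall (fun _ h => absurd hst h)
      · have hc : ContinuousAt (fun t' : ℝ => |T * (t' - s)|) t := by fun_prop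
        have hlt : 2 < (fun t' : ℝ => |T * (t' - s)|) t := by
          simp only [abs_mul, abs_of_pos hTpos]
          exact hTsep t (Finset.mem_insert_of_mem ht) s (Finset.mem_insert_of_mem hs)
            (Ne.symm hst)
        filter_upwards [continuousAt_const.eventually_lt hc hlt] with t' h _ using h.le
    filter_upwards [h1, h2] with t' h1 h2
    simp only [hχ]
    rw [Finset.sum_eq_single_of_mem t ht]
    · exact hψ1 _ h1
    · intro s hs hst
      exact hψ2 _ (h2 s hs hst)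
  have hχ0 : χ 0 = 0 := by
    simp only [hχ]
    apply Finset.sum_eq_zero
    intro s hs
    apply hψ2
    rw [abs_mul, abs_of_pos hTpos]
    exact (hTsep 0 (Finset.mem_insert_self _ _) s (Finset.mem_insert_of_mem hs)
      (Ne.symm (hZ0 s hs))).le
  refine ⟨fun t => g t * (1 - χ t) / hh h t, ?_, ?_, ?_, ?_⟩
  · rw [contDiff_iff_contDiffAt]
    intro t
    by_cases hHt : hh h t = 0
    · have hev : (fun t => g t * (1 - χ t) / hh h t) =ᶠ[𝓝 t] fun _ => (0 : ℂ) := by
        by_cases hts : t ∈ tsupport g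
        · have htZ : t ∈ Z := (memZ t).2 ⟨hA t hts, hHt⟩
          filter_upwards [hχ1 t htZ] with t' h
          rw [h]; simp
        · have := notMem_tsupport_iff_eventuallyEq.1 hts
          filter_upwards [this] with t' h
          rw [h]; simp
      exact contDiffAt_const.congr_of_eventuallyEq hev
    · have hn : ContDiffAt ℝ (⊤ : ℕ∞) (fun t => g t * (1 - χ t)) t :=
        (hg.mul (contDiff_const.sub hχs)).contDiffAt
      have hi : ContDiffAt ℝ (⊤ : ℕ∞) (fun t => (hh h t)⁻¹) t := hHs.contDiffAt.inv hHt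
      have hm := hn.mul hi
      simpa only [div_eq_mul_inv] using hm
  · refine hgc.mono ?_
    intro t ht
    rw [Function.mem_support] at ht ⊢
    intro h0
    apply ht
    simp [h0]
  · simp only [hχ0, hH0]
    simp
  · intro t
    have hsum : (∑ s ∈ Z, g t * ψ (T * (t - s))) = g t * χ t := by
      simp only [hχ]
      rw [Finset.mul_sum]
    rw [hsum]
    by_cases hHt : hh h t = 0
    · rw [hHt]
      by_cases hgt : g t = 0
      · simp [hgt]
      · have hts : t ∈ tsupport g := subset_tsupport g hgt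
        have htZ : t ∈ Z := (memZ t).2 ⟨hA t hts, hHt⟩
        have := (hχ1 t htZ).self_of_nhds
        rw [this]; simp
    · rw [div_mul_cancel₀ _ hHt]
      ring

end Pool.Agent.H938D
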