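import Pool.Agent.H938_Dens.Defs
import Pool.Agent.H938_Dens.L12
import Pool.Agent.H938_Dens.L16
import Pool.Agent.H938_Dens.L17
import Pool.Agent.H938_Dens.L18
import Pool.Agent.H938_Dens.L19
import Pool.Agent.H938_Dens.L20
import Pool.Agent.H938_Dens.L21
import Pool.Agent.H938_Dens.L22

set_option autoImplicit false

namespace Pool.Agent.H938D

open MeasureTheory Filter Topology


theorem bandlim_integrable (f : ℝ → ℂ) (hf : Continuous f) (hc : HasCompactSupport f) (u : ℝ) :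
    Integrable fun t => f t * Complex.exp (((2 * Real.pi * t * u : ℝ) : ℂ) * Complex.I) := by
  apply Continuous.integrable_of_hasCompactSupport
  · fun_prop
  · exact hc.mul_right

theorem bandlim_ift_add (ι : Type) (Z : Finset ι) (F : ι → ℝ → ℂ) (f0 g : ℝ → ℂ)
    (hF : ∀ s ∈ Z, Continuous (F s)) (hFc : ∀ s ∈ Z, HasCompactSupport (F s))
    (hg : Continuous g) (hgc : HasCompactSupport g)
    (h : ∀ t, g t = (∑ s ∈ Z, F s t) + f0 t) (u : ℝ) :
    ift g u = (∑ s ∈ Z, ift (F s) u) + ift f0 u := by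
  have hi : ∀ s ∈ Z, Integrable fun t => F s t *
      Complex.exp (((2 * Real.pi * t * u : ℝ) : ℂ) * Complex.I) :=
    fun s hs => bandlim_integrable (F s) (hF s hs) (hFc s hs) u
  have hg' := bandlim_integrable g hg hgc u
  have hs := integrable_finsetSum Z hi
  have e0 : ∀ t, f0 t * Complex.exp (((2 * Real.pi * t * u : ℝ) : ℂ) * Complex.I) =
      g t * Complex.exp (((2 * Real.pi * t * u : ℝ) : ℂ) * Complex.I) -
      ∑ s ∈ Z, F s t * Complex.exp (((2 * Real.pi * t * u : ℝ) : ℂ) * Complex.I) := by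
    intro t
    rw [← Finset.sum_mul, h t]
    ring
  unfold ift
  rw [← integral_finsetSum Z hi]
  simp_rw [e0]
  rw [integral_sub hg' hs]
  ring

theorem bandlim_PP (β : ℝ) (n : ℕ) (x : ℝ) (ι : Type) (Z : Finset ι) (F : ι → ℝ → ℂ)
    (f0 g : ℝ → ℂ) (h : ∀ t, g t = (∑ s ∈ Z, F s t) + f0 t) :
    PP β n g x = (∑ s ∈ Z, PP β n (F s) x) + PP β n f0 x := by
  unfold PP
  simp_rw [h]
  rw [Finset.sum_add_distrib, mul_add, Finset.sum_comm, Finset.mul_sum]

/-- TARGET -/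
theorem bandlim {β : ℝ} {h : ℝ → ℝ} (D : Dens β h) {x : ℝ} (G : Good h x) (g : ℝ → ℂ)
    (hg : ContDiff ℝ (⊤ : ℕ∞) g) (hgc : HasCompactSupport g) :
    Tendsto (fun n : ℕ => PP β n (ift g) x) atTop (𝓝 ((h x : ℂ) * g 0)) := by
  classical
  set f : ContDiffBump (0 : ℝ) := ⟨1, 2, one_pos, by norm_num⟩ with hf
  set ψ : ℝ → ℂ := fun t => ((f t : ℝ) : ℂ) with hψdef
  have hψ : ContDiff ℝ (⊤ : ℕ∞) ψ := Complex.ofRealCLM.contDiff.comp f.contDiff
  have hψc : HasCompactSupport ψ :=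
    f.hasCompactSupport.comp_left (g := fun x : ℝ => (x : ℂ)) Complex.ofReal_zero
  have hψ1 : ∀ t, |t| ≤ 1 → ψ t = 1 := by
    intro t ht
    have h1 : f t = 1 := f.one_of_mem_closedBall (by
      rw [Metric.mem_closedBall, dist_zero_right, Real.norm_eq_abs]; exact ht)
    rw [hψdef]
    simp only [h1, Complex.ofReal_one]
  have hψ2 : ∀ t, 2 ≤ |t| → ψ t = 0 := by
    intro t ht
    have h1 : f t = 0 := f.zero_of_le_dist (by
      rw [dist_zero_right, Real.norm_eq_abs]; exact ht)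
    rw [hψdef]
    simp only [h1, Complex.ofReal_zero]
  obtain ⟨Z, T0, hT0, hZ, hdiv⟩ := division D g hg hgc ψ hψ hψ1 hψ2
  obtain ⟨hΨ, C1, hC1⟩ := ift_contDiff ψ hψ hψc
  obtain ⟨C0, hC0⟩ := ift_dec ψ hψ hψc 3
  obtain ⟨hgi, -⟩ := ift_contDiff g hg hgc
  have hd0 : Dec3 (max C0 C1) (ift ψ) := fun u =>
    (hC0 u).trans (mul_le_mul_of_nonneg_right (le_max_left _ _) (by positivity))
  have hd1 : Dec3 (max C0 C1) (deriv (ift ψ)) := fun u =>
    (hC1 u).trans (mul_le_mul_of_nonneg_right (le_max_right _ _) (by positivity))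
  rw [Metric.tendsto_nhds]
  intro ε hε
  set ε' : ℝ := ε / 3 / (Z.card + 1) with hε'
  have hε'0 : 0 < ε' := by positivity
  have hw : ∀ s ∈ Z, ∃ T1 : ℝ, ∀ T : ℝ, T1 ≤ T →
      ∀ᶠ n : ℕ in atTop, ‖PP β n (fun u => ∫ v, ift g v * EE s T (ift ψ) (u - v)) x‖ ≤ ε' := by
    intro s hs
    obtain ⟨T1, -, hT1⟩ := wave D G (hZ s hs) (ift g) (ift ψ) hgi.continuous
      (ift_dec g hg hgc 5) (hΨ.of_le (by exact_mod_cast le_top)) hd0 hd1 hε'0
    exact ⟨T1, hT1⟩
  choose! Ts hTs using hw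
  obtain ⟨M, hM⟩ := (Z.image Ts).exists_le
  set T : ℝ := max (max T0 M) 1 with hT
  have hTT0 : T0 ≤ T := (le_max_left _ _).trans (le_max_left _ _)
  have hTM : M ≤ T := (le_max_right _ _).trans (le_max_left _ _)
  have hTpos : 0 < T := lt_of_lt_of_le one_pos (le_max_right _ _)
  obtain ⟨k, hk, hkc, hk0, hkg⟩ := hdiv T hTT0
  have hev : ∀ᶠ n : ℕ in atTop, ∀ s ∈ Z,
      ‖PP β n (fun u => ∫ v, ift g v * EE s T (ift ψ) (u - v)) x‖ ≤ ε' := by
    rw [Filter.eventually_all_finset]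
    intro s hs
    exact hTs s hs T ((hM _ (Finset.mem_image_of_mem Ts hs)).trans hTM)
  obtain ⟨C2, hC2⟩ := ift_dec k hk hkc 3
  obtain ⟨hki, -⟩ := ift_contDiff k hk hkc
  have hlim := conv_lim D G (ift k) hki.continuous hC2
  rw [ift_integral k hk hkc, hk0, Metric.tendsto_nhds] at hlim
  have hlim' := hlim (ε / 3) (by positivity)
  have hdec : ∀ u, ift g u = (∑ s ∈ Z, ∫ v, ift g v * EE s T (ift ψ) (u - v)) +
      ∫ v, (h v : ℂ) * ift k (u - v) := by
    intro u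
    have h1 := bandlim_ift_add ℝ Z (fun s t => g t * ψ (T * (t - s))) (fun t => k t * hh h t) g
      (fun s _ => by
        have := hg.continuous
        have := hψ.continuous
        fun_prop)
      (fun s _ => hgc.mul_right) hg.continuous hgc hkg u
    rw [h1, ift_mul_hh D k hk hkc u]
    congr 1
    refine Finset.sum_congr rfl fun s _ => ?_
    exact ift_mul_bump g ψ hg hgc hψ hψc hTpos u
  filter_upwards [hev, hlim'] with n hn1 hn2
  rw [bandlim_PP β n x ℝ Z _ _ _ hdec]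
  rw [dist_eq_norm] at hn2 ⊢
  have h1 : ‖∑ s ∈ Z, PP β n (fun u => ∫ v, ift g v * EE s T (ift ψ) (u - v)) x‖ ≤ ε / 3 := by
    calc ‖∑ s ∈ Z, PP β n (fun u => ∫ v, ift g v * EE s T (ift ψ) (u - v)) x‖
        ≤ ∑ s ∈ Z, ‖PP β n (fun u => ∫ v, ift g v * EE s T (ift ψ) (u - v)) x‖ :=
          norm_sum_le _ _
      _ ≤ Z.card • ε' := Finset.sum_le_card_nsmul _ _ _ hn1
      _ = (Z.card : ℝ) * ε' := nsmul_eq_mul _ _
      _ ≤ ε / 3 := by
          rw [hε', mul_div_assoc', div_le_iff₀ (Nat.cast_add_one_pos Z.card)]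
          have h3 : 0 ≤ ε / 3 := (div_pos hε (by norm_num)).le
          linarith
  rw [add_sub_assoc]
  refine (norm_add_le _ _).trans_lt ?_
  linarith

end Pool.Agent.H938D
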