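import Pool.Agent.H938_Dens.Defs
import Pool.Agent.H938_Dens.L16
import Pool.Agent.H938_Dens.L19

set_option autoImplicit false

namespace Pool.Agent.H938D

open MeasureTheory Filter Topology

open scoped SchwartzMap FourierTransform in
theorem aux_conv (ψ : 𝓢(ℝ, ℂ)) (θ : ℝ → ℂ) (hθ : ContDiff ℝ (⊤ : ℕ∞) θ) (hθc : HasCompactSupport θ)
    {δ : ℝ} (hδ : 0 < δ) (u : ℝ) :
    ift (fun t => (𝓕 ψ : 𝓢(ℝ, ℂ)) t * θ (δ * t)) u = ∫ v, ψ (u - δ * v) * ift θ v := by
  have hsm : ContDiff ℝ (⊤ : ℕ∞) (fun t : ℝ => θ (δ * t) *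
      Complex.exp (((2 * Real.pi * t * u : ℝ) : ℂ) * Complex.I)) := by
    apply ContDiff.mul
    · exact hθ.comp (contDiff_const.mul contDiff_id)
    · apply ContDiff.cexp
      apply ContDiff.mul _ contDiff_const
      exact Complex.ofRealCLM.contDiff.comp
        ((contDiff_const.mul contDiff_id).mul contDiff_const)
  have hcs : HasCompactSupport (fun t : ℝ => θ (δ * t) *
      Complex.exp (((2 * Real.pi * t * u : ℝ) : ℂ) * Complex.I)) := by
    apply HasCompactSupport.mul_right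
    exact hθc.comp_homeomorph (Homeomorph.mulLeft₀ δ hδ.ne')
  let h : 𝓢(ℝ, ℂ) := hcs.toSchwartzMap hsm
  have hh : ∀ t, h t = θ (δ * t) * Complex.exp (((2 * Real.pi * t * u : ℝ) : ℂ) * Complex.I) :=
    fun t => rfl
  have e1 : ift (fun t => (𝓕 ψ : 𝓢(ℝ, ℂ)) t * θ (δ * t)) u = ∫ ξ, (𝓕 ψ : 𝓢(ℝ, ℂ)) ξ * h ξ := by
    unfold ift
    refine integral_congr_ae (Eventually.of_forall fun t => ?_)
    simp only [hh]; ring
  have e2 : ∀ x, (𝓕 h : 𝓢(ℝ, ℂ)) x = ((δ⁻¹ : ℝ) : ℂ) * ift θ ((u - x) / δ) := by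
    intro x
    have e3 : (𝓕 h : 𝓢(ℝ, ℂ)) x = 𝓕 (h : ℝ → ℂ) x := by
      rw [SchwartzMap.fourier_coe]
    rw [e3, Real.fourier_real_eq_integral_exp_smul]
    have e4 := MeasureTheory.Measure.integral_comp_mul_left (fun s : ℝ => θ s *
      Complex.exp (((2 * Real.pi * s * ((u - x) / δ) : ℝ) : ℂ) * Complex.I)) δ
    rw [abs_of_pos (inv_pos.2 hδ)] at e4
    unfold ift
    rw [← Complex.real_smul, ← e4]
    refine integral_congr_ae (Eventually.of_forall fun t => ?_)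
    simp only [hh, smul_eq_mul]
    rw [mul_comm, mul_assoc, ← Complex.exp_add]
    congr 2
    have hδ' : (δ : ℂ) ≠ 0 := by exact_mod_cast hδ.ne'
    push_cast
    field_simp
    ring
  rw [e1, SchwartzMap.integral_fourier_mul_eq]
  simp only [e2]
  have e5 := integral_sub_left_eq_self (fun y : ℝ => ψ (u - y) *
    (((δ⁻¹ : ℝ) : ℂ) * ift θ (y / δ))) volume u
  simp only [sub_sub_cancel] at e5
  rw [e5]
  have e6 := MeasureTheory.Measure.integral_comp_mul_left (fun y : ℝ => ψ (u - y) * ift θ (y / δ)) δ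
  rw [abs_of_pos (inv_pos.2 hδ)] at e6
  have e7 : ∀ v : ℝ, δ * v / δ = v := fun v => mul_div_cancel_left₀ v hδ.ne'
  simp only [e7] at e6
  rw [e6, ← integral_smul]
  refine integral_congr_ae (Eventually.of_forall fun t => ?_)
  simp only [Complex.real_smul]
  ring

theorem aux_lip (φ : ℝ → ℝ) (hφ : ContDiff ℝ (⊤ : ℕ∞) φ) (hc : HasCompactSupport φ) :
    ∃ C : ℝ, 0 ≤ C ∧ ∀ u v δ : ℝ, 0 < δ → δ ≤ 1 →
      |φ u - φ (u - δ * v)| ≤ δ * |v| * (C * (1 + |v|) ^ 3) * ((1 + |u|) ^ 3)⁻¹ := by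
  have hd : Differentiable ℝ φ := hφ.differentiable (by simp)
  have hdc : Continuous (deriv φ) := hφ.continuous_deriv (by simp)
  have hcont : Continuous (fun w : ℝ => deriv φ w * (1 + |w|) ^ 3) := by fun_prop
  have hcs : HasCompactSupport (fun w : ℝ => deriv φ w * (1 + |w|) ^ 3) :=
    hc.deriv.mul_right
  obtain ⟨C, hC⟩ := hcs.exists_bound_of_continuous hcont
  have hC0 : 0 ≤ C := (norm_nonneg _).trans (hC 0)
  refine ⟨C, hC0, fun u v δ hδ hδ1 => ?_⟩
  have hb : ∀ w ∈ Metric.closedBall u |v|, ‖deriv φ w‖ ≤ C * (1 + |v|) ^ 3 * ((1 + |u|) ^ 3)⁻¹ := by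
    intro w hw
    have hw1 : |w - u| ≤ |v| := by simpa [Real.dist_eq] using hw
    have h1 : 1 + |u| ≤ (1 + |w|) * (1 + |v|) := by
      have h2 : |u| ≤ |w| + |w - u| := by
        have h3 := abs_sub_abs_le_abs_sub u w
        have h4 := abs_sub_comm u w
        linarith
      nlinarith [abs_nonneg w, abs_nonneg v, mul_nonneg (abs_nonneg w) (abs_nonneg v)]
    have h5 : (1 + |u|) ^ 3 ≤ (1 + |w|) ^ 3 * (1 + |v|) ^ 3 := by
      rw [← mul_pow]
      exact pow_le_pow_left₀ (by positivity) h1 3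
    have h6 := hC w
    rw [norm_mul, Real.norm_eq_abs, Real.norm_of_nonneg (by positivity : (0:ℝ) ≤ (1 + |w|) ^ 3)] at h6
    rw [Real.norm_eq_abs, ← div_eq_mul_inv, le_div_iff₀ (by positivity)]
    calc |deriv φ w| * (1 + |u|) ^ 3 ≤ |deriv φ w| * ((1 + |w|) ^ 3 * (1 + |v|) ^ 3) :=
          mul_le_mul_of_nonneg_left h5 (abs_nonneg _)
      _ = (|deriv φ w| * (1 + |w|) ^ 3) * (1 + |v|) ^ 3 := by ring
      _ ≤ C * (1 + |v|) ^ 3 := mul_le_mul_of_nonneg_right h6 (by positivity)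
  have hmem : u - δ * v ∈ Metric.closedBall u |v| := by
    rw [Metric.mem_closedBall, Real.dist_eq]
    have : u - δ * v - u = -(δ * v) := by ring
    rw [this, abs_neg, abs_mul, abs_of_pos hδ]
    exact mul_le_of_le_one_left (abs_nonneg v) hδ1
  have hself : u ∈ Metric.closedBall u |v| := Metric.mem_closedBall_self (abs_nonneg v)
  have h7 := (convex_closedBall u |v|).norm_image_sub_le_of_norm_deriv_le
    (fun x _ => hd x) hb hmem hself
  rw [Real.norm_eq_abs, Real.norm_eq_abs] at h7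
  have h8 : |u - (u - δ * v)| = δ * |v| := by
    rw [sub_sub_cancel, abs_mul, abs_of_pos hδ]
  rw [h8] at h7
  calc _ ≤ _ := h7
    _ = _ := by ring

open scoped SchwartzMap FourierTransform in
theorem aux_int (θ : ℝ → ℂ) (hθ : ContDiff ℝ (⊤ : ℕ∞) θ) (hθc : HasCompactSupport θ) :
    Continuous (ift θ) ∧ Integrable (ift θ) := by
  let h : 𝓢(ℝ, ℂ) := hθc.toSchwartzMap hθ
  have e : ift θ = ((𝓕⁻ h : 𝓢(ℝ, ℂ)) : ℝ → ℂ) := by
    rw [SchwartzMap.fourierInv_coe]
    ext u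
    rw [Real.fourierInv_eq']
    unfold ift
    refine integral_congr_ae (Eventually.of_forall fun t => ?_)
    have hh : h t = θ t := rfl
    simp only [hh, smul_eq_mul]
    rw [mul_comm]
    congr 3
    simp
    ring
  rw [e]
  exact ⟨SchwartzMap.continuous _, SchwartzMap.integrable _⟩

/-- TARGET -/
theorem approx_band (φ : ℝ → ℝ) (hφ : ContDiff ℝ (⊤ : ℕ∞) φ) (hc : HasCompactSupport φ)
    {η : ℝ} (hη : 0 < η) :
    ∃ g : ℝ → ℂ, ContDiff ℝ (⊤ : ℕ∞) g ∧ HasCompactSupport g ∧ g 0 = ((∫ u, φ u : ℝ) : ℂ) ∧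
      ∀ u : ℝ, ‖(φ u : ℂ) - ift g u‖ ≤ η * ((1 + |u|) ^ 3)⁻¹ := by
  classical
  -- the bump
  let b : ContDiffBump (0 : ℝ) := ⟨1, 2, one_pos, one_lt_two⟩
  let θ : ℝ → ℂ := fun t => ((b t : ℝ) : ℂ)
  have hθ : ContDiff ℝ (⊤ : ℕ∞) θ := Complex.ofRealCLM.contDiff.comp b.contDiff
  have hθc : HasCompactSupport θ := b.hasCompactSupport.comp_left (g := fun x : ℝ => (x : ℂ)) (by simp)
  have hθ0 : θ 0 = 1 := by
    have : b 0 = 1 := b.one_of_mem_closedBall (Metric.mem_closedBall_self (by simp [b]))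
    simp only [θ, this, Complex.ofReal_one]
  obtain ⟨hΘc, hΘi⟩ := aux_int θ hθ hθc
  have hΘ1 : ∫ v, ift θ v = 1 := by rw [ift_integral θ hθ hθc, hθ0]
  obtain ⟨C, hC0, hC⟩ := aux_lip φ hφ hc
  obtain ⟨D, hD⟩ := ift_dec θ hθ hθc 6
  -- the moment
  have hK : Integrable (fun v : ℝ => |v| * (C * (1 + |v|) ^ 3) * ‖ift θ v‖) := by
    have h1 : Integrable (fun v : ℝ => (C * D) * (1 + ‖v‖) ^ (-(2 : ℝ))) :=
      (integrable_one_add_norm (E := ℝ) (μ := volume) (r := 2) (by simp)).const_mul _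
    refine h1.mono' (by fun_prop) (Eventually.of_forall fun v => ?_)
    have hv : 0 < 1 + |v| := by positivity
    rw [Real.norm_of_nonneg (by positivity), Real.norm_eq_abs, Real.rpow_neg hv.le]
    have h2 : (1 + |v|) ^ (2 : ℝ) = (1 + |v|) ^ 2 := by
      rw [← Real.rpow_natCast]; norm_num
    rw [h2]
    calc |v| * (C * (1 + |v|) ^ 3) * ‖ift θ v‖
        ≤ (1 + |v|) * (C * (1 + |v|) ^ 3) * (D * ((1 + |v|) ^ 6)⁻¹) := by
          apply mul_le_mul _ (hD v) (norm_nonneg _) (by positivity)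
          exact mul_le_mul_of_nonneg_right (by linarith) (by positivity)
      _ = C * D * ((1 + |v|) ^ 2)⁻¹ := by field_simp
  set M : ℝ := ∫ v : ℝ, |v| * (C * (1 + |v|) ^ 3) * ‖ift θ v‖ with hM
  have hM0 : 0 ≤ M := integral_nonneg fun v => by positivity
  obtain ⟨δ, hδ, hδ1, hδM⟩ : ∃ δ : ℝ, 0 < δ ∧ δ ≤ 1 ∧ δ * M ≤ η := by
    refine ⟨min 1 (η / (M + 1)), lt_min one_pos (by positivity), min_le_left _ _, ?_⟩
    calc min 1 (η / (M + 1)) * M ≤ (η / (M + 1)) * M :=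
          mul_le_mul_of_nonneg_right (min_le_right _ _) hM0
      _ = η * (M / (M + 1)) := by ring
      _ ≤ η * 1 := by
          apply mul_le_mul_of_nonneg_left _ hη.le
          rw [div_le_one (by positivity)]; linarith
      _ = η := mul_one _
  have hφC : ContDiff ℝ (⊤ : ℕ∞) (fun u => ((φ u : ℝ) : ℂ)) := Complex.ofRealCLM.contDiff.comp hφ
  have hφcs : HasCompactSupport (fun u => ((φ u : ℝ) : ℂ)) :=
    hc.comp_left (g := fun x : ℝ => (x : ℂ)) (by simp)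
  let ψ : SchwartzMap ℝ ℂ := hφcs.toSchwartzMap hφC
  have hψ : ∀ u, ψ u = ((φ u : ℝ) : ℂ) := fun u => rfl
  refine ⟨fun t => (FourierTransform.fourier ψ : SchwartzMap ℝ ℂ) t * θ (δ * t), ?_, ?_, ?_, ?_⟩
  · exact ((FourierTransform.fourier ψ : SchwartzMap ℝ ℂ).smooth _).mul
      (hθ.comp (contDiff_const.mul contDiff_id))
  · exact HasCompactSupport.mul_left (hθc.comp_homeomorph (Homeomorph.mulLeft₀ δ hδ.ne'))
  · show (FourierTransform.fourier ψ : SchwartzMap ℝ ℂ) 0 * θ (δ * 0) = _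
    rw [mul_zero, hθ0, mul_one, SchwartzMap.fourier_coe, Real.fourier_real_eq_integral_exp_smul]
    simp only [mul_zero, Complex.ofReal_zero, zero_mul, Complex.exp_zero, one_smul, hψ]
    exact integral_ofReal
  · intro u
    rw [aux_conv ψ θ hθ hθc hδ u]
    have hi1 : Integrable (fun v => ψ u * ift θ v) := hΘi.const_mul _
    have hi2 : Integrable (fun v => ψ (u - δ * v) * ift θ v) := by
      obtain ⟨B, hB⟩ := hφcs.exists_bound_of_continuous hφC.continuous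
      refine hΘi.bdd_mul (c := B) ?_ (Eventually.of_forall fun v => hB _)
      exact (ψ.continuous.comp (by fun_prop)).aestronglyMeasurable
    have e1 : ((φ u : ℝ) : ℂ) - ∫ v, ψ (u - δ * v) * ift θ v
        = ∫ v, (ψ u - ψ (u - δ * v)) * ift θ v := by
      have : ((φ u : ℝ) : ℂ) = ∫ v, ψ u * ift θ v := by
        rw [integral_const_mul, hΘ1, mul_one, hψ]
      rw [this, ← integral_sub hi1 hi2]
      refine integral_congr_ae (Eventually.of_forall fun v => ?_)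
      simp only []
      ring
    rw [e1]
    calc ‖∫ v, (ψ u - ψ (u - δ * v)) * ift θ v‖
        ≤ ∫ v, (δ * ((1 + |u|) ^ 3)⁻¹) * (|v| * (C * (1 + |v|) ^ 3) * ‖ift θ v‖) := by
          refine norm_integral_le_of_norm_le (hK.const_mul _) (Eventually.of_forall fun v => ?_)
          rw [norm_mul, hψ, hψ, ← Complex.ofReal_sub, Complex.norm_real, Real.norm_eq_abs]
          calc |φ u - φ (u - δ * v)| * ‖ift θ v‖
              ≤ (δ * |v| * (C * (1 + |v|) ^ 3) * ((1 + |u|) ^ 3)⁻¹) * ‖ift θ v‖ :=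
                mul_le_mul_of_nonneg_right (hC u v δ hδ hδ1) (norm_nonneg _)
            _ = _ := by ring
      _ = (δ * ((1 + |u|) ^ 3)⁻¹) * M := by rw [integral_const_mul]
      _ = (δ * M) * ((1 + |u|) ^ 3)⁻¹ := by ring
      _ ≤ η * ((1 + |u|) ^ 3)⁻¹ := mul_le_mul_of_nonneg_right hδM (by positivity)

end Pool.Agent.H938D
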