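import Pool.Agent.H938_Dens.Defs
import Pool.Agent.H938_Dens.L10
import Pool.Agent.H938_Dens.L23
import Pool.Agent.H938_Dens.L24

set_option autoImplicit false

namespace Pool.Agent.H938D

open MeasureTheory Filter Topology


theorem summable_inv_sq_int : Summable (fun j : ℤ => ((1 + |(j : ℝ)|) ^ 2)⁻¹) := by
  have h1 : Summable (fun j : ℤ => (1 : ℝ) / (j : ℝ) ^ 2) :=
    Real.summable_one_div_int_pow.mpr (by norm_num)
  have h2 : Summable (fun j : ℤ => (1 : ℝ) / (j : ℝ) ^ 2 + if j = 0 then (1 : ℝ) else 0) := by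
    refine h1.add ?_
    exact (hasSum_ite_eq (0 : ℤ) (1 : ℝ)).summable
  refine Summable.of_nonneg_of_le (fun j => by positivity) (fun j => ?_) h2
  by_cases hj : j = 0
  · subst hj; simp
  · simp only [hj, if_false, add_zero, one_div]
    have hj' : (0 : ℝ) < |(j : ℝ)| := by
      have : (j : ℝ) ≠ 0 := by exact_mod_cast hj
      positivity
    apply inv_anti₀
    · have : (j : ℝ) ≠ 0 := by exact_mod_cast hj
      positivity
    · rw [← sq_abs (j : ℝ)]
      apply pow_le_pow_left₀ (abs_nonneg _)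
      linarith

theorem summable_inv_cube_int : Summable (fun j : ℤ => ((1 + |(j : ℝ)|) ^ 3)⁻¹) := by
  refine Summable.of_nonneg_of_le (fun j => by positivity) (fun j => ?_) summable_inv_sq_int
  apply inv_anti₀ (by positivity)
  have h0 : (1 : ℝ) ≤ 1 + |(j : ℝ)| := by linarith [abs_nonneg (j : ℝ)]
  exact pow_le_pow_right₀ h0 (by norm_num)

theorem PP_sub (β : ℝ) (n : ℕ) (ρ σ : ℝ → ℂ) (x : ℝ) :
    PP β n (fun u => ρ u - σ u) x = PP β n ρ x - PP β n σ x := by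
  unfold PP
  rw [← mul_sub, ← Finset.sum_sub_distrib]

/-- TARGET -/
theorem test_lim {β : ℝ} {h : ℝ → ℝ} (D : Dens β h) {x : ℝ} (G : Good h x) (φ : ℝ → ℝ)
    (hφ : ContDiff ℝ (⊤ : ℕ∞) φ) (hc : HasCompactSupport φ) :
    Tendsto (fun n : ℕ => PP β n (fun u => (φ u : ℂ)) x) atTop
      (𝓝 ((h x : ℂ) * ((∫ u, φ u : ℝ) : ℂ))) := by
  rw [Metric.tendsto_nhds]
  intro ε hε
  set S : ℝ := ∑' j : ℤ, ((1 + |(j : ℝ)|) ^ 3)⁻¹ with hS
  have hS0 : 0 ≤ S := tsum_nonneg (fun j => by positivity)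
  set C : ℝ := (1 + 1 / (β - 1)) * h x * (8 * S) with hC
  have hβ : 0 < β - 1 := by linarith [D.one_lt]
  have hC0 : 0 ≤ C := by
    have := D.nonneg x
    positivity
  have hη : 0 < ε / (3 * (C + 1)) := by positivity
  obtain ⟨g, hg, hgc, hg0, hgb⟩ := approx_band φ hφ hc hη
  set η : ℝ := ε / (3 * (C + 1)) with hηd
  set w : ℤ → ℝ := fun j => 8 * η * ((1 + |(j : ℝ)|) ^ 3)⁻¹ with hw
  have hb : ∀ u : ℝ, ‖(φ u : ℂ) - ift g u‖ ≤ w ⌊u⌋ := by
    intro u
    refine (hgb u).trans ?_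
    have hfl : |((⌊u⌋ : ℤ) : ℝ)| ≤ |u| + 1 := by
      have h1 := Int.floor_le u
      have h2 := Int.lt_floor_add_one u
      rw [abs_le]
      constructor
      · linarith [neg_abs_le u]
      · linarith [le_abs_self u]
    have h3 : (1 + |((⌊u⌋ : ℤ) : ℝ)|) ^ 3 ≤ (2 * (1 + |u|)) ^ 3 := by
      apply pow_le_pow_left₀ (by positivity)
      linarith [abs_nonneg u]
    have h4 : ((1 + |u|) ^ 3)⁻¹ = 8 * ((2 * (1 + |u|)) ^ 3)⁻¹ := by
      have : (0 : ℝ) < 1 + |u| := by positivity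
      field_simp
      norm_num
    have h5 : ((2 * (1 + |u|)) ^ 3)⁻¹ ≤ ((1 + |((⌊u⌋ : ℤ) : ℝ)|) ^ 3)⁻¹ :=
      inv_anti₀ (by positivity) h3
    simp only [hw]
    rw [h4]
    have : η * (8 * ((2 * (1 + |u|)) ^ 3)⁻¹) = 8 * η * ((2 * (1 + |u|)) ^ 3)⁻¹ := by ring
    rw [this]
    exact mul_le_mul_of_nonneg_left h5 (by positivity)
  have hsum : Summable (fun j : ℤ => (|(j : ℝ)| + 1) * w j) := by
    have h1 := summable_inv_sq_int.mul_left (8 * η)
    refine h1.congr (fun j => ?_)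
    simp only [hw]
    have : (0 : ℝ) < 1 + |(j : ℝ)| := by positivity
    field_simp
    ring
  have hwsum : ∑' j : ℤ, w j = 8 * η * S := by
    simp only [hw]
    rw [tsum_mul_left]
  have hl := limsup_bound D G (fun u => (φ u : ℂ) - ift g u) w hb hsum (ε / 3) (by positivity)
  have hbl := bandlim D G g hg hgc
  rw [Metric.tendsto_nhds] at hbl
  have hbl' := hbl (ε / 3) (by positivity)
  filter_upwards [hl, hbl'] with n h1 h2
  rw [hg0] at h2
  rw [hwsum, PP_sub] at h1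
  have h3 : (1 + 1 / (β - 1)) * h x * (8 * η * S) ≤ ε / 3 := by
    have e1 : (1 + 1 / (β - 1)) * h x * (8 * η * S) = C * η := by rw [hC]; ring
    rw [e1, hηd]
    have : C * (ε / (3 * (C + 1))) = (ε / 3) * (C / (C + 1)) := by
      field_simp
    rw [this]
    have h4 : C / (C + 1) ≤ 1 := by
      rw [div_le_one (by positivity)]
      linarith
    nlinarith
  rw [dist_eq_norm] at h2 ⊢
  calc ‖PP β n (fun u => (φ u : ℂ)) x - (h x : ℂ) * ((∫ u, φ u : ℝ) : ℂ)‖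
      = ‖(PP β n (fun u => (φ u : ℂ)) x - PP β n (ift g) x)
        + (PP β n (ift g) x - (h x : ℂ) * ((∫ u, φ u : ℝ) : ℂ))‖ := by ring_nf
    _ ≤ ‖PP β n (fun u => (φ u : ℂ)) x - PP β n (ift g) x‖
        + ‖PP β n (ift g) x - (h x : ℂ) * ((∫ u, φ u : ℝ) : ℂ)‖ := norm_add_le _ _
    _ < ε := by
        have h1' : ‖PP β n (fun u => (φ u : ℂ)) x - PP β n (ift g) x‖ ≤
          (1 + 1 / (β - 1)) * h x * (8 * η * S) + ε / 3 := h1
        linarith

end Pool.Agent.H938D
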