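import Pool.Agent.H938_Dens.Defs
import Pool.Agent.H938_Dens.L01
import Pool.Agent.H938_Dens.L25

set_option autoImplicit false

namespace Pool.Agent.H938D

open MeasureTheory Filter Topology


/-- real part of the transfer operator on real functions -/
theorem fB_lim_re (β : ℝ) (n : ℕ) (φ : ℝ → ℝ) (x : ℝ) :
    (PP β n (fun u => (φ u : ℂ)) x).re =
      (β / 2) ^ n * ∑ a : Fin n → Bool, φ (β ^ n * (x - XX β a)) := by
  unfold PP
  rw [← Complex.ofReal_sum, ← Complex.ofReal_mul, Complex.ofReal_re]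

open Classical in
theorem fB_lim_cnt (β : ℝ) (n : ℕ) (x R : ℝ) :
    cnt β n x 0 R = (β / 2) ^ n * ∑ a : Fin n → Bool,
      (if 0 ≤ β ^ n * (x - XX β a) ∧ β ^ n * (x - XX β a) ≤ R then (1 : ℝ) else 0) := by
  unfold cnt
  congr 1
  rw [Finset.sum_ite, Finset.sum_const, Finset.sum_const]
  simp

theorem fB_lim_up {β : ℝ} (h1 : 1 < β) (n : ℕ) (x : ℝ) (φ : ℝ → ℝ)
    (hφ0 : ∀ u, 0 ≤ φ u) (hφ : ∀ u, 0 ≤ u → u ≤ 1 / (β - 1) → 1 ≤ φ u) :
    fB β n x ≤ (β - 1) * (PP β n (fun u => (φ u : ℂ)) x).re := by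
  classical
  rw [fB_eq h1, fB_lim_re, fB_lim_cnt]
  have hb : 0 ≤ (β / 2) ^ n := pow_nonneg (by linarith) _
  refine mul_le_mul_of_nonneg_left (mul_le_mul_of_nonneg_left ?_ hb) (by linarith)
  refine Finset.sum_le_sum fun a _ => ?_
  split_ifs with hc
  · exact hφ _ hc.1 hc.2
  · exact hφ0 _

theorem fB_lim_dn {β : ℝ} (h1 : 1 < β) (n : ℕ) (x : ℝ) (φ : ℝ → ℝ)
    (hφ0 : ∀ u, φ u ≤ 1) (hφ : ∀ u, ¬ (0 ≤ u ∧ u ≤ 1 / (β - 1)) → φ u ≤ 0) :
    (β - 1) * (PP β n (fun u => (φ u : ℂ)) x).re ≤ fB β n x := by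
  classical
  rw [fB_eq h1, fB_lim_re, fB_lim_cnt]
  have hb : 0 ≤ (β / 2) ^ n := pow_nonneg (by linarith) _
  refine mul_le_mul_of_nonneg_left (mul_le_mul_of_nonneg_left ?_ hb) (by linarith)
  refine Finset.sum_le_sum fun a _ => ?_
  split_ifs with hc
  · exact hφ0 _
  · exact hφ _ hc

theorem fB_lim_tend {β : ℝ} {h : ℝ → ℝ} (D : Dens β h) {x : ℝ} (G : Good h x) {c : ℝ}
    (φ : ContDiffBump c) :
    Tendsto (fun n : ℕ => (β - 1) * (PP β n (fun u => (φ u : ℂ)) x).re) atTop
      (𝓝 ((β - 1) * (h x * ∫ u, φ u))) := by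
  have h1 := test_lim D G (fun u => φ u) φ.contDiff φ.hasCompactSupport
  have h2 := (Complex.continuous_re.tendsto _).comp h1
  have h3 := h2.const_mul (β - 1)
  rw [← Complex.ofReal_mul, Complex.ofReal_re] at h3
  exact h3

/-- TARGET -/
theorem fB_lim {β : ℝ} {h : ℝ → ℝ} (D : Dens β h) {x : ℝ} (G : Good h x) :
    Tendsto (fun n : ℕ => fB β n x) atTop (𝓝 (h x)) := by
  have hb1 := D.one_lt
  have hb : 0 < β - 1 := by linarith
  obtain ⟨R, hR⟩ : ∃ R : ℝ, R = 1 / (β - 1) := ⟨_, rfl⟩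
  have hR0 : 0 < R := by rw [hR]; positivity
  have hRb : (β - 1) * R = 1 := by rw [hR]; field_simp
  have hh := D.nonneg x
  rw [tendsto_order]
  constructor
  · intro a ha
    -- choose η
    obtain ⟨η, hη0, hη1, hη2⟩ : ∃ η : ℝ, 0 < η ∧ η < R / 2 ∧ a < h x * (1 - 2 * η * (β - 1)) := by
      have hc : Tendsto (fun η : ℝ => h x * (1 - 2 * η * (β - 1))) (𝓝[>] 0)
          (𝓝 (h x * (1 - 2 * 0 * (β - 1)))) := by
        apply Tendsto.mono_left _ nhdsWithin_le_nhds
        exact (Continuous.tendsto (by fun_prop) 0)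
      have he := hc.eventually (lt_mem_nhds (show a < h x * (1 - 2 * 0 * (β - 1)) by simpa using ha))
      have he2 : ∀ᶠ η : ℝ in 𝓝[>] 0, η < R / 2 :=
        nhdsWithin_le_nhds (gt_mem_nhds (by linarith))
      have he3 : ∀ᶠ η : ℝ in 𝓝[>] 0, 0 < η := eventually_mem_nhdsWithin
      obtain ⟨η, h1, h2, h3⟩ := (he.and (he2.and he3)).exists
      exact ⟨η, h3, h2, h1⟩
    let φ : ContDiffBump (R / 2) := ⟨R / 2 - η, R / 2, by linarith, by linarith⟩
    have hint : R - 2 * η ≤ ∫ u, φ u := by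
      have h1 := φ.measure_closedBall_le_integral volume
      have h2 : volume.real (Metric.closedBall (R / 2) φ.rIn) = R - 2 * η := by
        change volume.real (Metric.closedBall (R / 2) (R / 2 - η)) = R - 2 * η
        rw [Real.closedBall_eq_Icc, Real.volume_real_Icc_of_le (by linarith)]
        ring
      rw [h2] at h1
      exact h1
    have hlim := fB_lim_tend D G φ
    have hlt : a < (β - 1) * (h x * ∫ u, φ u) := by
      refine hη2.trans_le ?_
      have h1 : h x * (R - 2 * η) ≤ h x * ∫ u, φ u := mul_le_mul_of_nonneg_left hint hh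
      have h2 : (β - 1) * (h x * (R - 2 * η)) ≤ (β - 1) * (h x * ∫ u, φ u) :=
        mul_le_mul_of_nonneg_left h1 hb.le
      have h3 : (β - 1) * (h x * (R - 2 * η)) = h x * (1 - 2 * η * (β - 1)) := by
        linear_combination (h x) * hRb
      rw [h3] at h2
      exact h2
    filter_upwards [hlim.eventually (lt_mem_nhds hlt)] with n hn
    refine hn.trans_le (fB_lim_dn hb1 n x (fun u => φ u) (fun u => φ.le_one) ?_)
    intro u hu
    have : φ u = 0 := by
      apply φ.zero_of_le_dist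
      change R / 2 ≤ dist u (R / 2)
      rw [← hR] at hu
      rw [Real.dist_eq, le_abs]
      by_contra hne
      push Not at hne
      exact hu ⟨by linarith [hne.2], by linarith [hne.1]⟩
    exact this.le
  · intro a ha
    obtain ⟨η, hη0, hη2⟩ : ∃ η : ℝ, 0 < η ∧ h x * (1 + 2 * η * (β - 1)) < a := by
      have hc : Tendsto (fun η : ℝ => h x * (1 + 2 * η * (β - 1))) (𝓝[>] 0)
          (𝓝 (h x * (1 + 2 * 0 * (β - 1)))) := by
        apply Tendsto.mono_left _ nhdsWithin_le_nhds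
        exact (Continuous.tendsto (by fun_prop) 0)
      have he := hc.eventually (gt_mem_nhds (show h x * (1 + 2 * 0 * (β - 1)) < a by simpa using ha))
      have he3 : ∀ᶠ η : ℝ in 𝓝[>] 0, 0 < η := eventually_mem_nhdsWithin
      obtain ⟨η, h1, h3⟩ := (he.and he3).exists
      exact ⟨η, h3, h1⟩
    let φ : ContDiffBump (R / 2) := ⟨R / 2, R / 2 + η, by linarith, by linarith⟩
    have hint : ∫ u, φ u ≤ R + 2 * η := by
      have h1 := φ.integral_le_measure_closedBall volume
      have h2 : volume.real (Metric.closedBall (R / 2) φ.rOut) = R + 2 * η := by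
        change volume.real (Metric.closedBall (R / 2) (R / 2 + η)) = R + 2 * η
        rw [Real.closedBall_eq_Icc, Real.volume_real_Icc_of_le (by linarith)]
        ring
      rw [h2] at h1
      exact h1
    have hlim := fB_lim_tend D G φ
    have hlt : (β - 1) * (h x * ∫ u, φ u) < a := by
      refine lt_of_le_of_lt ?_ hη2
      have h1 : h x * ∫ u, φ u ≤ h x * (R + 2 * η) := mul_le_mul_of_nonneg_left hint hh
      have h2 : (β - 1) * (h x * ∫ u, φ u) ≤ (β - 1) * (h x * (R + 2 * η)) :=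
        mul_le_mul_of_nonneg_left h1 hb.le
      have h3 : (β - 1) * (h x * (R + 2 * η)) = h x * (1 + 2 * η * (β - 1)) := by
        linear_combination (h x) * hRb
      rw [h3] at h2
      exact h2
    filter_upwards [hlim.eventually (gt_mem_nhds hlt)] with n hn
    refine (fB_lim_up hb1 n x (fun u => φ u) (fun u => φ.nonneg) ?_).trans_lt hn
    intro u hu0 hu1
    have : φ u = 1 := by
      apply φ.one_of_mem_closedBall
      change u ∈ Metric.closedBall (R / 2) (R / 2)
      rw [← hR] at hu1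
      rw [Real.closedBall_eq_Icc, Set.mem_Icc]
      constructor <;> linarith
    exact this.ge

end Pool.Agent.H938D
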