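import Pool.Agent.H938_Dens.Defs
import Pool.Agent.H938_Dens.L04
import Pool.Agent.H938_Dens.L05
import Pool.Agent.H938_Dens.L11
import Pool.Agent.H938_Dens.L19
import Pool.Agent.H938_Dens.L26

set_option autoImplicit false

namespace Pool.Agent.H938D

open MeasureTheory Filter Topology

theorem Q2 {β : ℝ} (h1 : 1 < β) (h2 : β < 2) (hac : nuB β ≪ (volume : Measure ℝ)) :
    ∀ᵐ x, Tendsto (fun n => fB β n x) atTop (𝓝 ((nuB β).rnDeriv volume x).toReal) := by
  obtain ⟨h, D, hD⟩ := exists_dens h1 h2 hac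
  filter_upwards [ae_good D, hD] with x hx hx2
  rw [← hx2]
  exact fB_lim D hx

end Pool.Agent.H938D
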